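import Pool.Agent.Lib.MP_009209_ag.Imprim

/-!
# Normal subgroups with abelian image
-/

namespace Pool.Agent.MP_009209

open Matrix

variable {Γ : Type*} [Group Γ] {n : ℕ}

/-- a common eigenvector of commuting endomorphisms -/
theorem common_eig {ι : Type*} {V : Type*} [AddCommGroup V] [Module ℂ V] [FiniteDimensional ℂ V]
    (f : ι → Module.End ℂ V) (hc : ∀ i j v, f i (f j v) = f j (f i v)) :
    ∀ (m : ℕ) (W : Submodule ℂ V), Module.finrank ℂ W = m → W ≠ ⊥ → (∀ i, ∀ v ∈ W, f i v ∈ W) →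
      ∃ χ : ι → ℂ, ∃ v ∈ W, v ≠ 0 ∧ ∀ i, f i v = χ i • v := by
  intro m
  induction m using Nat.strong_induction_on with
  | _ m ih =>
  intro W hm hW hst
  by_cases h : ∀ i, ∃ c : ℂ, ∀ v ∈ W, f i v = c • v
  · choose χ hχ using h
    obtain ⟨v, hv, hv0⟩ := Submodule.exists_mem_ne_zero_of_ne_bot hW
    exact ⟨χ, v, hv, hv0, fun i => hχ i v hv⟩
  · push Not at h
    obtain ⟨i, hi⟩ := h
    have : Nontrivial W := (Submodule.nontrivial_iff_ne_bot).2 hW
    obtain ⟨μ, hμ⟩ := Module.End.exists_eigenvalue ((f i).restrict (hst i))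
    obtain ⟨w, hw⟩ := hμ.exists_hasEigenvector
    have hw1 : f i (w : V) = μ • (w : V) := by
      have := congrArg Subtype.val (Module.End.mem_eigenspace_iff.1 hw.1)
      simpa using this
    have hw0 : (w : V) ≠ 0 := fun h0 => hw.2 (Subtype.ext h0)
    set W1 : Submodule ℂ V := W ⊓ (f i).eigenspace μ with hW1
    have h1 : W1 ≠ ⊥ := by
      intro hb
      apply hw0
      have : (w : V) ∈ W1 := ⟨w.2, Module.End.mem_eigenspace_iff.2 hw1⟩
      rw [hb] at this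
      simpa using this
    have h2 : W1 < W := by
      refine lt_of_le_of_ne inf_le_left ?_
      intro he
      obtain ⟨v, hv, hv1⟩ := hi μ
      rw [← he] at hv
      exact hv1 (Module.End.mem_eigenspace_iff.1 hv.2)
    have h3 : Module.finrank ℂ W1 < m := hm ▸ Submodule.finrank_lt_finrank_of_lt h2
    obtain ⟨χ, v, hv, hv0, hχ⟩ := ih _ h3 W1 rfl h1 (by
      intro j v hv
      refine ⟨hst j v hv.1, Module.End.mem_eigenspace_iff.2 ?_⟩
      rw [hc i j v, Module.End.mem_eigenspace_iff.1 hv.2, map_smul])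
    exact ⟨χ, v, hv.1, hv0, hχ⟩

section

variable (ρ : Γ →* GL (Fin n) ℂ) (N : Subgroup Γ)

/-- the common eigenspaces of `ρ(N)` -/
noncomputable def E (χ : N → ℂ) : Submodule ℂ (Fin n → ℂ) :=
  ⨅ a : N, Module.End.eigenspace (Matrix.toLin' (ρ a : Matrix (Fin n) (Fin n) ℂ)) (χ a)

theorem mem_E {χ : N → ℂ} {v : Fin n → ℂ} :
    v ∈ E ρ N χ ↔ ∀ a : N, (ρ a : Matrix (Fin n) (Fin n) ℂ) *ᵥ v = χ a • v := by
  simp [E, Submodule.mem_iInf]

variable (hab : ∀ a ∈ N, ∀ b ∈ N, ρ a * ρ b = ρ b * ρ a)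

include hab in
theorem E_indep : iSupIndep (E ρ N) := by
  have h1 : ∀ i j : N, Commute (Matrix.toLin' (ρ i : Matrix (Fin n) (Fin n) ℂ))
      (Matrix.toLin' (ρ j : Matrix (Fin n) (Fin n) ℂ)) := by
    intro i j
    rw [commute_iff_eq, Module.End.mul_eq_comp, Module.End.mul_eq_comp, ← Matrix.toLin'_mul,
      ← Matrix.toLin'_mul]
    have := congrArg (fun g : GL (Fin n) ℂ => (g : Matrix (Fin n) (Fin n) ℂ)) (hab i i.2 j j.2)
    simp only [Units.val_mul] at this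
    rw [this]
  have h2 := Module.End.independent_iInf_maxGenEigenspace_of_forall_mapsTo
    (fun a : N => Matrix.toLin' (ρ a : Matrix (Fin n) (Fin n) ℂ))
    (fun i j φ => Module.End.mapsTo_maxGenEigenspace_of_comm (h1 j i) φ)
  refine h2.mono fun χ => ?_
  exact iInf_mono fun a => (Module.End.genEigenspace _ _).mono le_top

variable [N.Normal]

/-- conjugation of characters -/
def cj (γ : Γ) (χ : N → ℂ) : N → ℂ := fun a => χ (MulAut.conjNormal γ⁻¹ a)

theorem cj_one (χ : N → ℂ) : cj N 1 χ = χ := by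
  ext a
  simp [cj]

theorem cj_mul (γ δ : Γ) (χ : N → ℂ) : cj N (γ * δ) χ = cj N γ (cj N δ χ) := by
  ext a
  simp [cj]

theorem E_perm (γ : Γ) (χ : N → ℂ) {v : Fin n → ℂ} (hv : v ∈ E ρ N χ) :
    (ρ γ : Matrix (Fin n) (Fin n) ℂ) *ᵥ v ∈ E ρ N (cj N γ χ) := by
  rw [mem_E] at hv ⊢
  intro a
  have h1 := hv (MulAut.conjNormal γ⁻¹ a)
  have h2 : (a : Γ) * γ = γ * (MulAut.conjNormal γ⁻¹ a : N) := by
    simp [mul_assoc]
  have h3 : (ρ a : Matrix (Fin n) (Fin n) ℂ) * (ρ γ : Matrix (Fin n) (Fin n) ℂ) =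
      (ρ γ : Matrix (Fin n) (Fin n) ℂ) *
        (ρ (MulAut.conjNormal γ⁻¹ a : N) : Matrix (Fin n) (Fin n) ℂ) := by
    rw [← Units.val_mul, ← Units.val_mul, ← map_mul, ← map_mul, h2]
  rw [Matrix.mulVec_mulVec, h3, ← Matrix.mulVec_mulVec, h1, Matrix.mulVec_smul]
  rfl

theorem gl_mulVec_ne_zero (g : GL (Fin n) ℂ) {v : Fin n → ℂ} (hv : v ≠ 0) :
    (g : Matrix (Fin n) (Fin n) ℂ) *ᵥ v ≠ 0 := by
  intro h
  apply hv
  have h1 : ((g⁻¹ : GL (Fin n) ℂ) : Matrix (Fin n) (Fin n) ℂ) *ᵥ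
      ((g : Matrix (Fin n) (Fin n) ℂ) *ᵥ v) = v := by
    rw [Matrix.mulVec_mulVec, ← Units.val_mul, inv_mul_cancel, Units.val_one, Matrix.one_mulVec]
  rw [← h1, h, Matrix.mulVec_zero]

theorem E_ne_bot (γ : Γ) (χ : N → ℂ) (h : E ρ N χ ≠ ⊥) : E ρ N (cj N γ χ) ≠ ⊥ := by
  obtain ⟨v, hv, hv0⟩ := Submodule.exists_mem_ne_zero_of_ne_bot h
  intro hb
  have := E_perm ρ N γ χ hv
  rw [hb, Submodule.mem_bot] at this
  exact gl_mulVec_ne_zero _ hv0 this

/-- the action on the characters that occur -/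
@[reducible] def actI : MulAction Γ {χ : N → ℂ // E ρ N χ ≠ ⊥} where
  smul γ χ := ⟨cj N γ χ.1, E_ne_bot ρ N γ χ.1 χ.2⟩
  one_smul χ := Subtype.ext (cj_one N χ.1)
  mul_smul γ δ χ := Subtype.ext (cj_mul N γ δ χ.1)

include hab in
theorem E_sup (hs : Semisimple ρ) : ⨆ χ : {χ : N → ℂ // E ρ N χ ≠ ⊥}, E ρ N χ.1 = ⊤ := by
  rw [iSup_ne_bot_subtype]
  have hst : Stable ρ (⨆ χ, E ρ N χ) := by
    intro γ v hv
    refine Submodule.iSup_induction (E ρ N)
      (motive := fun v => (ρ γ : Matrix (Fin n) (Fin n) ℂ) *ᵥ v ∈ ⨆ χ, E ρ N χ) hv ?_ ?_ ?_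
    · intro χ w hw
      exact Submodule.mem_iSup_of_mem (cj N γ χ) (E_perm ρ N γ χ hw)
    · rw [Matrix.mulVec_zero]
      exact Submodule.zero_mem _
    · intro x y hx hy
      rw [Matrix.mulVec_add]
      exact Submodule.add_mem _ hx hy
  obtain ⟨W, hW, hc⟩ := hs _ hst
  by_cases hb : W = ⊥
  · have := hc.sup_eq_top
    rwa [hb, sup_bot_eq] at this
  · exfalso
    obtain ⟨χ, v, hv, hv0, hχ⟩ := common_eig
      (fun a : N => Matrix.toLin' (ρ a : Matrix (Fin n) (Fin n) ℂ)) (by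
        intro i j v
        simp only [Matrix.toLin'_apply, Matrix.mulVec_mulVec]
        rw [← Units.val_mul, ← Units.val_mul, hab i i.2 j j.2]) _ W rfl hb (by
        intro a v hv
        exact hW a v hv)
    have h1 : v ∈ ⨆ χ, E ρ N χ := by
      refine Submodule.mem_iSup_of_mem χ ?_
      rw [mem_E]
      intro a
      simpa using hχ a
    have h2 : v ∈ (⨆ χ, E ρ N χ) ⊓ W := ⟨h1, hv⟩
    rw [hc.inf_eq_bot, Submodule.mem_bot] at h2
    exact hv0 h2

end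

/-- A subgroup `H` preserving `W` gives `det` on `W`. -/
noncomputable def detOn (ρ : Γ →* GL (Fin n) ℂ) (H : Subgroup Γ) (W : Submodule ℂ (Fin n → ℂ))
    (hW : ∀ h ∈ H, ∀ v ∈ W, (ρ h : Matrix (Fin n) (Fin n) ℂ) *ᵥ v ∈ W) : H →* ℂ where
  toFun h := LinearMap.det
    ((Matrix.toLin' (ρ h : Matrix (Fin n) (Fin n) ℂ)).restrict (p := W) (q := W)
      fun v hv => by simpa using hW h h.2 v hv)
  map_one' := by
    have : (Matrix.toLin' (ρ ((1 : H) : Γ) : Matrix (Fin n) (Fin n) ℂ)).restrict (p := W) (q := W)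
      (fun v hv => by simpa using hW (1 : H) (1 : H).2 v hv) = LinearMap.id := by
      ext v
      simp
    rw [this, LinearMap.det_id]
  map_mul' a b := by
    rw [← LinearMap.det_comp]
    congr 1
    ext v
    simp

theorem detOn_smul (ρ : Γ →* GL (Fin n) ℂ) (H : Subgroup Γ) (W : Submodule ℂ (Fin n → ℂ))
    (hW : ∀ h ∈ H, ∀ v ∈ W, (ρ h : Matrix (Fin n) (Fin n) ℂ) *ᵥ v ∈ W) (h : H) (c : ℂ)
    (hc : ∀ v ∈ W, (ρ h : Matrix (Fin n) (Fin n) ℂ) *ᵥ v = c • v) :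
    detOn ρ H W hW h = c ^ Module.finrank ℂ W := by
  have : (Matrix.toLin' (ρ h : Matrix (Fin n) (Fin n) ℂ)).restrict (p := W) (q := W)
      (fun v hv => by simpa using hW h h.2 v hv) = c • LinearMap.id := by
    refine LinearMap.ext fun v => Subtype.ext ?_
    simpa using hc v v.2
  change LinearMap.det _ = _
  rw [this, LinearMap.det_smul, LinearMap.det_id, mul_one]

theorem ab_case [Group.FG Γ] {ρ : Γ →* GL (Fin n) ℂ} (hr : Rigid ρ) (hs : Semisimple ρ)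
    (N : Subgroup Γ) [N.Normal] (hab : ∀ a ∈ N, ∀ b ∈ N, ρ a * ρ b = ρ b * ρ a) :
    (Set.range fun a : N => ρ a).Finite := by
  classical
  have hfin : Finite {χ : N → ℂ // E ρ N χ ≠ ⊥} :=
    (WellFoundedGT.finite_ne_bot_of_iSupIndep (E_indep ρ N hab)).to_subtype
  let _ := actI ρ N
  have hind : iSupIndep fun χ : {χ : N → ℂ // E ρ N χ ≠ ⊥} => E ρ N χ.1 :=
    (E_indep ρ N hab).comp Subtype.val_injective
  have hsup := E_sup ρ N hab hs
  have hperm : ∀ (γ : Γ) (χ : {χ : N → ℂ // E ρ N χ ≠ ⊥}), ∀ v ∈ E ρ N χ.1,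
      (ρ γ : Matrix (Fin n) (Fin n) ℂ) *ᵥ v ∈ E ρ N (γ • χ).1 := fun γ χ v hv =>
    E_perm ρ N γ χ.1 hv
  have key : ∀ χ : {χ : N → ℂ // E ρ N χ ≠ ⊥}, ∃ M : ℕ, 0 < M ∧ ∀ a : N, χ.1 a ^ M = 1 := by
    intro χ
    have h1 := finite_ab_stab hr (fun χ : {χ : N → ℂ // E ρ N χ ≠ ⊥} => E ρ N χ.1) hind hsup
      hperm χ χ.2
    have hW : ∀ h ∈ MulAction.stabilizer Γ χ, ∀ v ∈ E ρ N χ.1,
        (ρ h : Matrix (Fin n) (Fin n) ℂ) *ᵥ v ∈ E ρ N χ.1 := by
      intro h hh v hv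
      have := hperm h χ v hv
      rwa [MulAction.mem_stabilizer_iff.1 hh] at this
    have hN : ∀ a ∈ N, a ∈ MulAction.stabilizer Γ χ := by
      intro a ha
      rw [MulAction.mem_stabilizer_iff]
      obtain ⟨v, hv, hv0⟩ := Submodule.exists_mem_ne_zero_of_ne_bot χ.2
      refine Subtype.ext (funext fun b => ?_)
      change χ.1 (MulAut.conjNormal a⁻¹ b) = χ.1 b
      rw [mem_E] at hv
      have e1 := hv b
      have e2 := hv (MulAut.conjNormal a⁻¹ b)
      have e3 : ρ ((MulAut.conjNormal a⁻¹ b : N) : Γ) = ρ b := by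
        rw [MulAut.conjNormal_apply]
        simp only [map_mul, inv_inv, map_inv]
        rw [mul_assoc, hab b b.2 a ha, inv_mul_cancel_left]
      rw [e3, e1] at e2
      exact (smul_left_injective ℂ hv0 e2).symm
    obtain ⟨K, hK, hK1⟩ := exists_pow_eq_one (MulAction.stabilizer Γ χ)
      (detOn ρ (MulAction.stabilizer Γ χ) (E ρ N χ.1) hW).toHomUnits
    refine ⟨Module.finrank ℂ (E ρ N χ.1) * K, Nat.mul_pos ?_ hK, fun a => ?_⟩
    · rw [Module.finrank_pos_iff]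
      exact (Submodule.nontrivial_iff_ne_bot).2 χ.2
    · have h2 := congrArg Units.val (hK1 ⟨a, hN a a.2⟩)
      rw [Units.val_pow_eq_pow_val, MonoidHom.coe_toHomUnits, detOn_smul _ _ _ _ _ (χ.1 a)] at h2
      · rw [pow_mul, h2, Units.val_one]
      · intro v hv
        exact (mem_E ρ N).1 hv a
  choose M hM hM1 using key
  set Φ : N → ({χ : N → ℂ // E ρ N χ ≠ ⊥} → ℂ) := fun a χ => χ.1 a with hΦ
  have hΦfin : (Set.range Φ).Finite := by
    refine Set.Finite.subset (Set.Finite.pi'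
      (t := fun χ : {χ : N → ℂ // E ρ N χ ≠ ⊥} => {z : ℂ | z ^ M χ = 1}) fun χ => ?_) ?_
    · have : {z : ℂ | z ^ M χ = 1} ⊆ ((Polynomial.nthRootsFinset (M χ) (1 : ℂ) : Finset ℂ) : Set ℂ) := by
        intro z hz
        rw [Finset.mem_coe, Polynomial.mem_nthRootsFinset (hM χ)]
        exact hz
      exact (Finset.finite_toSet _).subset this
    · rintro _ ⟨a, rfl⟩ χ
      exact hM1 χ a
  have hfac : Function.FactorsThrough (fun a : N => ρ a) Φ := by
    intro a b hab'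
    refine Units.ext ?_
    apply Matrix.toLin'.injective
    refine LinearMap.ext fun v => ?_
    have hv : v ∈ ⨆ χ : {χ : N → ℂ // E ρ N χ ≠ ⊥}, E ρ N χ.1 := by
      rw [hsup]
      trivial
    refine Submodule.iSup_induction (fun χ : {χ : N → ℂ // E ρ N χ ≠ ⊥} => E ρ N χ.1)
      (motive := fun v => Matrix.toLin' (ρ a : Matrix (Fin n) (Fin n) ℂ) v =
        Matrix.toLin' (ρ b : Matrix (Fin n) (Fin n) ℂ) v) hv ?_ ?_ ?_
    · intro χ w hw
      rw [mem_E] at hw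
      rw [Matrix.toLin'_apply, Matrix.toLin'_apply, hw a, hw b]
      have := congrFun hab' χ
      simp only [hΦ] at this
      rw [this]
    · simp
    · intro x y hx hy
      rw [map_add, map_add, hx, hy]
  obtain ⟨e, he⟩ := (Function.factorsThrough_iff _).1 hfac
  rw [he, Set.range_comp]
  exact hΦfin.image e

end Pool.Agent.MP_009209
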