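import Mathlib

/-!
# Kernels of nearby linear maps
-/

namespace Pool.Agent.MP_009209

open Filter Topology

/-- If `T'` is near `T` and its kernel is not smaller, then its kernel comes near each point of
the kernel of `T`. -/
theorem ker_cont {E F : Type*} [NormedAddCommGroup E] [NormedSpace ℂ E] [FiniteDimensional ℂ E]
    [NormedAddCommGroup F] [NormedSpace ℂ F] [FiniteDimensional ℂ F] (T : E →L[ℂ] F) (x : E)
    (hx : T x = 0) (U : Set E) (hU : U ∈ 𝓝 x) :
    ∀ᶠ T' : E →L[ℂ] F in 𝓝 T,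
      Module.finrank ℂ (LinearMap.ker (T : E →ₗ[ℂ] F)) ≤
        Module.finrank ℂ (LinearMap.ker (T' : E →ₗ[ℂ] F)) → ∃ x' ∈ U, T' x' = 0 := by
  have : CompleteSpace E := FiniteDimensional.complete ℂ E
  obtain ⟨D, hD⟩ := Submodule.exists_isCompl (LinearMap.ker (T : E →ₗ[ℂ] F))
  set f : D →ₗ[ℂ] F := (T : E →ₗ[ℂ] F).domRestrict D with hf
  have hfi : LinearMap.ker f = ⊥ := by
    rw [LinearMap.ker_eq_bot']
    intro d hd
    have h1 : (d : E) ∈ LinearMap.ker (T : E →ₗ[ℂ] F) ⊓ D := ⟨hd, d.2⟩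
    rw [hD.inf_eq_bot, Submodule.mem_bot] at h1
    exact Subtype.ext h1
  obtain ⟨R0, hR0⟩ := f.exists_leftInverse_of_injective hfi
  set π : E →ₗ[ℂ] E := (LinearMap.ker (T : E →ₗ[ℂ] F)).subtype ∘ₗ
    Submodule.projectionOnto _ _ hD with hπ
  set R : F →ₗ[ℂ] E := D.subtype ∘ₗ R0 with hR
  have hπk : ∀ y, T (π y) = 0 := fun y => (Submodule.projectionOnto _ _ hD y).2
  have hπD : ∀ y, y - π y ∈ D := by
    intro y
    have h1 : Submodule.projectionOnto _ _ hD (y - π y) = 0 := by
      rw [map_sub, hπ, LinearMap.comp_apply, Submodule.subtype_apply,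
        Submodule.projectionOnto_apply_left, sub_self]
    rwa [Submodule.projectionOnto_apply_eq_zero_iff] at h1
  have hRT : ∀ y, R (T y) = y - π y := by
    intro y
    have h1 : T y = f ⟨y - π y, hπD y⟩ := by
      change T y = T (y - π y)
      rw [map_sub, hπk, sub_zero]
    rw [h1, hR, LinearMap.comp_apply]
    have h2 := LinearMap.congr_fun hR0 ⟨y - π y, hπD y⟩
    rw [LinearMap.comp_apply] at h2
    rw [h2]
    rfl
  set Φ : (E →L[ℂ] F) → (E →L[ℂ] E) := fun T' =>
    LinearMap.toContinuousLinearMap π + (LinearMap.toContinuousLinearMap R).comp T' with hΦ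
  have hΦc : Continuous Φ := continuous_const.add (continuous_const.clm_comp continuous_id)
  have hΦa : ∀ T' y, Φ T' y = π y + R (T' y) := fun T' y => rfl
  have hΦ1 : Φ T = 1 := by
    ext y
    rw [hΦa, hRT]
    simp
  have h1 : ∀ᶠ T' in 𝓝 T, IsUnit (Φ T') := by
    refine hΦc.continuousAt.eventually (Units.isOpen.mem_nhds ?_)
    rw [hΦ1]
    exact isUnit_one
  have h2 : ContinuousAt (fun T' => Ring.inverse (Φ T') x) T := by
    have h3 : ContinuousAt Ring.inverse (Φ T) := by
      rw [hΦ1]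
      exact NormedRing.inverse_continuousAt (1 : (E →L[ℂ] E)ˣ)
    have h4 : ContinuousAt (fun T' => Ring.inverse (Φ T')) T :=
      ContinuousAt.comp (f := Φ) h3 hΦc.continuousAt
    exact h4.clm_apply continuousAt_const
  have h5 : ∀ᶠ T' in 𝓝 T, Ring.inverse (Φ T') x ∈ U := by
    refine h2.eventually_mem ?_
    change U ∈ 𝓝 (Ring.inverse (Φ T) x)
    rw [hΦ1, Ring.inverse_one]
    exact hU
  filter_upwards [h1, h5] with T' hu hy hdim
  refine ⟨_, hy, ?_⟩
  -- the restriction of `Φ T'` to the kernels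
  have hinv : ∀ y, Ring.inverse (Φ T') (Φ T' y) = y := by
    intro y
    exact congrArg (fun A : E →L[ℂ] E => A y) (Ring.inverse_mul_cancel _ hu)
  have hinj : Function.Injective (Φ T') := by
    intro a b hab
    rw [← hinv a, hab, hinv b]
  set ψ : LinearMap.ker (T' : E →ₗ[ℂ] F) →ₗ[ℂ] LinearMap.ker (T : E →ₗ[ℂ] F) :=
    LinearMap.restrict (Φ T' : E →ₗ[ℂ] E) (by
      intro y hy
      change T (Φ T' y) = 0
      rw [hΦa, show T' y = 0 from hy, map_zero, add_zero, hπk]) with hψ
  have hψi : Function.Injective ψ := by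
    intro a b hab
    refine Subtype.ext (hinj ?_)
    exact congrArg Subtype.val hab
  have hdim2 := LinearMap.finrank_le_finrank_of_injective hψi
  have hψs : Function.Surjective ψ :=
    (LinearMap.injective_iff_surjective_of_finrank_eq_finrank (le_antisymm hdim2 hdim)).1 hψi
  obtain ⟨k, hk⟩ := hψs ⟨x, hx⟩
  have hk1 : Φ T' k = x := congrArg Subtype.val hk
  rw [← hk1, hinv]
  exact k.2

end Pool.Agent.MP_009209
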