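import Pool.Agent.Lib.MP_009209_ag.IndTwist
import Pool.Agent.Lib.MP_009209_ag.KerCont

/-!
# The action of the stabiliser on a block of a rigid representation is rigid
-/

namespace Pool.Agent.MP_009209

open Matrix Filter Topology

variable {Γ : Type*} [Group Γ] {n m : ℕ}

section lin

variable {S0 : Finset Γ}

/-- the equations of an intertwiner -/
noncomputable def eqs (ρ : Γ →* GL (Fin n) ℂ) (S0 : Finset Γ)
    (z : S0 → Matrix (Fin n) (Fin n) ℂ) :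
    (Fin n → Fin n → ℂ) →L[ℂ] (S0 → Fin n → Fin n → ℂ) :=
  LinearMap.toContinuousLinearMap
    { toFun := fun Y s => (Matrix.of Y * z s - (ρ s : Matrix (Fin n) (Fin n) ℂ) * Matrix.of Y :
        Matrix (Fin n) (Fin n) ℂ)
      map_add' := fun Y Z => by
        funext s
        change (Matrix.of Y + Matrix.of Z) * z s -
          (ρ s : Matrix (Fin n) (Fin n) ℂ) * (Matrix.of Y + Matrix.of Z) =
          (Matrix.of Y * z s - (ρ s : Matrix (Fin n) (Fin n) ℂ) * Matrix.of Y) +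
          (Matrix.of Z * z s - (ρ s : Matrix (Fin n) (Fin n) ℂ) * Matrix.of Z)
        rw [add_mul, mul_add]
        abel
      map_smul' := fun c Y => by
        funext s
        change (c • Matrix.of Y) * z s - (ρ s : Matrix (Fin n) (Fin n) ℂ) * (c • Matrix.of Y) =
          c • (Matrix.of Y * z s - (ρ s : Matrix (Fin n) (Fin n) ℂ) * Matrix.of Y)
        rw [smul_mul_assoc, mul_smul_comm, smul_sub] }

theorem eqs_apply (ρ : Γ →* GL (Fin n) ℂ) (z : S0 → Matrix (Fin n) (Fin n) ℂ)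
    (Y : Matrix (Fin n) (Fin n) ℂ) (s : S0) :
    eqs ρ S0 z Y s = (Y * z s - (ρ s : Matrix (Fin n) (Fin n) ℂ) * Y :
      Matrix (Fin n) (Fin n) ℂ) := rfl

theorem eqs_cont (ρ : Γ →* GL (Fin n) ℂ) : Continuous (eqs ρ S0) := by
  rw [continuous_clm_apply]
  intro Y
  refine continuous_pi fun s => ?_
  have h : Continuous fun z : S0 → Matrix (Fin n) (Fin n) ℂ =>
      (Matrix.of Y * z s - (ρ s : Matrix (Fin n) (Fin n) ℂ) * Matrix.of Y) :=
    (continuous_const.matrix_mul (continuous_apply s)).sub continuous_const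
  exact h

/-- right multiplication -/
noncomputable def mr (G : Matrix (Fin n) (Fin n) ℂ) :
    (Fin n → Fin n → ℂ) →ₗ[ℂ] (Fin n → Fin n → ℂ) where
  toFun Y := (Matrix.of Y * G : Matrix (Fin n) (Fin n) ℂ)
  map_add' Y Z := by
    change (Matrix.of Y + Matrix.of Z) * G = Matrix.of Y * G + Matrix.of Z * G
    rw [add_mul]
  map_smul' c Y := by
    change (c • Matrix.of Y) * G = c • (Matrix.of Y * G)
    rw [smul_mul_assoc]

theorem eqs_dim {ρ ρ' : Γ →* GL (Fin n) ℂ} {g : GL (Fin n) ℂ} (hg : ∀ γ, ρ' γ = g * ρ γ * g⁻¹)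
    (z : S0 → Matrix (Fin n) (Fin n) ℂ)
    (hz : ∀ s : S0, z s = (ρ' s : Matrix (Fin n) (Fin n) ℂ)) :
    Module.finrank ℂ (LinearMap.ker (eqs ρ S0 (fun s => (ρ s : Matrix (Fin n) (Fin n) ℂ)) :
      (Fin n → Fin n → ℂ) →ₗ[ℂ] (S0 → Fin n → Fin n → ℂ))) ≤
    Module.finrank ℂ (LinearMap.ker (eqs ρ S0 z :
      (Fin n → Fin n → ℂ) →ₗ[ℂ] (S0 → Fin n → Fin n → ℂ))) := by
  have hmap : ∀ Y ∈ LinearMap.ker (eqs ρ S0 (fun s => (ρ s : Matrix (Fin n) (Fin n) ℂ)) :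
      (Fin n → Fin n → ℂ) →ₗ[ℂ] (S0 → Fin n → Fin n → ℂ)),
      mr ((g⁻¹ : GL (Fin n) ℂ) : Matrix (Fin n) (Fin n) ℂ) Y ∈
        LinearMap.ker (eqs ρ S0 z :
      (Fin n → Fin n → ℂ) →ₗ[ℂ] (S0 → Fin n → Fin n → ℂ)) := by
    intro Y hY
    rw [LinearMap.mem_ker] at hY ⊢
    funext s
    have h1 := congrFun hY s
    change Matrix.of Y * (ρ s : Matrix (Fin n) (Fin n) ℂ) -
      (ρ s : Matrix (Fin n) (Fin n) ℂ) * Matrix.of Y = 0 at h1
    change (Matrix.of Y * ((g⁻¹ : GL (Fin n) ℂ) : Matrix (Fin n) (Fin n) ℂ)) * z s -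
      (ρ s : Matrix (Fin n) (Fin n) ℂ) *
        (Matrix.of Y * ((g⁻¹ : GL (Fin n) ℂ) : Matrix (Fin n) (Fin n) ℂ)) = 0
    rw [hz, hg, Units.val_mul, Units.val_mul]
    have h2 : (Matrix.of Y * ((g⁻¹ : GL (Fin n) ℂ) : Matrix (Fin n) (Fin n) ℂ)) *
        ((g : Matrix (Fin n) (Fin n) ℂ) * (ρ s : Matrix (Fin n) (Fin n) ℂ) *
          ((g⁻¹ : GL (Fin n) ℂ) : Matrix (Fin n) (Fin n) ℂ)) =
        Matrix.of Y * (ρ s : Matrix (Fin n) (Fin n) ℂ) *
          ((g⁻¹ : GL (Fin n) ℂ) : Matrix (Fin n) (Fin n) ℂ) := by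
      have e : ((g⁻¹ : GL (Fin n) ℂ) : Matrix (Fin n) (Fin n) ℂ) *
          (g : Matrix (Fin n) (Fin n) ℂ) = 1 := by
        rw [← Units.val_mul, inv_mul_cancel, Units.val_one]
      calc _ = Matrix.of Y * (((g⁻¹ : GL (Fin n) ℂ) : Matrix (Fin n) (Fin n) ℂ) *
          (g : Matrix (Fin n) (Fin n) ℂ)) * (ρ s : Matrix (Fin n) (Fin n) ℂ) *
          ((g⁻¹ : GL (Fin n) ℂ) : Matrix (Fin n) (Fin n) ℂ) := by simp only [mul_assoc]
        _ = _ := by rw [e, mul_one]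
    rw [h2, ← mul_assoc, ← sub_mul, h1, zero_mul]
  refine LinearMap.finrank_le_finrank_of_injective (f := LinearMap.restrict _ hmap) ?_
  intro Y Z hYZ
  have h1 : Matrix.of (Y : Fin n → Fin n → ℂ) * ((g⁻¹ : GL (Fin n) ℂ) : Matrix (Fin n) (Fin n) ℂ) =
      Matrix.of (Z : Fin n → Fin n → ℂ) * ((g⁻¹ : GL (Fin n) ℂ) : Matrix (Fin n) (Fin n) ℂ) :=
    congrArg Subtype.val hYZ
  have h2 := congrArg (fun A : Matrix (Fin n) (Fin n) ℂ => A * (g : Matrix (Fin n) (Fin n) ℂ)) h1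
  simp only [mul_assoc] at h2
  rw [← Units.val_mul, inv_mul_cancel, Units.val_one, mul_one, mul_one] at h2
  exact Subtype.ext h2

/-- an intertwiner on generators is an intertwiner -/
theorem eqs_all {ρ ρ' : Γ →* GL (Fin n) ℂ} (hS0 : Subgroup.closure (S0 : Set Γ) = ⊤)
    {Y : Matrix (Fin n) (Fin n) ℂ}
    (hY : ∀ s ∈ S0, Y * (ρ' s : Matrix (Fin n) (Fin n) ℂ) = (ρ s : Matrix (Fin n) (Fin n) ℂ) * Y)
    (γ : Γ) : Y * (ρ' γ : Matrix (Fin n) (Fin n) ℂ) = (ρ γ : Matrix (Fin n) (Fin n) ℂ) * Y := by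
  have hγ : γ ∈ Subgroup.closure (S0 : Set Γ) := by
    rw [hS0]
    trivial
  refine Subgroup.closure_induction (p := fun γ _ =>
    Y * (ρ' γ : Matrix (Fin n) (Fin n) ℂ) = (ρ γ : Matrix (Fin n) (Fin n) ℂ) * Y) ?_ ?_ ?_ ?_ hγ
  · exact fun s hs => hY s hs
  · rw [map_one, map_one, Units.val_one, mul_one, one_mul]
  · intro a b _ _ ha hb
    rw [map_mul, map_mul, Units.val_mul, Units.val_mul, ← mul_assoc, ha, mul_assoc, hb, mul_assoc]
  · intro a _ ha
    rw [map_inv, map_inv]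
    have e1 : (ρ' a : Matrix (Fin n) (Fin n) ℂ) * ((ρ' a)⁻¹ : GL (Fin n) ℂ).val = 1 := by
      rw [← Units.val_mul, mul_inv_cancel, Units.val_one]
    have e2 : ((ρ a)⁻¹ : GL (Fin n) ℂ).val * (ρ a : Matrix (Fin n) (Fin n) ℂ) = 1 := by
      rw [← Units.val_mul, inv_mul_cancel, Units.val_one]
    calc Y * ((ρ' a)⁻¹ : GL (Fin n) ℂ).val
        = ((ρ a)⁻¹ : GL (Fin n) ℂ).val * ((ρ a : Matrix (Fin n) (Fin n) ℂ) * Y) *
            ((ρ' a)⁻¹ : GL (Fin n) ℂ).val := by rw [← mul_assoc, e2, one_mul]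
      _ = ((ρ a)⁻¹ : GL (Fin n) ℂ).val * (Y * (ρ' a : Matrix (Fin n) (Fin n) ℂ)) *
            ((ρ' a)⁻¹ : GL (Fin n) ℂ).val := by rw [ha]
      _ = ((ρ a)⁻¹ : GL (Fin n) ℂ).val * Y * ((ρ' a : Matrix (Fin n) (Fin n) ℂ) *
            ((ρ' a)⁻¹ : GL (Fin n) ℂ).val) := by simp only [mul_assoc]
      _ = _ := by rw [e1, mul_one]

end lin

variable {ρ : Γ →* GL (Fin n) ℂ} {I : Type*} [Fintype I] [DecidableEq I] [MulAction Γ I]
  {P : I → Matrix (Fin n) (Fin n) ℂ} {i0 : I} {B : Matrix (Fin n) (Fin m) ℂ}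
  {C : Matrix (Fin m) (Fin n) ℂ}

open Classical in
/-- a function on a finite set as a family of matrices -/
noncomputable def ext (T : Finset (MulAction.stabilizer Γ i0)) (x : T → Fin m → Fin m → ℂ)
    (y : MulAction.stabilizer Γ i0) : Matrix (Fin m) (Fin m) ℂ :=
  if hy : y ∈ T then Matrix.of (x ⟨y, hy⟩) else 0

omit [Fintype I] [DecidableEq I] in
theorem ext_cont (T : Finset (MulAction.stabilizer Γ i0)) (y : MulAction.stabilizer Γ i0) :
    Continuous fun x : T → Fin m → Fin m → ℂ => ext T x y := by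
  unfold ext
  split_ifs with hy
  · exact continuous_apply (⟨y, hy⟩ : T)
  · exact continuous_const

theorem nw_cont (T : Finset (MulAction.stabilizer Γ i0)) (γ : Γ) :
    Continuous fun x : T → Fin m → Fin m → ℂ => nw ρ P B C i0 (ext T x) γ := by
  unfold nw
  refine continuous_finsetSum _ fun i _ => ?_
  unfold blk
  split_ifs with hi
  · refine (continuous_const.matrix_mul ?_).matrix_mul continuous_const
    exact (continuous_const.matrix_mul (ext_cont T _)).matrix_mul continuous_const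
  · exact continuous_const

theorem nw_congr (D D' : MulAction.stabilizer Γ i0 → Matrix (Fin m) (Fin m) ℂ) (γ : Γ)
    (h : ∀ i, D (hh i0 γ i) = D' (hh i0 γ i)) :
    nw ρ P B C i0 D γ = nw ρ P B C i0 D' γ := by
  unfold nw blk
  refine Finset.sum_congr rfl fun i _ => ?_
  rw [h]

/-- The action of the stabiliser on a block of a rigid representation is rigid. -/
theorem sub_rigid [Group.FG Γ] (hr : Rigid ρ) (h : Sys ρ P) (hCB : C * B = 1)
    (hBC : B * C = P i0) (σ : MulAction.stabilizer Γ i0 →* GL (Fin m) ℂ)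
    (hσ : ∀ x : MulAction.stabilizer Γ i0, (ρ x : Matrix (Fin n) (Fin n) ℂ) * B =
      B * (σ x : Matrix (Fin m) (Fin m) ℂ)) : Rigid σ := by
  classical
  obtain ⟨S, ε, hε, hS⟩ := hr
  obtain ⟨S0, hS0⟩ := (Group.FG.out : (⊤ : Subgroup Γ).FG)
  set T : Finset (MulAction.stabilizer Γ i0) :=
    ((S ∪ S0) ×ˢ (Finset.univ : Finset I)).image fun p => hh i0 p.1 p.2 with hT
  have hTm : ∀ s ∈ S ∪ S0, ∀ i, hh i0 s i ∈ T := by
    intro s hs i
    rw [hT, Finset.mem_image]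
    exact ⟨(s, i), Finset.mem_product.2 ⟨hs, Finset.mem_univ _⟩, rfl⟩
  -- the point of the parameter space of a representation
  set pt : (MulAction.stabilizer Γ i0 →* GL (Fin m) ℂ) → (T → Fin m → Fin m → ℂ) :=
    fun σ' y a b => (σ' y : Matrix (Fin m) (Fin m) ℂ) a b with hpt
  have hpt1 : ∀ σ', ∀ s ∈ S ∪ S0, nw ρ P B C i0 (ext T (pt σ')) s =
      nw ρ P B C i0 (fun x => (σ' x : Matrix (Fin m) (Fin m) ℂ)) s := by
    intro σ' s hs
    refine nw_congr _ _ _ fun i => ?_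
    unfold ext
    rw [dif_pos (hTm s hs i)]
    rfl
  set z : (T → Fin m → Fin m → ℂ) → (S0 → Matrix (Fin n) (Fin n) ℂ) :=
    fun x s => nw ρ P B C i0 (ext T x) s with hz
  have hzc : Continuous z := continuous_pi fun s => nw_cont T (s : Γ)
  have hz0 : z (pt σ) = fun s : S0 => (ρ s : Matrix (Fin n) (Fin n) ℂ) := by
    funext s
    rw [hz]
    beta_reduce
    rw [hpt1 σ s (Finset.mem_union_right _ s.2), nw_self h hBC σ hσ]
  have hU : {Y : Fin n → Fin n → ℂ | (C * Matrix.of Y * B).det ≠ 0} ∈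
      𝓝 ((1 : Matrix (Fin n) (Fin n) ℂ) : Fin n → Fin n → ℂ) := by
    refine IsOpen.mem_nhds ?_ ?_
    · refine isOpen_ne_fun ?_ continuous_const
      have h1 : Continuous fun Y : Matrix (Fin n) (Fin n) ℂ => (C * Y * B).det :=
        ((continuous_const.matrix_mul continuous_id).matrix_mul continuous_const).matrix_det
      exact h1
    · change (C * (1 : Matrix (Fin n) (Fin n) ℂ) * B).det ≠ 0
      rw [Matrix.mul_one, hCB, Matrix.det_one]
      exact one_ne_zero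
  have hk := ker_cont (eqs ρ S0 (fun s => (ρ s : Matrix (Fin n) (Fin n) ℂ)))
    (1 : Matrix (Fin n) (Fin n) ℂ) (by
    funext s
    rw [eqs_apply, one_mul, mul_one, sub_self]
    rfl) _ hU
  have hk1 : ∀ᶠ x in 𝓝 (pt σ),
      (Module.finrank ℂ (LinearMap.ker (eqs ρ S0 (fun s => (ρ s : Matrix (Fin n) (Fin n) ℂ)) :
      (Fin n → Fin n → ℂ) →ₗ[ℂ] (S0 → Fin n → Fin n → ℂ))) ≤
    Module.finrank ℂ (LinearMap.ker (eqs ρ S0 (z x) :
      (Fin n → Fin n → ℂ) →ₗ[ℂ] (S0 → Fin n → Fin n → ℂ)))) →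
      ∃ Y ∈ {Y : Fin n → Fin n → ℂ | (C * Matrix.of Y * B).det ≠ 0}, eqs ρ S0 (z x) Y = 0 := by
    have hc : ContinuousAt (fun x => eqs ρ S0 (z x)) (pt σ) :=
      ((eqs_cont ρ).comp hzc).continuousAt
    have h1 : ∀ᶠ T' : (Fin n → Fin n → ℂ) →L[ℂ] (S0 → Fin n → Fin n → ℂ) in
        𝓝 (eqs ρ S0 (z (pt σ))),
        (Module.finrank ℂ (LinearMap.ker (eqs ρ S0 (fun s => (ρ s : Matrix (Fin n) (Fin n) ℂ)) :
        (Fin n → Fin n → ℂ) →ₗ[ℂ] (S0 → Fin n → Fin n → ℂ))) ≤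
        Module.finrank ℂ (LinearMap.ker (T' :
        (Fin n → Fin n → ℂ) →ₗ[ℂ] (S0 → Fin n → Fin n → ℂ)))) →
        ∃ Y ∈ {Y : Fin n → Fin n → ℂ | (C * Matrix.of Y * B).det ≠ 0}, T' Y = 0 := by
      rw [hz0]
      exact hk
    exact hc.eventually h1
  have hk2 : ∀ᶠ x in 𝓝 (pt σ), ∀ s ∈ S, ∀ i j,
      ‖nw ρ P B C i0 (ext T x) s i j - (ρ s : Matrix (Fin n) (Fin n) ℂ) i j‖ < ε := by
    rw [Filter.eventually_all_finset]
    intro s hs
    rw [Filter.eventually_all]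
    intro i
    rw [Filter.eventually_all]
    intro j
    have hc : Continuous fun x : T → Fin m → Fin m → ℂ =>
        ‖nw ρ P B C i0 (ext T x) s i j - (ρ s : Matrix (Fin n) (Fin n) ℂ) i j‖ :=
      (((nw_cont T s).matrix_elem i j).sub continuous_const).norm
    have h1 := hc.tendsto (pt σ)
    rw [hpt1 σ s (Finset.mem_union_left _ hs), nw_self h hBC σ hσ, sub_self, norm_zero] at h1
    exact h1.eventually (gt_mem_nhds hε)
  obtain ⟨δ, hδ, hball⟩ := Metric.eventually_nhds_iff.1 (hk1.and hk2)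
  refine ⟨T, δ, hδ, fun σ' hn => ?_⟩
  have hd : dist (pt σ') (pt σ) < δ := by
    refine (dist_pi_lt_iff hδ).2 fun y => (dist_pi_lt_iff hδ).2 fun a =>
      (dist_pi_lt_iff hδ).2 fun b => ?_
    rw [dist_eq_norm]
    exact hn y y.2 a b
  obtain ⟨hb1, hb2⟩ := hball hd
  obtain ⟨g, hg⟩ := hS (nwRep h hCB hBC σ') (by
    intro s hs i j
    have := hb2 s hs i j
    rw [hpt1 σ' s (Finset.mem_union_left _ hs)] at this
    exact this)
  obtain ⟨Y0, hY1, hY2⟩ := hb1 (eqs_dim hg _ fun s => by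
    rw [hz]
    beta_reduce
    rw [hpt1 σ' s (Finset.mem_union_right _ s.2)]
    rfl)
  obtain ⟨Y, hYY⟩ : ∃ Y : Matrix (Fin n) (Fin n) ℂ, Y = Matrix.of Y0 := ⟨_, rfl⟩
  change (C * Matrix.of Y0 * B).det ≠ 0 at hY1
  rw [← hYY] at hY1
  have hY3 : ∀ γ, Y * (nwRep h hCB hBC σ' γ : Matrix (Fin n) (Fin n) ℂ) =
      (ρ γ : Matrix (Fin n) (Fin n) ℂ) * Y := by
    refine eqs_all hS0 fun s hs => ?_
    have h1 := congrFun hY2 ⟨s, hs⟩
    change Matrix.of Y0 * nw ρ P B C i0 (ext T (pt σ')) s -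
      (ρ s : Matrix (Fin n) (Fin n) ℂ) * Matrix.of Y0 = 0 at h1
    rw [hpt1 σ' s (Finset.mem_union_right _ hs), ← hYY] at h1
    exact sub_eq_zero.1 h1
  have hCρ : ∀ x : MulAction.stabilizer Γ i0, C * (ρ x : Matrix (Fin n) (Fin n) ℂ) =
      (σ x : Matrix (Fin m) (Fin m) ℂ) * C := by
    intro x
    have h1 := h.perm x i0
    rw [MulAction.mem_stabilizer_iff.1 x.2] at h1
    calc C * (ρ x : Matrix (Fin n) (Fin n) ℂ)
        = C * (P i0 * (ρ x : Matrix (Fin n) (Fin n) ℂ)) := by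
          rw [← Matrix.mul_assoc, CP hCB hBC]
      _ = C * ((ρ x : Matrix (Fin n) (Fin n) ℂ) * (B * C)) := by rw [← h1, hBC]
      _ = C * B * (σ x : Matrix (Fin m) (Fin m) ℂ) * C := by
          rw [← Matrix.mul_assoc (ρ x : Matrix (Fin n) (Fin n) ℂ) B C, hσ]
          simp only [Matrix.mul_assoc]
      _ = _ := by rw [hCB, Matrix.one_mul]
  have hK : ∀ x : MulAction.stabilizer Γ i0, (C * Y * B) * (σ' x : Matrix (Fin m) (Fin m) ℂ) =
      (σ x : Matrix (Fin m) (Fin m) ℂ) * (C * Y * B) := by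
    intro x
    calc (C * Y * B) * (σ' x : Matrix (Fin m) (Fin m) ℂ)
        = C * (Y * (nw ρ P B C i0 (fun x => (σ' x : Matrix (Fin m) (Fin m) ℂ)) x * B)) := by
          rw [nw_B h hCB hBC]
          simp only [Matrix.mul_assoc]
      _ = C * ((Y * (nwRep h hCB hBC σ' x : Matrix (Fin n) (Fin n) ℂ)) * B) := by
          rw [nwRep_val]
          simp only [Matrix.mul_assoc]
      _ = (C * (ρ x : Matrix (Fin n) (Fin n) ℂ)) * (Y * B) := by
          rw [hY3]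
          simp only [Matrix.mul_assoc]
      _ = _ := by
          rw [hCρ]
          simp only [Matrix.mul_assoc]
  refine ⟨(Matrix.GeneralLinearGroup.mkOfDetNeZero (C * Y * B) hY1)⁻¹, fun x => ?_⟩
  have h1 : Matrix.GeneralLinearGroup.mkOfDetNeZero (C * Y * B) hY1 * σ' x =
      σ x * Matrix.GeneralLinearGroup.mkOfDetNeZero (C * Y * B) hY1 :=
    Units.ext (hK x)
  rw [inv_inv, mul_assoc, ← h1, inv_mul_cancel_left]

end Pool.Agent.MP_009209
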