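import Pool.Agent.Lib.MP_009209_ag.Part
import Pool.Agent.Lib.MP_009209_ag.SubRigid

/-!
# The action of a stabiliser on its block
-/

namespace Pool.Agent.MP_009209

open Matrix

universe u

variable {Γ : Type*} [Group Γ] {n m : ℕ}

theorem range_pj {I : Type*} [DecidableEq I] {V : I → Submodule ℂ (Fin n → ℂ)}
    (hV : DirectSum.IsInternal V) (i : I) : LinearMap.range (pj hV i) = V i := by
  refine le_antisymm ?_ ?_
  · rintro _ ⟨v, rfl⟩
    exact pj_mem hV i v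
  · intro v hv
    exact ⟨v, pj_same hV hv⟩

/-- from a system of independent subspaces to a system of idempotents -/
theorem exists_sys {ρ : Γ →* GL (Fin n) ℂ} (hs : Semisimple ρ) {I : Type u} [MulAction Γ I]
    (V : I → Submodule ℂ (Fin n → ℂ)) (hind : iSupIndep V)
    (hperm : ∀ (γ : Γ) (i : I), ∀ v ∈ V i, (ρ γ : Matrix (Fin n) (Fin n) ℂ) *ᵥ v ∈ V (γ • i))
    (i : I) (hi : V i ≠ ⊥) :
    ∃ (K : Type u) (_ : Fintype K) (_ : DecidableEq K) (_ : MulAction Γ K)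
      (P : K → Matrix (Fin n) (Fin n) ℂ) (k : K), Sys ρ P ∧
      MulAction.stabilizer Γ i = MulAction.stabilizer Γ k ∧
      LinearMap.range (Matrix.toLin' (P k)) = V i := by
  classical
  let J : SubMulAction Γ I :=
    { carrier := {i | V i ≠ ⊥}
      smul_mem' := fun γ i hi => ne_bot_smul hperm γ i hi }
  have hJfin : Finite J := (WellFoundedGT.finite_ne_bot_of_iSupIndep hind).to_subtype
  set VJ : J → Submodule ℂ (Fin n → ℂ) := fun j => V j with hVJ
  have hindJ : iSupIndep VJ := hind.comp Subtype.val_injective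
  have hpermJ : ∀ (γ : Γ) (j : J), ∀ v ∈ VJ j,
      (ρ γ : Matrix (Fin n) (Fin n) ℂ) *ᵥ v ∈ VJ (γ • j) := fun γ j v hv => hperm γ j v hv
  obtain ⟨W, hW, hc⟩ := hs _ (stable_iSup hpermJ)
  have hfin : Finite (Option J) := inferInstance
  let hft : Fintype (Option J) := Fintype.ofFinite _
  have hV : DirectSum.IsInternal (fun o : Option J => o.elim W VJ) :=
    (DirectSum.isInternal_submodule_iff_iSupIndep_and_iSup_eq_top _).2
      ⟨indep_option hindJ hc.disjoint, by rw [iSup_option_elim, sup_comm]; exact hc.sup_eq_top⟩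
  refine ⟨Option J, hft, inferInstance, inferInstance, fun o => LinearMap.toMatrix' (pj hV o),
    some ⟨i, hi⟩, sys_of hV ?_, ?_, ?_⟩
  · intro γ o v hv
    rcases o with _ | j
    · exact hW γ v hv
    · exact hpermJ γ j v hv
  · ext γ
    rw [MulAction.mem_stabilizer_iff, MulAction.mem_stabilizer_iff, Option.smul_some,
      Option.some_inj]
    exact ⟨fun h => Subtype.ext h, fun h => congrArg Subtype.val h⟩
  · rw [Matrix.toLin'_toMatrix', range_pj]
    rfl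

/-- the matrix `C` -/
theorem exists_C {Q : Matrix (Fin n) (Fin n) ℂ} (hQ : Q * Q = Q) {B : Matrix (Fin n) (Fin m) ℂ}
    (hB : Function.Injective B.mulVec)
    (hr : LinearMap.range B.mulVecLin = LinearMap.range (Matrix.toLin' Q)) :
    ∃ C : Matrix (Fin m) (Fin n) ℂ, C * B = 1 ∧ B * C = Q := by
  have hker : LinearMap.ker (Matrix.toLin' B) = ⊥ := LinearMap.ker_eq_bot.2 hB
  obtain ⟨L, hL⟩ := (Matrix.toLin' B).exists_leftInverse_of_injective hker
  have hQB : ∀ x, Q *ᵥ (B *ᵥ x) = B *ᵥ x := by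
    intro x
    have h1 : B *ᵥ x ∈ LinearMap.range (Matrix.toLin' Q) := by
      rw [← hr]
      exact ⟨x, rfl⟩
    obtain ⟨y, hy⟩ := h1
    rw [← hy, Matrix.toLin'_apply, Matrix.mulVec_mulVec, hQ]
  have hLB : ∀ x, L (B *ᵥ x) = x := fun x => LinearMap.congr_fun hL x
  refine ⟨LinearMap.toMatrix' L * Q, ?_, ?_⟩
  · apply Matrix.toLin'.injective
    refine LinearMap.ext fun x => ?_
    rw [Matrix.toLin'_one, Matrix.toLin'_apply, ← Matrix.mulVec_mulVec, ← Matrix.mulVec_mulVec,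
      hQB, ← Matrix.toLin'_apply, Matrix.toLin'_toMatrix', hLB]
    rfl
  · apply Matrix.toLin'.injective
    refine LinearMap.ext fun x => ?_
    rw [Matrix.toLin'_apply, Matrix.toLin'_apply, ← Matrix.mulVec_mulVec, ← Matrix.mulVec_mulVec]
    have h1 : Q *ᵥ x ∈ LinearMap.range B.mulVecLin := by
      rw [hr]
      exact ⟨x, rfl⟩
    obtain ⟨y, hy⟩ := h1
    have hy' : B *ᵥ y = Q *ᵥ x := hy
    rw [← hy', ← Matrix.toLin'_apply (LinearMap.toMatrix' L), Matrix.toLin'_toMatrix', hLB]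

section

variable {ρ : Γ →* GL (Fin n) ℂ} {I : Type*} [Fintype I] [DecidableEq I] [MulAction Γ I]
  {P : I → Matrix (Fin n) (Fin n) ℂ} {i0 : I} {B : Matrix (Fin n) (Fin m) ℂ}
  {C : Matrix (Fin m) (Fin n) ℂ}

theorem C_equiv (h : Sys ρ P) (hCB : C * B = 1) (hBC : B * C = P i0)
    {σ : MulAction.stabilizer Γ i0 →* GL (Fin m) ℂ}
    (hσ : ∀ x : MulAction.stabilizer Γ i0, (ρ x : Matrix (Fin n) (Fin n) ℂ) * B =
      B * (σ x : Matrix (Fin m) (Fin m) ℂ)) (x : MulAction.stabilizer Γ i0) :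
    C * (ρ x : Matrix (Fin n) (Fin n) ℂ) = (σ x : Matrix (Fin m) (Fin m) ℂ) * C := by
  have h1 := h.perm x i0
  rw [MulAction.mem_stabilizer_iff.1 x.2] at h1
  calc C * (ρ x : Matrix (Fin n) (Fin n) ℂ)
      = C * (P i0 * (ρ x : Matrix (Fin n) (Fin n) ℂ)) := by
        rw [← Matrix.mul_assoc, CP hCB hBC]
    _ = C * ((ρ x : Matrix (Fin n) (Fin n) ℂ) * (B * C)) := by rw [← h1, hBC]
    _ = C * B * (σ x : Matrix (Fin m) (Fin m) ℂ) * C := by
        rw [← Matrix.mul_assoc (ρ x : Matrix (Fin n) (Fin n) ℂ) B C, hσ]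
        simp only [Matrix.mul_assoc]
    _ = _ := by rw [hCB, Matrix.one_mul]

/-- The action of the stabiliser on a block of a semisimple representation is semisimple. -/
theorem sub_semisimple (hs : Semisimple ρ) (h : Sys ρ P) (hCB : C * B = 1)
    (hBC : B * C = P i0) (σ : MulAction.stabilizer Γ i0 →* GL (Fin m) ℂ)
    (hσ : ∀ x : MulAction.stabilizer Γ i0, (ρ x : Matrix (Fin n) (Fin n) ℂ) * B =
      B * (σ x : Matrix (Fin m) (Fin m) ℂ)) : Semisimple σ := by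
  intro U hU
  -- the span of the translates
  set T : Submodule ℂ (Fin n → ℂ) :=
    ⨆ γ : Γ, (U.map (Matrix.toLin' B)).map (Matrix.toLin' (ρ γ : Matrix (Fin n) (Fin n) ℂ))
    with hT
  have hTst : Stable ρ T := by
    intro γ v hv
    refine Submodule.iSup_induction _ (motive := fun v =>
      (ρ γ : Matrix (Fin n) (Fin n) ℂ) *ᵥ v ∈ T) hv ?_ ?_ ?_
    · rintro δ _ ⟨w, hw, rfl⟩
      refine Submodule.mem_iSup_of_mem (γ * δ) ⟨w, hw, ?_⟩
      rw [Matrix.toLin'_apply, Matrix.toLin'_apply, Matrix.mulVec_mulVec, map_mul, Units.val_mul]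
    · rw [Matrix.mulVec_zero]
      exact Submodule.zero_mem _
    · intro x y hx hy
      rw [Matrix.mulVec_add]
      exact Submodule.add_mem _ hx hy
  have hUT : ∀ u ∈ U, B *ᵥ u ∈ T := by
    intro u hu
    refine Submodule.mem_iSup_of_mem 1 ⟨B *ᵥ u, ⟨u, hu, rfl⟩, ?_⟩
    rw [map_one, Units.val_one, Matrix.toLin'_one]
    rfl
  have hCT : ∀ v ∈ T, C *ᵥ v ∈ U := by
    intro v hv
    refine Submodule.iSup_induction _ (motive := fun v => C *ᵥ v ∈ U) hv ?_ ?_ ?_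
    · rintro γ _ ⟨_, ⟨u, hu, rfl⟩, rfl⟩
      rw [Matrix.toLin'_apply, Matrix.toLin'_apply]
      by_cases hγ : γ • i0 = i0
      · have hγ' : γ ∈ MulAction.stabilizer Γ i0 := MulAction.mem_stabilizer_iff.2 hγ
        have h1 := C_equiv h hCB hBC hσ ⟨γ, hγ'⟩
        rw [Matrix.mulVec_mulVec, h1, ← Matrix.mulVec_mulVec, Matrix.mulVec_mulVec u C B, hCB,
          Matrix.one_mulVec]
        exact hU ⟨γ, hγ'⟩ u hu
      · have h2 : C * ((ρ γ : Matrix (Fin n) (Fin n) ℂ) * B) = 0 := by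
          rw [← PB hCB hBC, ← CP hCB hBC, ← Matrix.mul_assoc (ρ γ : Matrix (Fin n) (Fin n) ℂ),
            h.perm, Matrix.mul_assoc C, ← Matrix.mul_assoc (P i0), ← Matrix.mul_assoc (P i0),
            h.mul, if_neg (Ne.symm hγ), Matrix.zero_mul, Matrix.zero_mul, Matrix.mul_zero]
        rw [Matrix.mulVec_mulVec, Matrix.mulVec_mulVec, Matrix.mul_assoc, h2, Matrix.zero_mulVec]
        exact U.zero_mem
    · rw [Matrix.mulVec_zero]
      exact U.zero_mem
    · intro x y hx hy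
      rw [Matrix.mulVec_add]
      exact U.add_mem hx hy
  obtain ⟨W, hW, hc⟩ := hs T hTst
  set π := Submodule.projectionOnto T W hc with hπ
  have hπW : ∀ x, x - (π x : Fin n → ℂ) ∈ W := by
    intro x
    have h1 : π (x - (π x : Fin n → ℂ)) = 0 := by
      rw [map_sub, hπ, Submodule.projectionOnto_apply_left, sub_self]
    rwa [hπ, Submodule.projectionOnto_apply_eq_zero_iff] at h1
  have hπρ : ∀ γ x, (π ((ρ γ : Matrix (Fin n) (Fin n) ℂ) *ᵥ x) : Fin n → ℂ) =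
      (ρ γ : Matrix (Fin n) (Fin n) ℂ) *ᵥ (π x : Fin n → ℂ) := by
    intro γ x
    have h1 : (ρ γ : Matrix (Fin n) (Fin n) ℂ) *ᵥ x =
        (ρ γ : Matrix (Fin n) (Fin n) ℂ) *ᵥ (π x : Fin n → ℂ) +
        (ρ γ : Matrix (Fin n) (Fin n) ℂ) *ᵥ (x - (π x : Fin n → ℂ)) := by
      rw [← Matrix.mulVec_add, add_sub_cancel]
    have h2 : π ((ρ γ : Matrix (Fin n) (Fin n) ℂ) *ᵥ (x - (π x : Fin n → ℂ))) = 0 := by
      rw [hπ, Submodule.projectionOnto_apply_eq_zero_iff]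
      exact hW γ _ (hπW x)
    have h3 := Submodule.projectionOnto_apply_left hc
      (⟨_, hTst γ _ (π x).2⟩ : T)
    rw [h1, map_add, h2, add_zero]
    exact congrArg Subtype.val h3
  -- the projection to `U`
  set q : (Fin m → ℂ) →ₗ[ℂ] (Fin m → ℂ) :=
    Matrix.toLin' C ∘ₗ T.subtype ∘ₗ π ∘ₗ Matrix.toLin' B with hq
  have hqa : ∀ x, q x = C *ᵥ (π (B *ᵥ x) : Fin n → ℂ) := fun x => rfl
  have hqU : ∀ x, q x ∈ U := fun x => hCT _ (π (B *ᵥ x)).2
  set q' : (Fin m → ℂ) →ₗ[ℂ] U := q.codRestrict U hqU with hq'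
  have hqf : ∀ u : U, q' u = u := by
    intro u
    refine Subtype.ext ?_
    change q u = u
    have h1 := Submodule.projectionOnto_apply_left hc (⟨_, hUT u u.2⟩ : T)
    have h2 : (π (B *ᵥ (u : Fin m → ℂ)) : Fin n → ℂ) = B *ᵥ (u : Fin m → ℂ) :=
      congrArg Subtype.val h1
    rw [hqa, h2, Matrix.mulVec_mulVec, hCB, Matrix.one_mulVec]
  refine ⟨LinearMap.ker q', ?_, LinearMap.isCompl_of_proj hqf⟩
  intro x v hv
  rw [LinearMap.mem_ker] at hv ⊢
  have hv' : q v = 0 := congrArg Subtype.val hv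
  refine Subtype.ext ?_
  change q _ = 0
  rw [hqa, Matrix.mulVec_mulVec, ← hσ, ← Matrix.mulVec_mulVec, hπρ, Matrix.mulVec_mulVec,
    C_equiv h hCB hBC hσ, ← Matrix.mulVec_mulVec, ← hqa, hv', Matrix.mulVec_zero]

end

/-- The action of a stabiliser on its block is rigid and semisimple. -/
theorem block_rigid [Group.FG Γ] {ρ : Γ →* GL (Fin n) ℂ} (hr : Rigid ρ) (hs : Semisimple ρ)
    {I : Type u} [MulAction Γ I] (V : I → Submodule ℂ (Fin n → ℂ)) (hind : iSupIndep V)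
    (hperm : ∀ (γ : Γ) (i : I), ∀ v ∈ V i, (ρ γ : Matrix (Fin n) (Fin n) ℂ) *ᵥ v ∈ V (γ • i))
    (i : I) (hi : V i ≠ ⊥) (σ : MulAction.stabilizer Γ i →* GL (Fin m) ℂ)
    (hσ : ActsAs ρ (MulAction.stabilizer Γ i) (V i) σ) : Rigid σ ∧ Semisimple σ := by
  obtain ⟨K, hK1, hK2, hK3, P, k, hP, hst, hran⟩ := exists_sys hs V hind hperm i hi
  obtain ⟨B, hB, hBV, hBσ⟩ := hσ
  obtain ⟨C, hCB, hBC⟩ := exists_C (Q := P k) (by rw [hP.mul, if_pos rfl]) hB (by rw [hBV, hran])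
  revert σ
  rw [hst]
  intro σ hBσ
  exact ⟨sub_rigid hr hP hCB hBC σ hBσ, sub_semisimple hs hP hCB hBC σ hBσ⟩

end Pool.Agent.MP_009209
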