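import Pool.Agent.Lib.MP_009209_ag.Defs

/-!
# Deformation of an imprimitive representation

`P i` are idempotents which are permuted by `ρ`; a homomorphism of the stabiliser of `i0` to `ℝ` gives a
deformation of `ρ`.
-/

namespace Pool.Agent.MP_009209

open Matrix Filter Topology

variable {Γ : Type*} [Group Γ] {n : ℕ}

/-- Idempotents permuted by `ρ`. -/
structure Sys (ρ : Γ →* GL (Fin n) ℂ) {I : Type*} [Fintype I] [DecidableEq I] [MulAction Γ I]
    (P : I → Matrix (Fin n) (Fin n) ℂ) : Prop where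
  mul : ∀ i j, P i * P j = if i = j then P i else 0
  sum : ∑ i, P i = 1
  perm : ∀ γ i, (ρ γ : Matrix (Fin n) (Fin n) ℂ) * P i = P (γ • i) * (ρ γ : Matrix (Fin n) (Fin n) ℂ)

section

variable {ρ : Γ →* GL (Fin n) ℂ} {I : Type*} [Fintype I] [DecidableEq I] [MulAction Γ I]
  {P : I → Matrix (Fin n) (Fin n) ℂ}

/-- a cocycle with values in `ℂ` -/
def IsCo (w : Γ → I → ℂ) : Prop :=
  (∀ i, w 1 i = 1) ∧ ∀ γ γ' i, w (γ * γ') i = w γ (γ' • i) * w γ' i

/-- the twisted matrix -/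
noncomputable def tw (ρ : Γ →* GL (Fin n) ℂ) (P : I → Matrix (Fin n) (Fin n) ℂ) (w : Γ → I → ℂ)
    (γ : Γ) : Matrix (Fin n) (Fin n) ℂ :=
  (ρ γ : Matrix (Fin n) (Fin n) ℂ) * ∑ i, w γ i • P i

theorem sum_mul_sum' (h : Sys ρ P) (u v : I → ℂ) :
    (∑ i, u i • P i) * (∑ i, v i • P i) = ∑ i, (u i * v i) • P i := by
  rw [Finset.sum_mul]
  refine Finset.sum_congr rfl fun i _ => ?_
  rw [Finset.mul_sum, Finset.sum_eq_single i]
  · rw [smul_mul_smul_comm, h.mul, if_pos rfl]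
  · intro j _ hj
    rw [smul_mul_smul_comm, h.mul, if_neg hj.symm, smul_zero]
  · intro hi
    exact absurd (Finset.mem_univ i) hi

theorem tw_one (h : Sys ρ P) {w : Γ → I → ℂ} (hw : IsCo w) : tw ρ P w 1 = 1 := by
  unfold tw
  rw [map_one]
  simp only [hw.1, one_smul, h.sum]
  simp

theorem tw_mul (h : Sys ρ P) {w : Γ → I → ℂ} (hw : IsCo w) (γ γ' : Γ) :
    tw ρ P w (γ * γ') = tw ρ P w γ * tw ρ P w γ' := by
  unfold tw
  have e1 : (∑ i, w γ i • P i) * (ρ γ' : Matrix (Fin n) (Fin n) ℂ) =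
      (ρ γ' : Matrix (Fin n) (Fin n) ℂ) * ∑ i, w γ (γ' • i) • P i := by
    rw [Finset.sum_mul, Finset.mul_sum]
    rw [← Equiv.sum_comp (MulAction.toPerm γ')]
    refine Finset.sum_congr rfl fun i _ => ?_
    rw [MulAction.toPerm_apply, smul_mul_assoc, mul_smul_comm, h.perm]
  rw [mul_assoc, ← mul_assoc (∑ i, w γ i • P i), e1, mul_assoc, sum_mul_sum' h, ← mul_assoc]
  simp only [← hw.2]
  rw [map_mul, Units.val_mul]

/-- the twisted representation -/
noncomputable def twRep (h : Sys ρ P) {w : Γ → I → ℂ} (hw : IsCo w) : Γ →* GL (Fin n) ℂ :=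
  MonoidHom.toHomUnits
    { toFun := tw ρ P w
      map_one' := tw_one h hw
      map_mul' := tw_mul h hw }

theorem twRep_val (h : Sys ρ P) {w : Γ → I → ℂ} (hw : IsCo w) (γ : Γ) :
    ((twRep h hw γ : GL (Fin n) ℂ) : Matrix (Fin n) (Fin n) ℂ) = tw ρ P w γ := rfl

/-- an element which carries `i0` to `i`, for `i` in the orbit of `i0` -/
noncomputable def rp (i0 i : I) : Γ := by
  classical
  exact if h : ∃ x : Γ, x • i0 = i then h.choose else 1

omit [Fintype I] [DecidableEq I] in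
theorem rp_spec {i0 i : I} (h : ∃ x : Γ, x • i0 = i) : (rp (Γ := Γ) i0 i) • i0 = i := by
  unfold rp
  rw [dif_pos h]
  exact h.choose_spec

theorem co_mem {i0 i : I} (h : ∃ x : Γ, x • i0 = i) (γ : Γ) :
    (rp i0 (γ • i))⁻¹ * γ * rp i0 i ∈ MulAction.stabilizer Γ i0 := by
  have h' : ∃ x : Γ, x • i0 = γ • i := by
    obtain ⟨x, hx⟩ := h
    exact ⟨γ * x, by rw [mul_smul, hx]⟩
  rw [MulAction.mem_stabilizer_iff, mul_smul, mul_smul, rp_spec h, inv_smul_eq_iff, rp_spec h']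

/-- the cocycle of a homomorphism of the stabiliser -/
noncomputable def cc (i0 : I) (φ : MulAction.stabilizer Γ i0 →* Multiplicative ℝ) (t : ℝ) (γ : Γ)
    (i : I) : ℂ := by
  classical
  exact if h : ∃ x : Γ, x • i0 = i then
    ((Real.exp (t * Multiplicative.toAdd (φ ⟨_, co_mem h γ⟩)) : ℝ) : ℂ) else 1

theorem cc_pos {i0 i : I} (φ : MulAction.stabilizer Γ i0 →* Multiplicative ℝ) (t : ℝ) (γ : Γ)
    (h : ∃ x : Γ, x • i0 = i) :
    cc i0 φ t γ i = ((Real.exp (t * Multiplicative.toAdd (φ ⟨_, co_mem h γ⟩)) : ℝ) : ℂ) := by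
  unfold cc
  rw [dif_pos h]

theorem cc_neg {i0 i : I} (φ : MulAction.stabilizer Γ i0 →* Multiplicative ℝ) (t : ℝ) (γ : Γ)
    (h : ¬ ∃ x : Γ, x • i0 = i) : cc i0 φ t γ i = 1 := by
  unfold cc
  rw [dif_neg h]

theorem isCo_cc (i0 : I) (φ : MulAction.stabilizer Γ i0 →* Multiplicative ℝ) (t : ℝ) :
    IsCo (cc i0 φ t) := by
  constructor
  · intro i
    by_cases h : ∃ x : Γ, x • i0 = i
    · rw [cc_pos φ t 1 h]
      have : (⟨_, co_mem h (1 : Γ)⟩ : MulAction.stabilizer Γ i0) = 1 := by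
        ext
        simp
      rw [this, map_one]
      simp
    · rw [cc_neg φ t 1 h]
  · intro γ γ' i
    by_cases h : ∃ x : Γ, x • i0 = i
    · have h' : ∃ x : Γ, x • i0 = γ' • i := by
        obtain ⟨x, hx⟩ := h
        exact ⟨γ' * x, by rw [mul_smul, hx]⟩
      rw [cc_pos φ t _ h, cc_pos φ t _ h', cc_pos φ t _ h]
      rw [← Complex.ofReal_mul, ← Real.exp_add, ← mul_add, ← toAdd_mul, ← map_mul]
      congr 5
      ext
      simp only [Subgroup.coe_mul]
      rw [mul_smul]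
      group
    · have h' : ¬ ∃ x : Γ, x • i0 = γ' • i := by
        rintro ⟨x, hx⟩
        exact h ⟨γ'⁻¹ * x, by rw [mul_smul, hx, inv_smul_smul]⟩
      rw [cc_neg φ t _ h, cc_neg φ t _ h', cc_neg φ t _ h, one_mul]

theorem cc_zero (i0 : I) (φ : MulAction.stabilizer Γ i0 →* Multiplicative ℝ) (γ : Γ) (i : I) :
    cc i0 φ 0 γ i = 1 := by
  by_cases h : ∃ x : Γ, x • i0 = i
  · rw [cc_pos φ 0 γ h]
    simp
  · rw [cc_neg φ 0 γ h]

theorem cc_cont (i0 : I) (φ : MulAction.stabilizer Γ i0 →* Multiplicative ℝ) (γ : Γ) (i : I) :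
    Continuous fun t => cc i0 φ t γ i := by
  by_cases h : ∃ x : Γ, x • i0 = i
  · simp only [cc_pos φ _ γ h]
    fun_prop
  · simp only [cc_neg φ _ γ h]
    exact continuous_const

end

end Pool.Agent.MP_009209
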