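import Mathlib

/-!
# Rigid representations: definitions

Representations `ρ : Γ →* GL (Fin n) ℂ` of a group `Γ`.
-/

namespace Pool.Agent.MP_009209

open Matrix
open scoped Kronecker

variable {Γ : Type*} [Group Γ] {n m a b : ℕ}

/-- `ρ'` is near `ρ`: on the finite set `S` the entries differ by less than `ε`. -/
def Near (S : Finset Γ) (ε : ℝ) (ρ ρ' : Γ →* GL (Fin n) ℂ) : Prop :=
  ∀ s ∈ S, ∀ i j, ‖(ρ' s : Matrix (Fin n) (Fin n) ℂ) i j - (ρ s : Matrix (Fin n) (Fin n) ℂ) i j‖ < ε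

/-- `ρ` is rigid: all representations near `ρ` are conjugate to `ρ`. -/
def Rigid (ρ : Γ →* GL (Fin n) ℂ) : Prop :=
  ∃ (S : Finset Γ) (ε : ℝ), 0 < ε ∧ ∀ ρ' : Γ →* GL (Fin n) ℂ, Near S ε ρ ρ' →
    ∃ g : GL (Fin n) ℂ, ∀ γ, ρ' γ = g * ρ γ * g⁻¹

/-- The subspace `W` is stable under `ρ`. -/
def Stable (ρ : Γ →* GL (Fin n) ℂ) (W : Submodule ℂ (Fin n → ℂ)) : Prop :=
  ∀ γ : Γ, ∀ v ∈ W, (ρ γ : Matrix (Fin n) (Fin n) ℂ) *ᵥ v ∈ W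

/-- `ρ` is semisimple: every stable subspace has a stable complement. -/
def Semisimple (ρ : Γ →* GL (Fin n) ℂ) : Prop :=
  ∀ W : Submodule ℂ (Fin n → ℂ), Stable ρ W → ∃ W', Stable ρ W' ∧ IsCompl W W'

/-- `σ` is the action of `H` on the subspace `V` by `ρ`, written in some basis of `V`. -/
def ActsAs (ρ : Γ →* GL (Fin n) ℂ) (H : Subgroup Γ) (V : Submodule ℂ (Fin n → ℂ))
    (σ : H →* GL (Fin m) ℂ) : Prop :=
  ∃ B : Matrix (Fin n) (Fin m) ℂ, Function.Injective B.mulVec ∧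
    LinearMap.range B.mulVecLin = V ∧
    ∀ h : H, (ρ h : Matrix (Fin n) (Fin n) ℂ) * B = B * (σ h : Matrix (Fin m) (Fin m) ℂ)

/-- `ρ` is isomorphic to the tensor product of `σ` and `τ`. -/
def IsTensor (ρ : Γ →* GL (Fin n) ℂ) (σ : Γ →* GL (Fin a) ℂ) (τ : Γ →* GL (Fin b) ℂ) : Prop :=
  ∃ (A : Matrix (Fin n) (Fin a × Fin b) ℂ) (A' : Matrix (Fin a × Fin b) (Fin n) ℂ),
    A * A' = 1 ∧ A' * A = 1 ∧
    ∀ γ, (ρ γ : Matrix (Fin n) (Fin n) ℂ) * A =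
      A * ((σ γ : Matrix (Fin a) (Fin a) ℂ) ⊗ₖ (τ γ : Matrix (Fin b) (Fin b) ℂ))

end Pool.Agent.MP_009209
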