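import Pool.Agent.Lib.MP_009209_ag.Defs

/-!
# Systems of imprimitivity and the class `Gen`: definitions
-/

namespace Pool.Agent.MP_009209

open Matrix

universe u

variable {Γ : Type*} [Group Γ] {n : ℕ}

/-- the translate of the subspace `W` by `γ` -/
noncomputable def mv (ρ : Γ →* GL (Fin n) ℂ) (γ : Γ) (W : Submodule ℂ (Fin n → ℂ)) :
    Submodule ℂ (Fin n → ℂ) :=
  W.map (Matrix.toLin' (ρ γ : Matrix (Fin n) (Fin n) ℂ))

/-- `ℂ^n` is the direct sum of the nonzero subspaces in `𝒱`, and `Γ` permutes them. -/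
structure System (ρ : Γ →* GL (Fin n) ℂ) (𝒱 : Set (Submodule ℂ (Fin n → ℂ))) : Prop where
  indep : sSupIndep 𝒱
  sup : sSup 𝒱 = ⊤
  ne_bot : ∀ W ∈ 𝒱, W ≠ ⊥
  perm : ∀ γ, ∀ W ∈ 𝒱, mv ρ γ W ∈ 𝒱

/-- `ρ` is primitive: nonzero, and `ℂ^n` is not a direct sum of two or more nonzero subspaces
which `Γ` permutes. -/
def Primitive (ρ : Γ →* GL (Fin n) ℂ) : Prop :=
  n ≠ 0 ∧ ∀ 𝒱, System ρ 𝒱 → 𝒱 = {⊤}

/-- the stabiliser of a subspace -/
def stab (ρ : Γ →* GL (Fin n) ℂ) (W : Submodule ℂ (Fin n → ℂ)) : Subgroup Γ where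
  carrier := {γ | mv ρ γ W = W}
  one_mem' := by
    change W.map _ = W
    rw [map_one, Units.val_one, Matrix.toLin'_one, Submodule.map_id]
  mul_mem' := by
    intro a b ha hb
    change W.map _ = W
    rw [map_mul, Units.val_mul, Matrix.toLin'_mul, Submodule.map_comp]
    rw [show W.map (Matrix.toLin' (ρ b : Matrix (Fin n) (Fin n) ℂ)) = W from hb]
    exact ha
  inv_mem' := by
    intro a ha
    change W.map _ = W
    have h1 : W.map (Matrix.toLin' (ρ a : Matrix (Fin n) (Fin n) ℂ)) = W := ha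
    conv_lhs => rw [← h1]
    rw [← Submodule.map_comp, ← Matrix.toLin'_mul, map_inv, ← Units.val_mul, inv_mul_cancel,
      Units.val_one, Matrix.toLin'_one, Submodule.map_id]

/-- `ρ` is not a tensor product of two representations of dimension at least two. -/
def TensorIndec {Γ : Type*} [Group Γ] {n : ℕ} (ρ : Γ →* GL (Fin n) ℂ) : Prop :=
  ∀ (a b : ℕ) (σ : Γ →* GL (Fin a) ℂ) (τ : Γ →* GL (Fin b) ℂ), IsTensor ρ σ τ → a ≤ 1 ∨ b ≤ 1

/-- The smallest class of representations which contains the rigid, semisimple, primitive and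
tensor-indecomposable representations of finitely generated groups with a finite abelianization,
and which is closed under tensor products and under passing from the blocks of a system (of the
subgroups which preserve them) to the whole. -/
inductive Gen : ∀ (Γ : Type u) [Group Γ] (n : ℕ), (Γ →* GL (Fin n) ℂ) → Prop
  | base (Γ : Type u) [Group Γ] (n : ℕ) (ρ : Γ →* GL (Fin n) ℂ) : Group.FG Γ →
      Finite (Abelianization Γ) → Rigid ρ → Semisimple ρ → Primitive ρ → TensorIndec ρ → Gen Γ n ρ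
  | tensor (Γ : Type u) [Group Γ] (n a b : ℕ) (ρ : Γ →* GL (Fin n) ℂ) (σ : Γ →* GL (Fin a) ℂ)
      (τ : Γ →* GL (Fin b) ℂ) : IsTensor ρ σ τ → Gen Γ a σ → Gen Γ b τ → Gen Γ n ρ
  | system (Γ : Type u) [Group Γ] (n : ℕ) (ρ : Γ →* GL (Fin n) ℂ)
      (𝒱 : Set (Submodule ℂ (Fin n → ℂ))) : System ρ 𝒱 →
      (∀ V ∈ 𝒱, (stab ρ V).FiniteIndex) →
      (∀ V ∈ 𝒱, ∀ (m : ℕ) (σ : stab ρ V →* GL (Fin m) ℂ), ActsAs ρ (stab ρ V) V σ →
        Gen (stab ρ V) m σ) → Gen Γ n ρ

end Pool.Agent.MP_009209
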