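import Pool.Agent.Lib.MP_009209_ag.AbCase

/-!
# Normal subgroups with solvable image
-/

namespace Pool.Agent.MP_009209

open Matrix Pointwise
open scoped commutatorElement

variable {Γ : Type*} [Group Γ] {n : ℕ}

/-- the elements of `H` whose images commute with the image of `H` -/
def cen (ρ : Γ →* GL (Fin n) ℂ) (H : Subgroup Γ) : Subgroup Γ where
  carrier := {h | h ∈ H ∧ ∀ x ∈ H, ρ h * ρ x = ρ x * ρ h}
  one_mem' := ⟨H.one_mem, fun x _ => by simp⟩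
  mul_mem' := by
    rintro a b ⟨ha, ha1⟩ ⟨hb, hb1⟩
    refine ⟨H.mul_mem ha hb, fun x hx => ?_⟩
    rw [map_mul, mul_assoc, hb1 x hx, ← mul_assoc, ha1 x hx, mul_assoc]
  inv_mem' := by
    rintro a ⟨ha, ha1⟩
    refine ⟨H.inv_mem ha, fun x hx => ?_⟩
    have := ha1 x hx
    rw [map_inv, inv_mul_eq_iff_eq_mul, ← mul_assoc, this, mul_assoc, mul_inv_cancel, mul_one]

instance cen_normal (ρ : Γ →* GL (Fin n) ℂ) (H : Subgroup Γ) [H.Normal] : (cen ρ H).Normal where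
  conj_mem := by
    rintro a ⟨ha, ha1⟩ g
    refine ⟨Subgroup.Normal.conj_mem inferInstance a ha g, fun x hx => ?_⟩
    have hx' : g⁻¹ * x * g ∈ H := by
      simpa using Subgroup.Normal.conj_mem inferInstance x hx g⁻¹
    have := ha1 _ hx'
    simp only [map_mul, map_inv] at this ⊢
    calc ρ g * ρ a * (ρ g)⁻¹ * ρ x
        = ρ g * (ρ a * ((ρ g)⁻¹ * ρ x * ρ g)) * (ρ g)⁻¹ := by group
      _ = ρ g * (((ρ g)⁻¹ * ρ x * ρ g) * ρ a) * (ρ g)⁻¹ := by rw [this]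
      _ = ρ x * (ρ g * ρ a * (ρ g)⁻¹) := by group

theorem fc [Group.FG Γ] {ρ : Γ →* GL (Fin n) ℂ} (hr : Rigid ρ) (hs : Semisimple ρ)
    (H : Subgroup Γ) [H.Normal] (hf : (Set.range fun a : (⁅H, H⁆ : Subgroup Γ) => ρ a).Finite) :
    (Set.range fun a : H => ρ a).Finite := by
  classical
  have hC : (Set.range fun a : cen ρ H => ρ a).Finite :=
    ab_case hr hs (cen ρ H) fun a ha b hb => ha.2 b hb.1
  obtain ⟨b, hb, hspan, hli⟩ := exists_linearIndependent ℂ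
    (Set.range fun h : H => (ρ h : Matrix (Fin n) (Fin n) ℂ))
  have hbfin : b.Finite := hli.setFinite
  have hx : ∀ x : b, ∃ h : H, (ρ h : Matrix (Fin n) (Fin n) ℂ) = x := fun x => hb x.2
  choose s hs' using hx
  have : Finite b := hbfin.to_subtype
  set Φ : H → (b → GL (Fin n) ℂ) := fun h x => ρ (⁅(h : Γ), (s x : Γ)⁆) with hΦ
  have hΦfin : (Set.range Φ).Finite := by
    refine Set.Finite.subset (Set.Finite.pi'
      (t := fun _ : b => Set.range fun a : (⁅H, H⁆ : Subgroup Γ) => ρ a) fun _ => hf) ?_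
    rintro _ ⟨h, rfl⟩ x
    exact ⟨⟨_, Subgroup.commutator_mem_commutator h.2 (s x).2⟩, rfl⟩
  have hsec : ∀ w : b → GL (Fin n) ℂ, ∃ h : H, w ∈ Set.range Φ → Φ h = w := by
    intro w
    by_cases hw : w ∈ Set.range Φ
    · obtain ⟨h, hh⟩ := hw
      exact ⟨h, fun _ => hh⟩
    · exact ⟨1, fun h => absurd h hw⟩
  choose e he using hsec
  have hkey : ∀ h h' : H, Φ h = Φ h' → (h : Γ)⁻¹ * h' ∈ cen ρ H := by
    intro h h' hh
    refine ⟨H.mul_mem (H.inv_mem h.2) h'.2, ?_⟩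
    have h1 : ∀ x ∈ b, (ρ ((h : Γ)⁻¹ * h') : Matrix (Fin n) (Fin n) ℂ) * x =
        x * (ρ ((h : Γ)⁻¹ * h') : Matrix (Fin n) (Fin n) ℂ) := by
      intro x hx
      have e1 := congrFun hh ⟨x, hx⟩
      simp only [hΦ, commutatorElement_def, map_mul, map_inv] at e1
      have e2 : ρ h * ρ (s ⟨x, hx⟩) * (ρ h)⁻¹ = ρ h' * ρ (s ⟨x, hx⟩) * (ρ h')⁻¹ :=
        mul_right_cancel e1
      have e3 : ρ ((h : Γ)⁻¹ * h') * ρ (s ⟨x, hx⟩) = ρ (s ⟨x, hx⟩) * ρ ((h : Γ)⁻¹ * h') := by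
        rw [map_mul, map_inv]
        calc (ρ h)⁻¹ * ρ h' * ρ (s ⟨x, hx⟩)
            = (ρ h)⁻¹ * (ρ h' * ρ (s ⟨x, hx⟩) * (ρ h')⁻¹) * ρ h' := by group
          _ = (ρ h)⁻¹ * (ρ h * ρ (s ⟨x, hx⟩) * (ρ h)⁻¹) * ρ h' := by rw [e2]
          _ = ρ (s ⟨x, hx⟩) * ((ρ h)⁻¹ * ρ h') := by group
      have e4 := congrArg Units.val e3
      rw [Units.val_mul, Units.val_mul, hs'] at e4
      exact e4
    intro x hx
    have h2 : (ρ x : Matrix (Fin n) (Fin n) ℂ) ∈ Submodule.span ℂ b := by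
      rw [hspan]
      exact Submodule.subset_span ⟨⟨x, hx⟩, rfl⟩
    have h3 : (ρ ((h : Γ)⁻¹ * h') : Matrix (Fin n) (Fin n) ℂ) * (ρ x : Matrix (Fin n) (Fin n) ℂ) =
        (ρ x : Matrix (Fin n) (Fin n) ℂ) * (ρ ((h : Γ)⁻¹ * h') : Matrix (Fin n) (Fin n) ℂ) := by
      refine Submodule.span_induction (p := fun y _ =>
        (ρ ((h : Γ)⁻¹ * h') : Matrix (Fin n) (Fin n) ℂ) * y =
          y * (ρ ((h : Γ)⁻¹ * h') : Matrix (Fin n) (Fin n) ℂ)) ?_ ?_ ?_ ?_ h2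
      · exact fun y hy => h1 y hy
      · rw [mul_zero, zero_mul]
      · intro y z _ _ hy hz
        rw [mul_add, add_mul, hy, hz]
      · intro c y _ hy
        rw [Matrix.mul_smul, Matrix.smul_mul, hy]
    exact Units.ext (by rw [Units.val_mul, Units.val_mul]; exact h3)
  refine ((hΦfin.image fun w => ρ (e w)).mul hC).subset ?_
  rintro _ ⟨h, rfl⟩
  have h1 : Φ (e (Φ h)) = Φ h := he _ ⟨h, rfl⟩
  refine Set.mem_mul.2 ⟨ρ (e (Φ h)), ⟨Φ h, ⟨h, rfl⟩, rfl⟩,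
    ρ (((e (Φ h) : H) : Γ)⁻¹ * h), ⟨⟨_, hkey _ _ h1⟩, rfl⟩, ?_⟩
  rw [map_mul, map_inv, mul_inv_cancel_left]

/-- the derived series of a subgroup -/
def Dg {G : Type*} [Group G] (N : Subgroup G) : ℕ → Subgroup G
  | 0 => N
  | k + 1 => ⁅Dg N k, Dg N k⁆

theorem Dg_map {G G' : Type*} [Group G] [Group G'] (f : G →* G') (N : Subgroup G) (k : ℕ) :
    (Dg N k).map f = Dg (N.map f) k := by
  induction k with
  | zero => rfl
  | succ k ih =>
    change (⁅Dg N k, Dg N k⁆ : Subgroup G).map f = ⁅Dg (N.map f) k, Dg (N.map f) k⁆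
    rw [Subgroup.map_commutator, ih]

theorem Dg_top {G : Type*} [Group G] (k : ℕ) : Dg (⊤ : Subgroup G) k = derivedSeries G k := by
  induction k with
  | zero => rfl
  | succ k ih =>
    change ⁅Dg (⊤ : Subgroup G) k, Dg (⊤ : Subgroup G) k⁆ = _
    rw [derivedSeries_succ, ih]

instance Dg_normal {G : Type*} [Group G] (N : Subgroup G) [hN : N.Normal] (k : ℕ) :
    (Dg N k).Normal := by
  induction k with
  | zero => exact hN
  | succ k ih =>
    change (⁅Dg N k, Dg N k⁆ : Subgroup G).Normal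
    infer_instance

theorem Dg_bot {G : Type*} [Group G] (K : Subgroup G) [Group.IsSolvable K] : ∃ k, Dg K k = ⊥ := by
  obtain ⟨k, hk⟩ := (Group.isSolvable_def K).1 inferInstance
  refine ⟨k, ?_⟩
  have h1 := Dg_map K.subtype ⊤ k
  rw [Dg_top, hk, Subgroup.map_bot] at h1
  have h2 : (⊤ : Subgroup K).map K.subtype = K := by
    rw [← MonoidHom.range_eq_map, Subgroup.range_subtype]
  rw [h2] at h1
  exact h1.symm

/-- A normal subgroup with solvable image has finite image. -/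
theorem solv [Group.FG Γ] {ρ : Γ →* GL (Fin n) ℂ} (hr : Rigid ρ) (hs : Semisimple ρ)
    (N : Subgroup Γ) [N.Normal] [Group.IsSolvable (N.map ρ)] : (Set.range fun a : N => ρ a).Finite := by
  obtain ⟨k, hk⟩ := Dg_bot (N.map ρ)
  have h1 : ∀ k, (Set.range fun a : Dg N k => ρ a).Finite → (Set.range fun a : N => ρ a).Finite := by
    intro k
    induction k with
    | zero => exact id
    | succ k ih => exact fun h => ih (fc hr hs (Dg N k) h)
  refine h1 k ?_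
  rw [← Dg_map] at hk
  refine (Set.finite_singleton (1 : GL (Fin n) ℂ)).subset ?_
  rintro _ ⟨a, rfl⟩
  have : ρ a ∈ (Dg N k).map ρ := ⟨a, a.2, rfl⟩
  rw [hk, Subgroup.mem_bot] at this
  exact this

end Pool.Agent.MP_009209
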