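import Mathlib

/-!
# Finite abelianization
-/

namespace Pool.Agent.MP_009209

/-- A finitely generated commutative group without homomorphisms to `ℝ` is finite. -/
theorem finite_of_no_hom_add (A : Type*) [AddCommGroup A] [AddGroup.FG A]
    (h : ∀ φ : A →+ ℝ, φ = 0) : Finite A := by
  have : Module.Finite ℤ A := Module.Finite.iff_addGroup_fg.2 inferInstance
  obtain ⟨T, hT⟩ : ∃ T : Submodule ℤ A, T = Submodule.torsion ℤ A := ⟨_, rfl⟩
  have : Module.IsTorsionFree ℤ (A ⧸ T) := by
    rw [hT]
    infer_instance
  have : Module.Finite ℤ (A ⧸ T) := inferInstance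
  have : Module.Free ℤ (A ⧸ T) := inferInstance
  obtain ⟨b⟩ : Nonempty (Module.Basis (Module.Free.ChooseBasisIndex ℤ (A ⧸ T)) ℤ (A ⧸ T)) :=
    ⟨Module.Free.chooseBasis ℤ (A ⧸ T)⟩
  have hempty : IsEmpty (Module.Free.ChooseBasisIndex ℤ (A ⧸ T)) := by
    by_contra hne
    rw [not_isEmpty_iff] at hne
    obtain ⟨k⟩ := hne
    have h1 := h ((Int.castAddHom ℝ).comp ((b.coord k).toAddMonoidHom.comp T.mkQ.toAddMonoidHom))
    obtain ⟨a, ha⟩ := T.mkQ_surjective (b k)
    have h2 := DFunLike.congr_fun h1 a
    simp [ha] at h2
  have hsub : Subsingleton (A ⧸ T) := by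
    refine ⟨fun x y => ?_⟩
    apply b.repr.injective
    exact Subsingleton.elim _ _
  have htor : Module.IsTorsion ℤ A := by
    intro x
    have h1 : x ∈ T := (Submodule.Quotient.mk_eq_zero T).1 (Subsingleton.elim _ _)
    rw [hT] at h1
    exact (Submodule.mem_torsion_iff x).1 h1
  exact Module.finite_of_fg_torsion A htor

/-- A finitely generated group without homomorphisms to `ℝ` has a finite abelianization. -/
theorem finite_ab (G : Type*) [Group G] [Group.FG G] (h : ∀ φ : G →* Multiplicative ℝ, φ = 1) :
    Finite (Abelianization G) := by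
  have hfg : AddGroup.FG (Additive (Abelianization G)) := by
    rw [← GroupFG.iff_add_fg]
    exact Group.fg_of_surjective (f := Abelianization.of (G := G)) (by
      intro x
      induction x using QuotientGroup.induction_on with
      | H z => exact ⟨z, rfl⟩)
  have hfin := finite_of_no_hom_add (Additive (Abelianization G)) (fun φ => by
    have h1 := h ((AddMonoidHom.toMultiplicativeRight φ).comp Abelianization.of)
    refine DFunLike.ext _ _ fun x => ?_
    obtain ⟨z, hz⟩ : ∃ z : G, Additive.ofMul (Abelianization.of z) = x := by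
      obtain ⟨z, hz⟩ := QuotientGroup.mk_surjective (Additive.toMul x)
      exact ⟨z, congrArg Additive.ofMul hz⟩
    have h2 := DFunLike.congr_fun h1 z
    rw [← hz]
    exact congrArg Multiplicative.toAdd h2)
  exact Finite.of_equiv _ Additive.toMul

/-- A homomorphism to a commutative group has finite order on a group with a finite abelianization. -/
theorem exists_pow_eq_one (G : Type*) [Group G] [Finite (Abelianization G)] {M : Type*} [CommGroup M]
    (δ : G →* M) : ∃ K : ℕ, 0 < K ∧ ∀ g, δ g ^ K = 1 := by
  refine ⟨Nat.card (Abelianization G), Nat.card_pos, fun g => ?_⟩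
  have h1 : δ g = Abelianization.lift δ (Abelianization.of g) := by simp
  rw [h1, ← map_pow, pow_card_eq_one', map_one]

end Pool.Agent.MP_009209
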