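import Pool.Agent.Lib.MP_009209_ag.NoHom
import Pool.Agent.Lib.MP_009209_ag.FinAb

/-!
# Systems of imprimitivity
-/

namespace Pool.Agent.MP_009209

open Matrix

variable {Γ : Type*} [Group Γ] {n : ℕ}

section proj

variable {I : Type*} [Fintype I] [DecidableEq I] {V : I → Submodule ℂ (Fin n → ℂ)}

/-- the projections of a direct sum -/
noncomputable def pj (hV : DirectSum.IsInternal V) (i : I) : (Fin n → ℂ) →ₗ[ℂ] (Fin n → ℂ) :=
  (V i).subtype ∘ₗ (DirectSum.component ℂ I (fun i => V i) i) ∘ₗ
    (LinearEquiv.ofBijective (DirectSum.coeLinearMap V) hV).symm.toLinearMap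

omit [Fintype I] in
theorem pj_mem (hV : DirectSum.IsInternal V) (i : I) (v : Fin n → ℂ) : pj hV i v ∈ V i := by
  unfold pj
  simp only [LinearMap.comp_apply]
  exact Submodule.coe_mem _

omit [Fintype I] in
theorem symm_of (hV : DirectSum.IsInternal V) {i : I} {v : Fin n → ℂ} (hv : v ∈ V i) :
    (LinearEquiv.ofBijective (DirectSum.coeLinearMap V) hV).symm v =
      DirectSum.lof ℂ I (fun i => V i) i ⟨v, hv⟩ := by
  rw [LinearEquiv.symm_apply_eq]
  simp

omit [Fintype I] in
theorem pj_same (hV : DirectSum.IsInternal V) {i : I} {v : Fin n → ℂ} (hv : v ∈ V i) :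
    pj hV i v = v := by
  unfold pj
  simp only [LinearMap.comp_apply, LinearEquiv.coe_coe]
  rw [symm_of hV hv, DirectSum.component.lof_self]
  rfl

omit [Fintype I] in
theorem pj_other (hV : DirectSum.IsInternal V) {i j : I} (hij : i ≠ j) {v : Fin n → ℂ}
    (hv : v ∈ V j) : pj hV i v = 0 := by
  unfold pj
  simp only [LinearMap.comp_apply, LinearEquiv.coe_coe]
  rw [symm_of hV hv, DirectSum.component.of, dif_neg hij.symm]
  rfl

theorem pj_sum (hV : DirectSum.IsInternal V) (v : Fin n → ℂ) : ∑ i, pj hV i v = v := by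
  have hv : v ∈ ⨆ i, V i := by
    rw [hV.submodule_iSup_eq_top]
    trivial
  refine Submodule.iSup_induction V (motive := fun v => ∑ i, pj hV i v = v) hv ?_ ?_ ?_
  · intro j w hw
    rw [Finset.sum_eq_single j, pj_same hV hw]
    · intro i _ hij
      exact pj_other hV hij hw
    · intro h
      exact absurd (Finset.mem_univ j) h
  · simp
  · intro x y hx hy
    simp only [map_add, Finset.sum_add_distrib, hx, hy]

/-- the idempotent matrices of a direct sum permuted by `ρ` -/
theorem sys_of {ρ : Γ →* GL (Fin n) ℂ} [MulAction Γ I] (hV : DirectSum.IsInternal V)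
    (hperm : ∀ (γ : Γ) (i : I), ∀ v ∈ V i, (ρ γ : Matrix (Fin n) (Fin n) ℂ) *ᵥ v ∈ V (γ • i)) :
    Sys ρ fun i => LinearMap.toMatrix' (pj hV i) := by
  refine ⟨fun i j => ?_, ?_, fun γ i => ?_⟩
  · rw [← LinearMap.toMatrix'_comp]
    by_cases hij : i = j
    · subst hij
      rw [if_pos rfl]
      congr 1
      refine LinearMap.ext fun v => ?_
      exact pj_same hV (pj_mem hV i v)
    · rw [if_neg hij]
      have : pj hV i ∘ₗ pj hV j = 0 := LinearMap.ext fun v => pj_other hV hij (pj_mem hV j v)
      rw [this, map_zero]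
  · rw [← map_sum]
    have : ∑ i, pj hV i = LinearMap.id := by
      refine LinearMap.ext fun v => ?_
      rw [LinearMap.sum_apply, pj_sum hV]
      rfl
    rw [this, LinearMap.toMatrix'_id]
  · apply Matrix.toLin'.injective
    rw [Matrix.toLin'_mul, Matrix.toLin'_mul, Matrix.toLin'_toMatrix', Matrix.toLin'_toMatrix']
    refine LinearMap.ext fun v => ?_
    have hv : v ∈ ⨆ i, V i := by
      rw [hV.submodule_iSup_eq_top]
      trivial
    refine Submodule.iSup_induction V (motive := fun v =>
      (Matrix.toLin' (ρ γ : Matrix (Fin n) (Fin n) ℂ) ∘ₗ pj hV i) v =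
      (pj hV (γ • i) ∘ₗ Matrix.toLin' (ρ γ : Matrix (Fin n) (Fin n) ℂ)) v) hv ?_ ?_ ?_
    · intro j w hw
      have h1 := hperm γ j w hw
      simp only [LinearMap.comp_apply, Matrix.toLin'_apply]
      by_cases hij : i = j
      · subst hij
        rw [pj_same hV hw, pj_same hV h1]
      · rw [pj_other hV hij hw, Matrix.mulVec_zero, pj_other hV ?_ h1]
        intro h
        exact hij ((MulAction.injective γ) h)
    · simp
    · intro x y hx hy
      rw [map_add, map_add, hx, hy]

end proj

/-- The stabilisers of a system of imprimitivity of a rigid representation have a finite abelianization. -/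
theorem finite_ab_stab [Group.FG Γ] {ρ : Γ →* GL (Fin n) ℂ} (hr : Rigid ρ) {I : Type*} [Finite I]
    [MulAction Γ I] (V : I → Submodule ℂ (Fin n → ℂ)) (hind : iSupIndep V) (hsup : ⨆ i, V i = ⊤)
    (hperm : ∀ (γ : Γ) (i : I), ∀ v ∈ V i, (ρ γ : Matrix (Fin n) (Fin n) ℂ) *ᵥ v ∈ V (γ • i))
    (i : I) (hi : V i ≠ ⊥) : Finite (Abelianization (MulAction.stabilizer Γ i)) := by
  classical
  have := Fintype.ofFinite I
  have hV : DirectSum.IsInternal V :=
    (DirectSum.isInternal_submodule_iff_iSupIndep_and_iSup_eq_top V).2 ⟨hind, hsup⟩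
  have hs := sys_of hV hperm
  have hfi : (MulAction.stabilizer Γ i).FiniteIndex := by
    have h1 : Finite (Γ ⧸ MulAction.stabilizer Γ i) :=
      Finite.of_equiv _ (MulAction.orbitEquivQuotientStabilizer Γ i)
    exact Subgroup.finiteIndex_of_finite_quotient
  have hfg : Group.FG (MulAction.stabilizer Γ i) := inferInstance
  refine finite_ab _ fun φ => no_hom hr hs ?_ φ
  intro h0
  apply hi
  rw [eq_bot_iff]
  intro v hv
  have h1 : pj hV i = 0 := by simpa using h0
  have h2 := pj_same hV hv
  rw [h1, LinearMap.zero_apply] at h2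
  rw [Submodule.mem_bot, ← h2]

end Pool.Agent.MP_009209
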