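import Pool.Agent.Lib.MP_009209_ag.Defo

/-!
# The representation with one block replaced

`P i` are idempotents permuted by `ρ`, and `B * C = P i0`, `C * B = 1`. A representation `σ'` of the
stabiliser of `i0` gives a new representation of `Γ`.
-/

namespace Pool.Agent.MP_009209

open Matrix Filter Topology

variable {Γ : Type*} [Group Γ] {n m : ℕ}

section

variable {ρ : Γ →* GL (Fin n) ℂ} {I : Type*} [Fintype I] [DecidableEq I] [MulAction Γ I]
  {P : I → Matrix (Fin n) (Fin n) ℂ}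

/-- an element which carries `i0` to `i`; it is `1` for `i = i0` -/
noncomputable def tt (i0 i : I) : Γ := if i = i0 then 1 else rp i0 i

omit [Fintype I] in
theorem tt_spec {i0 i : I} (h : ∃ x : Γ, x • i0 = i) : (tt (Γ := Γ) i0 i) • i0 = i := by
  unfold tt
  split_ifs with h1
  · rw [one_smul, h1]
  · exact rp_spec h

omit [Fintype I] in
theorem tt_self (i0 : I) : tt (Γ := Γ) i0 i0 = 1 := by
  unfold tt
  rw [if_pos rfl]

omit [Fintype I] [DecidableEq I] in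
theorem orb_smul {i0 i : I} (h : ∃ x : Γ, x • i0 = i) (γ : Γ) : ∃ x : Γ, x • i0 = γ • i := by
  obtain ⟨x, hx⟩ := h
  exact ⟨γ * x, by rw [mul_smul, hx]⟩

omit [Fintype I] in
theorem tt_mem {i0 i : I} (h : ∃ x : Γ, x • i0 = i) (γ : Γ) :
    (tt i0 (γ • i))⁻¹ * γ * tt i0 i ∈ MulAction.stabilizer Γ i0 := by
  rw [MulAction.mem_stabilizer_iff, mul_smul, mul_smul, tt_spec h, inv_smul_eq_iff,
    tt_spec (orb_smul h γ)]

open Classical in
/-- the element of the stabiliser -/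
noncomputable def hh (i0 : I) (γ : Γ) (i : I) : MulAction.stabilizer Γ i0 :=
  if h : ∃ x : Γ, x • i0 = i then ⟨_, tt_mem h γ⟩ else 1

omit [Fintype I] in
theorem hh_val {i0 i : I} (h : ∃ x : Γ, x • i0 = i) (γ : Γ) :
    (hh i0 γ i : Γ) = (tt i0 (γ • i))⁻¹ * γ * tt i0 i := by
  unfold hh
  rw [dif_pos h]

omit [Fintype I] in
theorem hh_mul {i0 i : I} (h : ∃ x : Γ, x • i0 = i) (γ γ' : Γ) :
    hh i0 (γ * γ') i = hh i0 γ (γ' • i) * hh i0 γ' i := by
  refine Subtype.ext ?_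
  rw [Subgroup.coe_mul, hh_val h, hh_val (orb_smul h γ'), hh_val h, mul_smul]
  group

omit [Fintype I] in
theorem hh_one {i0 i : I} (h : ∃ x : Γ, x • i0 = i) : hh i0 (1 : Γ) i = 1 := by
  refine Subtype.ext ?_
  rw [hh_val h, one_smul]
  simp

omit [Fintype I] in
theorem hh_self {i0 : I} (h : MulAction.stabilizer Γ i0) : hh i0 (h : Γ) i0 = h := by
  refine Subtype.ext ?_
  rw [hh_val ⟨1, one_smul _ _⟩, MulAction.mem_stabilizer_iff.1 h.2, tt_self]
  simp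

open Classical in
/-- the block at `i` -/
noncomputable def blk (ρ : Γ →* GL (Fin n) ℂ) (P : I → Matrix (Fin n) (Fin n) ℂ)
    (B : Matrix (Fin n) (Fin m) ℂ) (C : Matrix (Fin m) (Fin n) ℂ) (i0 : I)
    (D : MulAction.stabilizer Γ i0 → Matrix (Fin m) (Fin m) ℂ) (γ : Γ) (i : I) :
    Matrix (Fin n) (Fin n) ℂ :=
  if ∃ x : Γ, x • i0 = i then
    (ρ (tt i0 (γ • i)) : Matrix (Fin n) (Fin n) ℂ) * (B * D (hh i0 γ i) * C) *
      ((ρ (tt i0 i))⁻¹ : GL (Fin n) ℂ).val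
  else (ρ γ : Matrix (Fin n) (Fin n) ℂ) * P i

/-- the new matrices -/
noncomputable def nw (ρ : Γ →* GL (Fin n) ℂ) (P : I → Matrix (Fin n) (Fin n) ℂ)
    (B : Matrix (Fin n) (Fin m) ℂ) (C : Matrix (Fin m) (Fin n) ℂ) (i0 : I)
    (D : MulAction.stabilizer Γ i0 → Matrix (Fin m) (Fin m) ℂ) (γ : Γ) :
    Matrix (Fin n) (Fin n) ℂ := ∑ i, blk ρ P B C i0 D γ i

theorem perm_inv (h : Sys ρ P) (γ : Γ) (i : I) :
    ((ρ γ)⁻¹ : GL (Fin n) ℂ).val * P (γ • i) = P i * ((ρ γ)⁻¹ : GL (Fin n) ℂ).val := by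
  have h1 := h.perm γ⁻¹ (γ • i)
  rw [inv_smul_smul, map_inv] at h1
  exact h1

variable {i0 : I} {B : Matrix (Fin n) (Fin m) ℂ} {C : Matrix (Fin m) (Fin n) ℂ}

omit [Fintype I] [DecidableEq I] in
theorem PB (hCB : C * B = 1) (hBC : B * C = P i0) : P i0 * B = B := by
  rw [← hBC, Matrix.mul_assoc, hCB, Matrix.mul_one]

omit [Fintype I] [DecidableEq I] in
theorem CP (hCB : C * B = 1) (hBC : B * C = P i0) : C * P i0 = C := by
  rw [← hBC, ← Matrix.mul_assoc, hCB, Matrix.one_mul]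

theorem blk_right (h : Sys ρ P) (hCB : C * B = 1) (hBC : B * C = P i0)
    (D : MulAction.stabilizer Γ i0 → Matrix (Fin m) (Fin m) ℂ) (γ : Γ) (i : I) :
    blk ρ P B C i0 D γ i * P i = blk ρ P B C i0 D γ i := by
  unfold blk
  split_ifs with hi
  · have h1 := perm_inv h (tt (Γ := Γ) i0 i) i0
    rw [tt_spec hi] at h1
    rw [mul_assoc, h1, ← mul_assoc, mul_assoc _ _ (P i0), Matrix.mul_assoc (B * _) C (P i0),
      CP hCB hBC]
  · rw [mul_assoc, h.mul, if_pos rfl]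

theorem blk_left (h : Sys ρ P) (hCB : C * B = 1) (hBC : B * C = P i0)
    (D : MulAction.stabilizer Γ i0 → Matrix (Fin m) (Fin m) ℂ) (γ : Γ) (i : I) :
    P (γ • i) * blk ρ P B C i0 D γ i = blk ρ P B C i0 D γ i := by
  unfold blk
  split_ifs with hi
  · have h1 := h.perm (tt (Γ := Γ) i0 (γ • i)) i0
    rw [tt_spec (orb_smul hi γ)] at h1
    rw [← mul_assoc, ← mul_assoc, ← h1, mul_assoc _ (P i0), Matrix.mul_assoc B _ C,
      ← Matrix.mul_assoc (P i0) B, PB hCB hBC]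
  · rw [← mul_assoc, ← h.perm, mul_assoc, h.mul, if_pos rfl]

theorem blk_mul (h : Sys ρ P) (hCB : C * B = 1)
    (σ : MulAction.stabilizer Γ i0 →* GL (Fin m) ℂ) (γ γ' : Γ) (i : I) :
    blk ρ P B C i0 (fun x => (σ x : Matrix (Fin m) (Fin m) ℂ)) γ (γ' • i) *
      blk ρ P B C i0 (fun x => (σ x : Matrix (Fin m) (Fin m) ℂ)) γ' i =
    blk ρ P B C i0 (fun x => (σ x : Matrix (Fin m) (Fin m) ℂ)) (γ * γ') i := by
  unfold blk
  by_cases hi : ∃ x : Γ, x • i0 = i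
  · rw [if_pos hi, if_pos (orb_smul hi γ'), if_pos hi, hh_mul hi, mul_smul]
    beta_reduce
    rw [map_mul, Units.val_mul]
    have e1 : ((ρ (tt i0 (γ' • i)))⁻¹ : GL (Fin n) ℂ).val *
        (ρ (tt i0 (γ' • i)) : Matrix (Fin n) (Fin n) ℂ) = 1 := by
      rw [← Units.val_mul, inv_mul_cancel, Units.val_one]
    have e2 : (B * (σ (hh i0 γ (γ' • i)) : Matrix (Fin m) (Fin m) ℂ) * C) *
        (B * (σ (hh i0 γ' i) : Matrix (Fin m) (Fin m) ℂ) * C) =
        B * ((σ (hh i0 γ (γ' • i)) : Matrix (Fin m) (Fin m) ℂ) *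
          (σ (hh i0 γ' i) : Matrix (Fin m) (Fin m) ℂ)) * C := by
      simp only [Matrix.mul_assoc]
      rw [← Matrix.mul_assoc C B, hCB, Matrix.one_mul]
    rw [← e2]
    calc _ = (ρ (tt i0 (γ • γ' • i)) : Matrix (Fin n) (Fin n) ℂ) *
          (B * (σ (hh i0 γ (γ' • i)) : Matrix (Fin m) (Fin m) ℂ) * C) *
          (((ρ (tt i0 (γ' • i)))⁻¹ : GL (Fin n) ℂ).val *
            (ρ (tt i0 (γ' • i)) : Matrix (Fin n) (Fin n) ℂ)) *
          (B * (σ (hh i0 γ' i) : Matrix (Fin m) (Fin m) ℂ) * C) *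
          ((ρ (tt i0 i))⁻¹ : GL (Fin n) ℂ).val := by simp only [mul_assoc]
      _ = _ := by rw [e1, mul_one]; simp only [mul_assoc]
  · have hi' : ¬ ∃ x : Γ, x • i0 = γ' • i := by
      rintro ⟨x, hx⟩
      exact hi ⟨γ'⁻¹ * x, by rw [mul_smul, hx, inv_smul_smul]⟩
    rw [if_neg hi, if_neg hi', if_neg hi, map_mul, Units.val_mul, mul_assoc, ← mul_assoc (P _),
      ← h.perm, mul_assoc (ρ γ' : Matrix (Fin n) (Fin n) ℂ), h.mul, if_pos rfl, mul_assoc]

theorem blk_zero (h : Sys ρ P) (hCB : C * B = 1) (hBC : B * C = P i0)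
    (D D' : MulAction.stabilizer Γ i0 → Matrix (Fin m) (Fin m) ℂ) (γ γ' : Γ) {i j : I}
    (hij : j ≠ γ' • i) : blk ρ P B C i0 D γ j * blk ρ P B C i0 D' γ' i = 0 := by
  rw [← blk_right h hCB hBC D γ j, ← blk_left h hCB hBC D' γ' i, mul_assoc, ← mul_assoc (P j),
    h.mul, if_neg hij, zero_mul, mul_zero]

theorem nw_mul (h : Sys ρ P) (hCB : C * B = 1) (hBC : B * C = P i0)
    (σ : MulAction.stabilizer Γ i0 →* GL (Fin m) ℂ) (γ γ' : Γ) :
    nw ρ P B C i0 (fun x => (σ x : Matrix (Fin m) (Fin m) ℂ)) (γ * γ') =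
      nw ρ P B C i0 (fun x => (σ x : Matrix (Fin m) (Fin m) ℂ)) γ *
      nw ρ P B C i0 (fun x => (σ x : Matrix (Fin m) (Fin m) ℂ)) γ' := by
  unfold nw
  rw [Finset.mul_sum]
  refine Finset.sum_congr rfl fun i _ => ?_
  rw [Finset.sum_mul, Finset.sum_eq_single (γ' • i)]
  · rw [blk_mul h hCB]
  · intro j _ hj
    exact blk_zero h hCB hBC _ _ γ γ' hj
  · intro hi
    exact absurd (Finset.mem_univ _) hi

theorem nw_one (h : Sys ρ P) (hBC : B * C = P i0)
    (σ : MulAction.stabilizer Γ i0 →* GL (Fin m) ℂ) :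
    nw ρ P B C i0 (fun x => (σ x : Matrix (Fin m) (Fin m) ℂ)) 1 = 1 := by
  unfold nw
  rw [← h.sum]
  refine Finset.sum_congr rfl fun i _ => ?_
  unfold blk
  split_ifs with hi
  · have h1 := h.perm (tt (Γ := Γ) i0 i) i0
    rw [tt_spec hi] at h1
    rw [hh_one hi]
    beta_reduce
    rw [map_one, Units.val_one, Matrix.mul_one, hBC, one_smul, h1, mul_assoc,
      ← Units.val_mul, mul_inv_cancel, Units.val_one, mul_one]
  · rw [map_one, Units.val_one, one_mul]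

/-- the new representation -/
noncomputable def nwRep (h : Sys ρ P) (hCB : C * B = 1) (hBC : B * C = P i0)
    (σ : MulAction.stabilizer Γ i0 →* GL (Fin m) ℂ) : Γ →* GL (Fin n) ℂ :=
  MonoidHom.toHomUnits
    { toFun := nw ρ P B C i0 (fun x => (σ x : Matrix (Fin m) (Fin m) ℂ))
      map_one' := nw_one h hBC σ
      map_mul' := nw_mul h hCB hBC σ }

theorem nwRep_val (h : Sys ρ P) (hCB : C * B = 1) (hBC : B * C = P i0)
    (σ : MulAction.stabilizer Γ i0 →* GL (Fin m) ℂ) (γ : Γ) :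
    ((nwRep h hCB hBC σ γ : GL (Fin n) ℂ) : Matrix (Fin n) (Fin n) ℂ) =
      nw ρ P B C i0 (fun x => (σ x : Matrix (Fin m) (Fin m) ℂ)) γ := rfl

/-- the action of `ρ` on the block gives back `ρ` -/
theorem nw_self (h : Sys ρ P) (hBC : B * C = P i0)
    (σ : MulAction.stabilizer Γ i0 →* GL (Fin m) ℂ)
    (hσ : ∀ x : MulAction.stabilizer Γ i0, (ρ x : Matrix (Fin n) (Fin n) ℂ) * B =
      B * (σ x : Matrix (Fin m) (Fin m) ℂ)) (γ : Γ) :
    nw ρ P B C i0 (fun x => (σ x : Matrix (Fin m) (Fin m) ℂ)) γ =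
      (ρ γ : Matrix (Fin n) (Fin n) ℂ) := by
  have h0 : (ρ γ : Matrix (Fin n) (Fin n) ℂ) = ∑ i, (ρ γ : Matrix (Fin n) (Fin n) ℂ) * P i := by
    rw [← Finset.mul_sum, h.sum, mul_one]
  rw [h0]
  unfold nw
  refine Finset.sum_congr rfl fun i _ => ?_
  unfold blk
  split_ifs with hi
  · have h1 := h.perm (tt (Γ := Γ) i0 i) i0
    rw [tt_spec hi] at h1
    have h2 : tt i0 (γ • i) * (hh i0 γ i : Γ) = γ * tt i0 i := by
      rw [hh_val hi]
      group
    rw [← hσ, Matrix.mul_assoc _ B C, hBC, ← mul_assoc, ← Units.val_mul, ← map_mul, h2, map_mul,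
      Units.val_mul, mul_assoc (ρ γ : Matrix (Fin n) (Fin n) ℂ), h1, mul_assoc, mul_assoc,
      ← Units.val_mul, mul_inv_cancel, Units.val_one, mul_one]
  · rfl

/-- the new representation on the block -/
theorem nw_B (h : Sys ρ P) (hCB : C * B = 1) (hBC : B * C = P i0)
    (D : MulAction.stabilizer Γ i0 → Matrix (Fin m) (Fin m) ℂ)
    (x : MulAction.stabilizer Γ i0) :
    nw ρ P B C i0 D x * B = B * D x := by
  unfold nw
  rw [Matrix.sum_mul, Finset.sum_eq_single i0]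
  · unfold blk
    rw [if_pos ⟨1, one_smul _ _⟩, MulAction.mem_stabilizer_iff.1 x.2, tt_self, map_one, inv_one,
      Units.val_one, mul_one, one_mul, hh_self, Matrix.mul_assoc, hCB, Matrix.mul_one]
  · intro j _ hj
    rw [← blk_right h hCB hBC, ← PB hCB hBC, Matrix.mul_assoc, ← Matrix.mul_assoc (P j), h.mul,
      if_neg hj, Matrix.zero_mul, Matrix.mul_zero]
  · intro hi
    exact absurd (Finset.mem_univ _) hi

end

end Pool.Agent.MP_009209
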