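import Pool.Agent.Lib.MP_009209_ag.Defo

/-!
# Stabilisers have no homomorphism to `ℝ`
-/

namespace Pool.Agent.MP_009209

open Matrix Filter Topology

variable {Γ : Type*} [Group Γ] {n : ℕ}

variable {ρ : Γ →* GL (Fin n) ℂ} {I : Type*} [Fintype I] [DecidableEq I] [MulAction Γ I]
  {P : I → Matrix (Fin n) (Fin n) ℂ}

/-- the twisted representations are near `ρ` -/
theorem near_tw (h : Sys ρ P) (i0 : I) (φ : MulAction.stabilizer Γ i0 →* Multiplicative ℝ)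
    (S : Finset Γ) {ε : ℝ} (hε : 0 < ε) :
    ∀ᶠ t in 𝓝 (0 : ℝ), Near S ε ρ (twRep h (isCo_cc i0 φ t)) := by
  unfold Near
  rw [Filter.eventually_all_finset]
  intro s _
  rw [Filter.eventually_all]
  intro i
  rw [Filter.eventually_all]
  intro j
  have hc : Continuous fun t : ℝ => ‖(tw ρ P (cc i0 φ t) s) i j -
      (ρ s : Matrix (Fin n) (Fin n) ℂ) i j‖ := by
    have h1 : Continuous fun t : ℝ => tw ρ P (cc i0 φ t) s := by
      unfold tw
      refine continuous_const.matrix_mul ?_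
      refine continuous_finsetSum _ fun k _ => ?_
      exact (cc_cont i0 φ s k).smul continuous_const
    exact ((h1.matrix_elem i j).sub continuous_const).norm
  have h0 : ‖(tw ρ P (cc i0 φ 0) s) i j - (ρ s : Matrix (Fin n) (Fin n) ℂ) i j‖ = 0 := by
    have : tw ρ P (cc i0 φ 0) s = (ρ s : Matrix (Fin n) (Fin n) ℂ) := by
      unfold tw
      simp only [cc_zero, one_smul, h.sum, mul_one]
    rw [this, sub_self, norm_zero]
  have h2 := hc.tendsto 0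
  rw [h0] at h2
  filter_upwards [h2.eventually (gt_mem_nhds hε)] with t ht
  rw [twRep_val]
  exact ht

/-- the image of `P i0` -/
theorem exists_eigen (h : Sys ρ P) {i0 : I} (h0 : P i0 ≠ 0) {γ : Γ} (hγ : γ • i0 = i0) :
    ∃ (v : Fin n → ℂ) (μ : ℂ), v ≠ 0 ∧ μ ≠ 0 ∧ P i0 *ᵥ v = v ∧
      (ρ γ : Matrix (Fin n) (Fin n) ℂ) *ᵥ v = μ • v := by
  obtain ⟨E, hE⟩ : ∃ E : Submodule ℂ (Fin n → ℂ), E = LinearMap.range (Matrix.toLin' (P i0)) :=
    ⟨_, rfl⟩
  have hmem : ∀ v ∈ E, P i0 *ᵥ v = v := by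
    intro v hv
    rw [hE] at hv
    obtain ⟨u, rfl⟩ := hv
    rw [Matrix.toLin'_apply, Matrix.mulVec_mulVec, h.mul, if_pos rfl]
  have hst : ∀ v ∈ E, Matrix.toLin' (ρ γ : Matrix (Fin n) (Fin n) ℂ) v ∈ E := by
    intro v hv
    have e1 := hmem v hv
    rw [hE]
    refine ⟨(ρ γ : Matrix (Fin n) (Fin n) ℂ) *ᵥ v, ?_⟩
    rw [Matrix.toLin'_apply, Matrix.toLin'_apply, Matrix.mulVec_mulVec]
    have e2 := h.perm γ i0
    rw [hγ] at e2
    rw [← e2, ← Matrix.mulVec_mulVec, e1]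
  have hne : E ≠ ⊥ := by
    intro hb
    rw [hE, LinearMap.range_eq_bot] at hb
    exact h0 (by simpa using hb)
  have : Nontrivial E := Submodule.nontrivial_iff_ne_bot.2 hne
  obtain ⟨μ, hμ⟩ := Module.End.exists_eigenvalue
    ((Matrix.toLin' (ρ γ : Matrix (Fin n) (Fin n) ℂ)).restrict hst)
  obtain ⟨v, hv⟩ := hμ.exists_hasEigenvector
  have hv0 : (v : Fin n → ℂ) ≠ 0 := by
    intro hh
    exact hv.2 (Subtype.ext hh)
  have hv1 : (ρ γ : Matrix (Fin n) (Fin n) ℂ) *ᵥ (v : Fin n → ℂ) = μ • (v : Fin n → ℂ) := by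
    have := congrArg Subtype.val hv.apply_eq_smul
    rw [LinearMap.coe_restrict_apply, Matrix.toLin'_apply] at this
    exact this
  refine ⟨v, μ, hv0, ?_, hmem v v.2, hv1⟩
  rintro rfl
  rw [zero_smul] at hv1
  apply hv0
  have : ((ρ γ)⁻¹ : GL (Fin n) ℂ).val *ᵥ ((ρ γ : Matrix (Fin n) (Fin n) ℂ) *ᵥ (v : Fin n → ℂ)) = 0 := by
    rw [hv1, Matrix.mulVec_zero]
  rw [Matrix.mulVec_mulVec, ← Units.val_mul, inv_mul_cancel, Units.val_one, Matrix.one_mulVec] at this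
  exact this

/-- A rigid representation: no homomorphism of a stabiliser to `ℝ`. -/
theorem no_hom (hr : Rigid ρ) (h : Sys ρ P) {i0 : I} (h0 : P i0 ≠ 0)
    (φ : MulAction.stabilizer Γ i0 →* Multiplicative ℝ) : φ = 1 := by
  by_contra hφ
  obtain ⟨x, hx⟩ : ∃ x, φ x ≠ 1 := by
    by_contra hcon
    push Not at hcon
    exact hφ (MonoidHom.ext hcon)
  have hi : ∃ y : Γ, y • i0 = i0 := ⟨1, one_smul _ _⟩
  obtain ⟨r, hrr⟩ : ∃ r : Γ, r = rp (Γ := Γ) i0 i0 := ⟨_, rfl⟩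
  have hri : r • i0 = i0 := by rw [hrr]; exact rp_spec hi
  obtain ⟨γ, hγ⟩ : ∃ γ : Γ, γ = r * x * r⁻¹ := ⟨_, rfl⟩
  have hγi : γ • i0 = i0 := by
    rw [hγ, mul_smul, mul_smul, inv_smul_eq_iff.2 hri.symm, MulAction.mem_stabilizer_iff.1 x.2, hri]
  have hcc : ∀ t, cc i0 φ t γ i0 = ((Real.exp (t * Multiplicative.toAdd (φ x)) : ℝ) : ℂ) := by
    intro t
    rw [cc_pos φ t γ hi]
    have : (⟨_, co_mem hi γ⟩ : MulAction.stabilizer Γ i0) = x := by
      ext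
      show (rp i0 (γ • i0))⁻¹ * γ * rp i0 i0 = x
      rw [hγi, ← hrr, hγ]
      group
    rw [this]
  obtain ⟨c, hc⟩ : ∃ c : ℝ, c = Multiplicative.toAdd (φ x) := ⟨_, rfl⟩
  have hc0 : c ≠ 0 := by
    intro hh
    apply hx
    rw [hc] at hh
    exact Multiplicative.toAdd.injective (by simpa using hh)
  obtain ⟨v, μ, hv, hμ, hPv, hρv⟩ := exists_eigen h h0 hγi
  obtain ⟨S, ε, hε, hS⟩ := hr
  obtain ⟨δ, hδ, hball⟩ := Metric.eventually_nhds_iff.1 (near_tw h i0 φ S hε)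
  -- the eigenvalues of the twisted matrices
  have hroot : ∀ t ∈ Set.Ioo 0 δ, ((Real.exp (t * c) : ℝ) : ℂ) * μ ∈
      ((ρ γ : Matrix (Fin n) (Fin n) ℂ).charpoly.roots.toFinset : Set ℂ) := by
    intro t ht
    have hd : dist t 0 < δ := by
      rw [Real.dist_eq, sub_zero, abs_of_pos ht.1]
      exact ht.2
    obtain ⟨g, hg⟩ := hS _ (hball hd)
    have h1 := hg γ
    have h2 : tw ρ P (cc i0 φ t) γ *ᵥ v = (((Real.exp (t * c) : ℝ) : ℂ) * μ) • v := by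
      unfold tw
      rw [← Matrix.mulVec_mulVec]
      have e1 : (∑ i, cc i0 φ t γ i • P i) *ᵥ v = cc i0 φ t γ i0 • v := by
        conv_lhs => rw [← hPv]
        rw [Matrix.mulVec_mulVec, Finset.sum_mul, Finset.sum_eq_single i0]
        · rw [smul_mul_assoc, h.mul, if_pos rfl, Matrix.smul_mulVec, hPv]
        · intro j _ hj
          rw [smul_mul_assoc, h.mul, if_neg hj, smul_zero]
        · intro hh
          exact absurd (Finset.mem_univ i0) hh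
      rw [e1, Matrix.mulVec_smul, hρv, hcc, smul_smul, ← hc]
    have h3 : (tw ρ P (cc i0 φ t) γ) = (g : Matrix (Fin n) (Fin n) ℂ) *
        (ρ γ : Matrix (Fin n) (Fin n) ℂ) * ((g⁻¹ : GL (Fin n) ℂ) : Matrix (Fin n) (Fin n) ℂ) := by
      rw [← twRep_val h (isCo_cc i0 φ t), h1]
      rfl
    have h4 : (ρ γ : Matrix (Fin n) (Fin n) ℂ) *ᵥ
        (((g⁻¹ : GL (Fin n) ℂ) : Matrix (Fin n) (Fin n) ℂ) *ᵥ v) =
        (((Real.exp (t * c) : ℝ) : ℂ) * μ) •
          (((g⁻¹ : GL (Fin n) ℂ) : Matrix (Fin n) (Fin n) ℂ) *ᵥ v) := by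
      have e : ((g⁻¹ : GL (Fin n) ℂ) : Matrix (Fin n) (Fin n) ℂ) * tw ρ P (cc i0 φ t) γ =
          (ρ γ : Matrix (Fin n) (Fin n) ℂ) * ((g⁻¹ : GL (Fin n) ℂ) : Matrix (Fin n) (Fin n) ℂ) := by
        rw [h3, ← mul_assoc, ← mul_assoc, Units.inv_mul, one_mul]
      rw [← Matrix.mulVec_smul, ← h2, Matrix.mulVec_mulVec, Matrix.mulVec_mulVec, e]
    have h5 : ((g⁻¹ : GL (Fin n) ℂ) : Matrix (Fin n) (Fin n) ℂ) *ᵥ v ≠ 0 := by
      intro hh
      apply hv
      have h6 : (g : Matrix (Fin n) (Fin n) ℂ) *ᵥ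
          (((g⁻¹ : GL (Fin n) ℂ) : Matrix (Fin n) (Fin n) ℂ) *ᵥ v) = 0 := by
        rw [hh, Matrix.mulVec_zero]
      rw [Matrix.mulVec_mulVec, ← Units.val_mul, mul_inv_cancel, Units.val_one,
        Matrix.one_mulVec] at h6
      exact h6
    have h7 : Module.End.HasEigenvalue (Matrix.toLin' (ρ γ : Matrix (Fin n) (Fin n) ℂ))
        (((Real.exp (t * c) : ℝ) : ℂ) * μ) :=
      Module.End.hasEigenvalue_of_hasEigenvector
        ⟨Module.End.mem_eigenspace_iff.2 (by rw [Matrix.toLin'_apply]; exact h4), h5⟩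
    rw [Finset.mem_coe, Multiset.mem_toFinset, Polynomial.mem_roots (Matrix.charpoly_monic _).ne_zero]
    have h8 := Module.End.hasEigenvalue_iff_isRoot_charpoly _ _ |>.1 h7
    rwa [Matrix.charpoly_toLin'] at h8
  have hinf : (Set.Ioo (0 : ℝ) δ).Infinite := Set.Ioo_infinite hδ
  have hfin : ((fun t : ℝ => ((Real.exp (t * c) : ℝ) : ℂ) * μ) '' Set.Ioo 0 δ).Finite := by
    refine (Finset.finite_toSet
      (ρ γ : Matrix (Fin n) (Fin n) ℂ).charpoly.roots.toFinset).subset ?_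
    rintro _ ⟨t, ht, rfl⟩
    exact hroot t ht
  refine hinf (Set.Finite.of_finite_image hfin ?_)
  intro t _ s _ hts
  have e1 : ((Real.exp (t * c) : ℝ) : ℂ) = ((Real.exp (s * c) : ℝ) : ℂ) := mul_right_cancel₀ hμ hts
  have e2 : Real.exp (t * c) = Real.exp (s * c) := by exact_mod_cast e1
  exact mul_right_cancel₀ hc0 (Real.exp_injective e2)

end Pool.Agent.MP_009209
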