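import Pool.Agent.Lib.MP_009209_ag.AbCase

/-!
# Representations induced in part
-/

namespace Pool.Agent.MP_009209

open Matrix

variable {Γ : Type*} [Group Γ] {n : ℕ}

theorem indep_option {I : Type*} {V : I → Submodule ℂ (Fin n → ℂ)} (hind : iSupIndep V)
    {W : Submodule ℂ (Fin n → ℂ)} (hc : Disjoint (⨆ i, V i) W) :
    iSupIndep fun o : Option I => o.elim W V := by
  intro o
  rcases o with _ | i
  · refine hc.symm.mono_right (iSup₂_le fun j hj => ?_)
    rcases j with _ | j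
    · exact absurd rfl hj
    · exact le_iSup V j
  · have h1 : Disjoint (V i) ((⨆ j ≠ i, V j) ⊔ W) := by
      refine Disjoint.disjoint_sup_right_of_disjoint_sup_left (hind i) (hc.mono_left ?_)
      exact sup_le (le_iSup V i) (iSup₂_le fun j _ => le_iSup V j)
    refine h1.mono_right (iSup₂_le fun j hj => ?_)
    rcases j with _ | j
    · exact le_sup_right
    · refine le_trans ?_ le_sup_left
      exact le_iSup₂_of_le j (fun h => hj (congrArg some h)) le_rfl

theorem stable_iSup {ρ : Γ →* GL (Fin n) ℂ} {I : Type*} [MulAction Γ I]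
    {V : I → Submodule ℂ (Fin n → ℂ)}
    (hperm : ∀ (γ : Γ) (i : I), ∀ v ∈ V i, (ρ γ : Matrix (Fin n) (Fin n) ℂ) *ᵥ v ∈ V (γ • i)) :
    Stable ρ (⨆ i, V i) := by
  intro γ v hv
  refine Submodule.iSup_induction V
    (motive := fun v => (ρ γ : Matrix (Fin n) (Fin n) ℂ) *ᵥ v ∈ ⨆ i, V i) hv ?_ ?_ ?_
  · intro i w hw
    exact Submodule.mem_iSup_of_mem (γ • i) (hperm γ i w hw)
  · rw [Matrix.mulVec_zero]
    exact Submodule.zero_mem _
  · intro x y hx hy
    rw [Matrix.mulVec_add]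
    exact Submodule.add_mem _ hx hy

theorem ne_bot_smul {ρ : Γ →* GL (Fin n) ℂ} {I : Type*} [MulAction Γ I]
    {V : I → Submodule ℂ (Fin n → ℂ)}
    (hperm : ∀ (γ : Γ) (i : I), ∀ v ∈ V i, (ρ γ : Matrix (Fin n) (Fin n) ℂ) *ᵥ v ∈ V (γ • i))
    (γ : Γ) (i : I) (hi : V i ≠ ⊥) : V (γ • i) ≠ ⊥ := by
  obtain ⟨v, hv, hv0⟩ := Submodule.exists_mem_ne_zero_of_ne_bot hi
  intro hb
  have := hperm γ i v hv
  rw [hb, Submodule.mem_bot] at this
  exact gl_mulVec_ne_zero _ hv0 this

/-- A rigid semisimple representation that is induced in part. -/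
theorem finite_ab_stab' [Group.FG Γ] {ρ : Γ →* GL (Fin n) ℂ} (hr : Rigid ρ) (hs : Semisimple ρ)
    {I : Type*} [MulAction Γ I] (V : I → Submodule ℂ (Fin n → ℂ)) (hind : iSupIndep V)
    (hperm : ∀ (γ : Γ) (i : I), ∀ v ∈ V i, (ρ γ : Matrix (Fin n) (Fin n) ℂ) *ᵥ v ∈ V (γ • i))
    (i : I) (hi : V i ≠ ⊥) :
    (MulAction.stabilizer Γ i).FiniteIndex ∧ Finite (Abelianization (MulAction.stabilizer Γ i)) := by
  classical
  let J : SubMulAction Γ I :=
    { carrier := {i | V i ≠ ⊥}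
      smul_mem' := fun γ i hi => ne_bot_smul hperm γ i hi }
  have hJfin : Finite J := (WellFoundedGT.finite_ne_bot_of_iSupIndep hind).to_subtype
  set VJ : J → Submodule ℂ (Fin n → ℂ) := fun j => V j with hVJ
  have hindJ : iSupIndep VJ := hind.comp Subtype.val_injective
  have hpermJ : ∀ (γ : Γ) (j : J), ∀ v ∈ VJ j,
      (ρ γ : Matrix (Fin n) (Fin n) ℂ) *ᵥ v ∈ VJ (γ • j) := fun γ j v hv => hperm γ j v hv
  obtain ⟨W, hW, hc⟩ := hs _ (stable_iSup hpermJ)
  have h1 := finite_ab_stab hr (fun o : Option J => o.elim W VJ) (indep_option hindJ hc.disjoint)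
    (by rw [iSup_option_elim, sup_comm]; exact hc.sup_eq_top)
    (by
      intro γ o v hv
      rcases o with _ | j
      · exact hW γ v hv
      · exact hpermJ γ j v hv) (some ⟨i, hi⟩) hi
  have h2 : MulAction.stabilizer Γ (some (⟨i, hi⟩ : J) : Option J) = MulAction.stabilizer Γ i := by
    ext γ
    rw [MulAction.mem_stabilizer_iff, MulAction.mem_stabilizer_iff, Option.smul_some,
      Option.some_inj]
    exact Subtype.ext_iff
  rw [h2] at h1
  refine ⟨?_, h1⟩
  have h3 : Finite (Γ ⧸ MulAction.stabilizer Γ (some (⟨i, hi⟩ : J) : Option J)) :=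
    Finite.of_equiv _ (MulAction.orbitEquivQuotientStabilizer Γ _)
  rw [h2] at h3
  exact Subgroup.finiteIndex_of_finite_quotient

end Pool.Agent.MP_009209
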