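import Pool.Agent.Lib.MP_009209_ag.Block
import Pool.Agent.Lib.MP_009209_ag.DefsGen

/-!
# Systems of imprimitivity with primitive blocks
-/

namespace Pool.Agent.MP_009209

open Matrix

variable {Γ : Type*} [Group Γ] {n m : ℕ}

section lattice

theorem refine_indep {α : Type*} [CompleteLattice α] [IsModularLattice α] {𝒱 : Set α}
    (h : sSupIndep 𝒱) (D : α → Set α) (hD : ∀ W ∈ 𝒱, sSupIndep (D W))
    (hs : ∀ W ∈ 𝒱, sSup (D W) = W) : sSupIndep (⋃ W ∈ 𝒱, D W) := by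
  intro U hU
  obtain ⟨W, hW, hUW⟩ := Set.mem_iUnion₂.1 hU
  have h1 : Disjoint U (sSup (D W \ {U}) ⊔ sSup (𝒱 \ {W})) := by
    refine Disjoint.disjoint_sup_right_of_disjoint_sup_left (hD W hW hUW) ((h hW).mono_left ?_)
    refine le_trans ?_ (hs W hW).le
    exact sup_le (le_sSup hUW) (sSup_le_sSup Set.sdiff_subset)
  refine h1.mono_right (sSup_le ?_)
  rintro U' ⟨hU', hne⟩
  obtain ⟨W', hW', hUW'⟩ := Set.mem_iUnion₂.1 hU'
  by_cases he : W' = W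
  · rw [he] at hUW'
    have h3 : U' ∈ D W \ {U} := ⟨hUW', hne⟩
    exact le_trans (le_sSup h3) le_sup_left
  · have h2 : U' ≤ W' := (le_sSup hUW').trans (hs W' hW').le
    have h3 : W' ∈ 𝒱 \ {W} := ⟨hW', he⟩
    exact (h2.trans (le_sSup h3)).trans le_sup_right

theorem refine_sup {α : Type*} [CompleteLattice α] {𝒱 : Set α} (D : α → Set α)
    (hs : ∀ W ∈ 𝒱, sSup (D W) = W) : sSup 𝒱 ≤ sSup (⋃ W ∈ 𝒱, D W) := by
  refine sSup_le fun W hW => ?_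
  refine le_trans (hs W hW).ge ?_
  exact sSup_le_sSup fun U hU => Set.mem_iUnion₂.2 ⟨W, hW, hU⟩

theorem refine_card {α : Type*} [CompleteLattice α] {𝒱 : Set α}
    (h : sSupIndep 𝒱) (hne : ∀ W ∈ 𝒱, W ≠ ⊥) (D : α → Set α)
    (hs : ∀ W ∈ 𝒱, sSup (D W) = W) (hDne : ∀ W ∈ 𝒱, ∀ U ∈ D W, U ≠ ⊥)
    (hfin : (⋃ W ∈ 𝒱, D W).Finite) {V U₁ U₂ : α} (hV : V ∈ 𝒱) (h1 : U₁ ∈ D V) (h2 : U₂ ∈ D V)
    (h12 : U₁ ≠ U₂) : 𝒱.ncard < (⋃ W ∈ 𝒱, D W).ncard := by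
  classical
  have huniq : ∀ W ∈ 𝒱, ∀ W' ∈ 𝒱, ∀ U, U ∈ D W → U ∈ D W' → W = W' := by
    intro W hW W' hW' U hU hU'
    by_contra hc
    have e1 : U ≤ W := (le_sSup hU).trans (hs W hW).le
    have e2 : U ≤ W' := (le_sSup hU').trans (hs W' hW').le
    have e3 : Disjoint W W' := h.pairwiseDisjoint hW hW' hc
    exact hDne W hW U hU (le_bot_iff.1 (e3 e1 e2))
  have hex : ∀ W, ∃ U, W ∈ 𝒱 → U ∈ D W := by
    intro W
    by_cases hW : W ∈ 𝒱
    · have h3 : (D W).Nonempty := by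
        by_contra hc
        rw [Set.not_nonempty_iff_eq_empty] at hc
        have h4 := hs W hW
        rw [hc, sSup_empty] at h4
        exact hne W hW h4.symm
      obtain ⟨U, hU⟩ := h3
      exact ⟨U, fun _ => hU⟩
    · exact ⟨W, fun h => absurd h hW⟩
  choose g hg using hex
  have hinj : Set.InjOn g 𝒱 := by
    intro W hW W' hW' he
    exact huniq W hW W' hW' (g W) (hg W hW) (by rw [he]; exact hg W' hW')
  have hsub : g '' 𝒱 ⊆ ⋃ W ∈ 𝒱, D W := by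
    rintro _ ⟨W, hW, rfl⟩
    exact Set.mem_iUnion₂.2 ⟨W, hW, hg W hW⟩
  have hss : g '' 𝒱 ⊂ ⋃ W ∈ 𝒱, D W := by
    refine lt_of_le_of_ne hsub ?_
    intro he
    have e1 : U₁ ∈ g '' 𝒱 := by
      rw [he]
      exact Set.mem_iUnion₂.2 ⟨V, hV, h1⟩
    have e2 : U₂ ∈ g '' 𝒱 := by
      rw [he]
      exact Set.mem_iUnion₂.2 ⟨V, hV, h2⟩
    obtain ⟨W₁, hW₁, rfl⟩ := e1
    obtain ⟨W₂, hW₂, rfl⟩ := e2
    have e3 := huniq W₁ hW₁ V hV _ (hg W₁ hW₁) h1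
    have e4 := huniq W₂ hW₂ V hV _ (hg W₂ hW₂) h2
    exact h12 (by rw [e3, e4])
  calc 𝒱.ncard = (g '' 𝒱).ncard := (Set.InjOn.ncard_image hinj).symm
    _ < _ := Set.ncard_lt_ncard hss hfin

end lattice

theorem mv_mul (ρ : Γ →* GL (Fin n) ℂ) (γ δ : Γ) (W : Submodule ℂ (Fin n → ℂ)) :
    mv ρ (γ * δ) W = mv ρ γ (mv ρ δ W) := by
  unfold mv
  rw [map_mul, Units.val_mul, Matrix.toLin'_mul, Submodule.map_comp]

theorem mv_one (ρ : Γ →* GL (Fin n) ℂ) (W : Submodule ℂ (Fin n → ℂ)) : mv ρ 1 W = W := by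
  unfold mv
  rw [map_one, Units.val_one, Matrix.toLin'_one, Submodule.map_id]

theorem mem_stab {ρ : Γ →* GL (Fin n) ℂ} {γ : Γ} {W : Submodule ℂ (Fin n → ℂ)} :
    γ ∈ stab ρ W ↔ mv ρ γ W = W := Iff.rfl

section image

variable {E F : Type*} [AddCommGroup E] [Module ℂ E] [AddCommGroup F] [Module ℂ F]

theorem indep_image {L : E →ₗ[ℂ] F} (hL : Function.Injective L) {𝒰 : Set (Submodule ℂ E)}
    (h : sSupIndep 𝒰) : sSupIndep ((fun U => U.map L) '' 𝒰) := by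
  rintro _ ⟨U, hU, rfl⟩
  have h1 : sSup (((fun U => Submodule.map L U) '' 𝒰) \ {Submodule.map L U}) ≤
      (sSup (𝒰 \ {U})).map L := by
    refine sSup_le ?_
    rintro _ ⟨⟨U', hU', rfl⟩, hne⟩
    exact Submodule.map_mono (le_sSup ⟨hU', fun he => hne (congrArg (Submodule.map L) he)⟩)
  refine Disjoint.mono_right h1 ?_
  rw [disjoint_iff, ← Submodule.map_inf _ hL, (h hU).eq_bot, Submodule.map_bot]

theorem sup_image (L : E →ₗ[ℂ] F) (𝒰 : Set (Submodule ℂ E)) :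
    sSup ((fun U => U.map L) '' 𝒰) = (sSup 𝒰).map L := by
  refine le_antisymm (sSup_le ?_) ?_
  · rintro _ ⟨U, hU, rfl⟩
    exact Submodule.map_mono (le_sSup hU)
  · rw [Submodule.map_le_iff_le_comap]
    refine sSup_le fun U hU => ?_
    rw [← Submodule.map_le_iff_le_comap]
    exact le_sSup ⟨U, hU, rfl⟩

theorem ne_bot_image {L : E →ₗ[ℂ] F} (hL : Function.Injective L) {U : Submodule ℂ E}
    (h : U ≠ ⊥) : U.map L ≠ ⊥ := by
  intro he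
  apply h
  rw [Submodule.eq_bot_iff]
  intro u hu
  have h1 : L u ∈ U.map L := ⟨u, hu, rfl⟩
  rw [he, Submodule.mem_bot] at h1
  exact hL (by rw [h1, map_zero])

end image

theorem system_finite {ρ : Γ →* GL (Fin n) ℂ} {𝒱 : Set (Submodule ℂ (Fin n → ℂ))}
    (h : System ρ 𝒱) : 𝒱.Finite := by
  have h1 : iSupIndep ((↑) : 𝒱 → Submodule ℂ (Fin n → ℂ)) := (sSupIndep_iff 𝒱).1 h.indep
  have h2 : Finite 𝒱 := WellFoundedGT.finite_of_iSupIndep h1 fun W => h.ne_bot W W.2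
  exact Set.toFinite 𝒱

theorem system_card {ρ : Γ →* GL (Fin n) ℂ} {𝒱 : Set (Submodule ℂ (Fin n → ℂ))}
    (h : System ρ 𝒱) : 𝒱.ncard ≤ n := by
  classical
  have h1 : iSupIndep ((↑) : 𝒱 → Submodule ℂ (Fin n → ℂ)) := (sSupIndep_iff 𝒱).1 h.indep
  have h2 : Fintype 𝒱 := (system_finite h).fintype
  have h4 := h1.subtype_ne_bot_le_finrank
  rw [Module.finrank_fin_fun] at h4
  refine le_trans (le_of_eq ?_) h4
  rw [← Nat.card_coe_set_eq, ← Nat.card_eq_fintype_card]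
  refine Nat.card_congr
    { toFun := fun W => ⟨W, h.ne_bot W W.2⟩
      invFun := fun W => W.1
      left_inv := fun W => rfl
      right_inv := fun W => rfl }

theorem exists_max {ρ : Γ →* GL (Fin n) ℂ} (h0 : ∃ 𝒱, System ρ 𝒱) :
    ∃ 𝒱, System ρ 𝒱 ∧ ∀ 𝒱', System ρ 𝒱' → 𝒱'.ncard ≤ 𝒱.ncard := by
  classical
  obtain ⟨𝒱₀, h𝒱₀⟩ := h0
  obtain ⟨𝒱, h1, h2⟩ := Nat.findGreatest_spec (P := fun k => ∃ 𝒱, System ρ 𝒱 ∧ 𝒱.ncard = k)
    (system_card h𝒱₀) ⟨𝒱₀, h𝒱₀, rfl⟩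
  refine ⟨𝒱, h1, fun 𝒱' h' => ?_⟩
  rw [h2]
  exact Nat.le_findGreatest (system_card h') ⟨𝒱', h', rfl⟩

theorem exists_system (ρ : Γ →* GL (Fin n) ℂ) : ∃ 𝒱, System ρ 𝒱 := by
  by_cases hn : (⊤ : Submodule ℂ (Fin n → ℂ)) = ⊥
  · refine ⟨∅, sSupIndep_empty, ?_, ?_, ?_⟩
    · rw [sSup_empty, hn]
    · intro W hW
      exact absurd hW (Set.notMem_empty W)
    · intro γ W hW
      exact absurd hW (Set.notMem_empty W)
  · refine ⟨{⊤}, sSupIndep_singleton _, sSup_singleton, ?_, ?_⟩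
    · intro W hW
      rw [Set.mem_singleton_iff.1 hW]
      exact hn
    · intro γ W hW
      rw [Set.mem_singleton_iff.1 hW, Set.mem_singleton_iff]
      unfold mv
      rw [Submodule.map_top, LinearMap.range_eq_top]
      intro v
      refine ⟨((ρ γ)⁻¹ : GL (Fin n) ℂ).val *ᵥ v, ?_⟩
      rw [Matrix.toLin'_apply, Matrix.mulVec_mulVec, ← Units.val_mul, mul_inv_cancel,
        Units.val_one, Matrix.one_mulVec]

open Classical in
/-- the pieces of `W` -/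
noncomputable def pcs (ρ : Γ →* GL (Fin n) ℂ) (V : Submodule ℂ (Fin n → ℂ))
    (𝒰 : Set (Submodule ℂ (Fin n → ℂ))) (W : Submodule ℂ (Fin n → ℂ)) :
    Set (Submodule ℂ (Fin n → ℂ)) :=
  if ∃ γ, mv ρ γ V = W then {X | ∃ γ, mv ρ γ V = W ∧ ∃ U ∈ 𝒰, X = mv ρ γ U} else {W}

theorem pcs_eq {ρ : Γ →* GL (Fin n) ℂ} {V : Submodule ℂ (Fin n → ℂ)}
    {𝒰 : Set (Submodule ℂ (Fin n → ℂ))} (hst : ∀ γ ∈ stab ρ V, ∀ U ∈ 𝒰, mv ρ γ U ∈ 𝒰) (γ : Γ) :
    pcs ρ V 𝒰 (mv ρ γ V) = (fun U => mv ρ γ U) '' 𝒰 := by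
  unfold pcs
  rw [if_pos ⟨γ, rfl⟩]
  ext X
  constructor
  · rintro ⟨δ, hδ, U, hU, rfl⟩
    have h1 : γ⁻¹ * δ ∈ stab ρ V := by
      rw [mem_stab, mv_mul, hδ, ← mv_mul, inv_mul_cancel, mv_one]
    refine ⟨_, hst _ h1 U hU, ?_⟩
    beta_reduce
    rw [← mv_mul, mul_inv_cancel_left]
  · rintro ⟨U, hU, rfl⟩
    exact ⟨γ, rfl, U, hU, rfl⟩

theorem toLin_inj (ρ : Γ →* GL (Fin n) ℂ) (γ : Γ) :
    Function.Injective (Matrix.toLin' (ρ γ : Matrix (Fin n) (Fin n) ℂ)) := by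
  intro v w hvw
  rw [← sub_eq_zero] at hvw ⊢
  rw [← map_sub, Matrix.toLin'_apply] at hvw
  by_contra h
  exact gl_mulVec_ne_zero (ρ γ) h hvw

/-- The blocks of a largest system are primitive. -/
theorem prim_of_max {ρ : Γ →* GL (Fin n) ℂ} {𝒱 : Set (Submodule ℂ (Fin n → ℂ))}
    (h : System ρ 𝒱) (hmax : ∀ 𝒱', System ρ 𝒱' → 𝒱'.ncard ≤ 𝒱.ncard)
    {V : Submodule ℂ (Fin n → ℂ)} (hV : V ∈ 𝒱) (σ : stab ρ V →* GL (Fin m) ℂ)
    (hσ : ActsAs ρ (stab ρ V) V σ) : Primitive σ := by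
  classical
  obtain ⟨B, hB, hBV, hBσ⟩ := hσ
  have hL : Function.Injective (Matrix.toLin' B) := hB
  have hBV' : (⊤ : Submodule ℂ (Fin m → ℂ)).map (Matrix.toLin' B) = V := by
    rw [Submodule.map_top]
    exact hBV
  constructor
  · rintro rfl
    apply h.ne_bot V hV
    rw [← hBV', Submodule.eq_bot_iff]
    rintro _ ⟨x, _, rfl⟩
    rw [Subsingleton.elim x 0, map_zero]
  · intro 𝒰 hU
    by_contra hne
    -- two different members
    have h2 : ∃ U₁ ∈ 𝒰, ∃ U₂ ∈ 𝒰, U₁ ≠ U₂ := by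
      by_contra hc
      push Not at hc
      apply hne
      obtain ⟨U, hU1⟩ : 𝒰.Nonempty := by
        by_contra he
        rw [Set.not_nonempty_iff_eq_empty] at he
        have h3 := hU.sup
        rw [he, sSup_empty] at h3
        apply h.ne_bot V hV
        rw [← hBV', ← h3, Submodule.map_bot]
      have h4 : 𝒰 = {U} := by
        ext X
        rw [Set.mem_singleton_iff]
        exact ⟨fun hX => hc X hX U hU1, fun hX => by rw [hX]; exact hU1⟩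
      have h5 := hU.sup
      rw [h4, sSup_singleton] at h5
      rw [h4, h5]
    obtain ⟨U₁, hU₁, U₂, hU₂, h12⟩ := h2
    set 𝒰' : Set (Submodule ℂ (Fin n → ℂ)) := (fun U => U.map (Matrix.toLin' B)) '' 𝒰 with h𝒰'
    have hst : ∀ γ ∈ stab ρ V, ∀ U ∈ 𝒰', mv ρ γ U ∈ 𝒰' := by
      rintro γ hγ _ ⟨U, hU1, rfl⟩
      refine ⟨mv σ ⟨γ, hγ⟩ U, hU.perm ⟨γ, hγ⟩ U hU1, ?_⟩
      change (U.map _).map _ = (U.map _).map _
      rw [← Submodule.map_comp, ← Submodule.map_comp, ← Matrix.toLin'_mul, ← Matrix.toLin'_mul,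
        ← hBσ ⟨γ, hγ⟩]
    have hind' : sSupIndep 𝒰' := indep_image hL hU.indep
    have hsup' : sSup 𝒰' = V := by
      rw [h𝒰', sup_image, hU.sup, hBV']
    have hne' : ∀ U ∈ 𝒰', U ≠ ⊥ := by
      rintro _ ⟨U, hU1, rfl⟩
      exact ne_bot_image hL (hU.ne_bot U hU1)
    -- the properties of the pieces
    have hcase : ∀ W ∈ 𝒱, sSupIndep (pcs ρ V 𝒰' W) ∧ sSup (pcs ρ V 𝒰' W) = W ∧
        ∀ U ∈ pcs ρ V 𝒰' W, U ≠ ⊥ := by
      intro W hW
      by_cases hγ : ∃ γ, mv ρ γ V = W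
      · obtain ⟨γ, rfl⟩ := hγ
        rw [pcs_eq hst γ]
        refine ⟨indep_image (toLin_inj ρ γ) hind', ?_, ?_⟩
        · have h6 := sup_image (Matrix.toLin' (ρ γ : Matrix (Fin n) (Fin n) ℂ)) 𝒰'
          rw [hsup'] at h6
          exact h6
        · rintro _ ⟨U, hU1, rfl⟩
          exact ne_bot_image (toLin_inj ρ γ) (hne' U hU1)
      · unfold pcs
        rw [if_neg hγ]
        refine ⟨sSupIndep_singleton _, sSup_singleton, ?_⟩
        intro U hU1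
        rw [Set.mem_singleton_iff.1 hU1]
        exact h.ne_bot W hW
    have hnew : System ρ (⋃ W ∈ 𝒱, pcs ρ V 𝒰' W) := by
      refine ⟨refine_indep h.indep _ (fun W hW => (hcase W hW).1) fun W hW => (hcase W hW).2.1,
        ?_, ?_, ?_⟩
      · rw [eq_top_iff, ← h.sup]
        exact refine_sup _ fun W hW => (hcase W hW).2.1
      · intro U hU1
        obtain ⟨W, hW, hUW⟩ := Set.mem_iUnion₂.1 hU1
        exact (hcase W hW).2.2 U hUW
      · intro γ U hU1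
        obtain ⟨W, hW, hUW⟩ := Set.mem_iUnion₂.1 hU1
        refine Set.mem_iUnion₂.2 ⟨mv ρ γ W, h.perm γ W hW, ?_⟩
        by_cases hδ : ∃ δ, mv ρ δ V = W
        · unfold pcs at hUW
          rw [if_pos hδ] at hUW
          obtain ⟨δ, hδ1, X, hX, rfl⟩ := hUW
          unfold pcs
          have h7 : mv ρ (γ * δ) V = mv ρ γ W := by rw [mv_mul, hδ1]
          rw [if_pos ⟨γ * δ, h7⟩]
          exact ⟨γ * δ, h7, X, hX, by rw [mv_mul]⟩
        · unfold pcs at hUW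
          rw [if_neg hδ, Set.mem_singleton_iff] at hUW
          rw [hUW]
          have h8 : ¬ ∃ δ, mv ρ δ V = mv ρ γ W := by
            rintro ⟨δ, hδ1⟩
            apply hδ
            refine ⟨γ⁻¹ * δ, ?_⟩
            rw [mv_mul, hδ1, ← mv_mul, inv_mul_cancel, mv_one]
          unfold pcs
          rw [if_neg h8]
          exact Set.mem_singleton _
    have hpV : ∀ U ∈ 𝒰', U ∈ pcs ρ V 𝒰' V := by
      intro U hU1
      have h9 := pcs_eq hst 1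
      rw [mv_one] at h9
      rw [h9]
      exact ⟨U, hU1, mv_one ρ U⟩
    have hlt := refine_card h.indep h.ne_bot _ (fun W hW => (hcase W hW).2.1)
      (fun W hW => (hcase W hW).2.2) (system_finite hnew) hV (hpV _ ⟨U₁, hU₁, rfl⟩)
      (hpV _ ⟨U₂, hU₂, rfl⟩) (fun he => h12 (Submodule.map_injective_of_injective hL he))
    exact absurd (hmax _ hnew) (not_le.2 hlt)

/-- the action of `Γ` on a system -/
@[reducible] noncomputable def actS {ρ : Γ →* GL (Fin n) ℂ} {𝒱 : Set (Submodule ℂ (Fin n → ℂ))}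
    (h : System ρ 𝒱) : MulAction Γ 𝒱 where
  smul γ W := ⟨mv ρ γ W, h.perm γ W W.2⟩
  one_smul W := Subtype.ext (mv_one ρ W)
  mul_smul γ δ W := Subtype.ext (mv_mul ρ γ δ W)

/-- The reduction to primitive representations. -/
theorem reduction [Group.FG Γ] {ρ : Γ →* GL (Fin n) ℂ} (hr : Rigid ρ) (hs : Semisimple ρ) :
    ∃ 𝒱, System ρ 𝒱 ∧ ∀ V ∈ 𝒱, (stab ρ V).FiniteIndex ∧
      Finite (Abelianization (stab ρ V)) ∧
      ∀ (m : ℕ) (σ : stab ρ V →* GL (Fin m) ℂ), ActsAs ρ (stab ρ V) V σ →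
        Rigid σ ∧ Semisimple σ ∧ Primitive σ := by
  obtain ⟨𝒱, h, hmax⟩ := exists_max (exists_system ρ)
  refine ⟨𝒱, h, fun V hV => ?_⟩
  let _ := actS h
  have hind : iSupIndep ((↑) : 𝒱 → Submodule ℂ (Fin n → ℂ)) := (sSupIndep_iff 𝒱).1 h.indep
  have hperm : ∀ (γ : Γ) (W : 𝒱), ∀ v ∈ (W : Submodule ℂ (Fin n → ℂ)),
      (ρ γ : Matrix (Fin n) (Fin n) ℂ) *ᵥ v ∈ ((γ • W : 𝒱) : Submodule ℂ (Fin n → ℂ)) :=
    fun γ W v hv => ⟨v, hv, rfl⟩
  have hst : MulAction.stabilizer Γ (⟨V, hV⟩ : 𝒱) = stab ρ V := by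
    ext γ
    rw [MulAction.mem_stabilizer_iff]
    exact ⟨fun h => congrArg Subtype.val h, fun h => Subtype.ext h⟩
  obtain ⟨h1, h2⟩ := finite_ab_stab' hr hs ((↑) : 𝒱 → Submodule ℂ (Fin n → ℂ)) hind hperm
    ⟨V, hV⟩ (h.ne_bot V hV)
  rw [hst] at h1 h2
  refine ⟨h1, h2, fun m σ hσ => ?_⟩
  have h3 := prim_of_max h hmax hV σ hσ
  have h4 : Rigid σ ∧ Semisimple σ := by
    have h5 := block_rigid (m := m) hr hs ((↑) : 𝒱 → Submodule ℂ (Fin n → ℂ)) hind hperm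
      ⟨V, hV⟩ (h.ne_bot V hV)
    rw [hst] at h5
    exact h5 σ hσ
  exact ⟨h4.1, h4.2, h3⟩

end Pool.Agent.MP_009209
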