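import Pool.Agent.Lib.MP_009209_ag.SubRigid

/-!
# Tensor factors of a rigid representation
-/

namespace Pool.Agent.MP_009209

open Matrix Filter Topology
open scoped Kronecker

variable {Γ : Type*} [Group Γ] {n a b : ℕ}

/-- the trace over the second factor -/
noncomputable def pt (Z : Matrix (Fin a × Fin b) (Fin a × Fin b) ℂ) : Matrix (Fin a) (Fin a) ℂ :=
  Matrix.of fun i j => ∑ k, Z (i, k) (j, k)

theorem pt_apply (Z : Matrix (Fin a × Fin b) (Fin a × Fin b) ℂ) (i j : Fin a) :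
    pt Z i j = ∑ k, Z (i, k) (j, k) := rfl

theorem pt_mul_right (Z : Matrix (Fin a × Fin b) (Fin a × Fin b) ℂ)
    (M : Matrix (Fin a) (Fin a) ℂ) : pt (Z * (M ⊗ₖ (1 : Matrix (Fin b) (Fin b) ℂ))) = pt Z * M := by
  ext i j
  simp only [pt_apply, Matrix.mul_apply, Fintype.sum_prod_type, Matrix.kroneckerMap_apply,
    Matrix.one_apply, mul_ite, mul_one, mul_zero, Finset.sum_ite_eq',
    Finset.mem_univ, if_true, Finset.sum_mul]
  rw [Finset.sum_comm]

theorem pt_mul_left (Z : Matrix (Fin a × Fin b) (Fin a × Fin b) ℂ)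
    (M : Matrix (Fin a) (Fin a) ℂ) : pt ((M ⊗ₖ (1 : Matrix (Fin b) (Fin b) ℂ)) * Z) = M * pt Z := by
  ext i j
  simp only [pt_apply, Matrix.mul_apply, Fintype.sum_prod_type, Matrix.kroneckerMap_apply,
    Matrix.one_apply, mul_ite, mul_one, mul_zero, ite_mul, zero_mul,
    Finset.sum_ite_eq, Finset.mem_univ, if_true, Finset.mul_sum]
  rw [Finset.sum_comm]

theorem pt_cyc (Z : Matrix (Fin a × Fin b) (Fin a × Fin b) ℂ)
    (N : Matrix (Fin b) (Fin b) ℂ) :
    pt (((1 : Matrix (Fin a) (Fin a) ℂ) ⊗ₖ N) * Z) = pt (Z * ((1 : Matrix (Fin a) (Fin a) ℂ) ⊗ₖ N)) := by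
  ext i j
  simp only [pt_apply, Matrix.mul_apply, Fintype.sum_prod_type, Matrix.kroneckerMap_apply,
    Matrix.one_apply, mul_ite, mul_zero, ite_mul, zero_mul, one_mul]
  have h1 : ∀ x : Fin b, ∑ x_1 : Fin a, ∑ x_2 : Fin b,
      (if i = x_1 then N x x_2 * Z (x_1, x_2) (j, x) else 0) =
      ∑ x_2 : Fin b, N x x_2 * Z (i, x_2) (j, x) := by
    intro x
    rw [Finset.sum_eq_single i]
    · simp
    · intro l _ hl
      simp [hl.symm]
    · intro h
      exact absurd (Finset.mem_univ _) h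
  have h2 : ∀ x : Fin b, ∑ x_1 : Fin a, ∑ x_2 : Fin b,
      (if x_1 = j then Z (i, x) (x_1, x_2) * N x_2 x else 0) =
      ∑ x_2 : Fin b, Z (i, x) (j, x_2) * N x_2 x := by
    intro x
    rw [Finset.sum_eq_single j]
    · simp
    · intro l _ hl
      simp [hl]
    · intro h
      exact absurd (Finset.mem_univ _) h
  simp only [h1, h2]
  rw [Finset.sum_comm]
  refine Finset.sum_congr rfl fun x _ => Finset.sum_congr rfl fun y _ => ?_
  rw [mul_comm]

theorem pt_one : pt (1 : Matrix (Fin a × Fin b) (Fin a × Fin b) ℂ) = (b : ℂ) • 1 := by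
  ext i j
  simp only [pt_apply, Matrix.one_apply, Matrix.smul_apply, Prod.mk.injEq, and_true, smul_eq_mul,
    mul_ite, mul_one, mul_zero]
  split_ifs with h
  · simp
  · simp

theorem kron_split (M : Matrix (Fin a) (Fin a) ℂ) (N : Matrix (Fin b) (Fin b) ℂ) :
    M ⊗ₖ N = (M ⊗ₖ (1 : Matrix (Fin b) (Fin b) ℂ)) * ((1 : Matrix (Fin a) (Fin a) ℂ) ⊗ₖ N) := by
  rw [← Matrix.mul_kronecker_mul, mul_one, one_mul]

/-- The partial trace of an intertwiner is an intertwiner. -/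
theorem pt_inter {Z : Matrix (Fin a × Fin b) (Fin a × Fin b) ℂ} {M M' : Matrix (Fin a) (Fin a) ℂ}
    {N : GL (Fin b) ℂ} (h : Z * (M' ⊗ₖ (N : Matrix (Fin b) (Fin b) ℂ)) =
      (M ⊗ₖ (N : Matrix (Fin b) (Fin b) ℂ)) * Z) : pt Z * M' = M * pt Z := by
  have e : ((1 : Matrix (Fin a) (Fin a) ℂ) ⊗ₖ (N : Matrix (Fin b) (Fin b) ℂ)) *
      ((1 : Matrix (Fin a) (Fin a) ℂ) ⊗ₖ ((N⁻¹ : GL (Fin b) ℂ) : Matrix (Fin b) (Fin b) ℂ)) = 1 := by
    rw [← Matrix.mul_kronecker_mul, mul_one, ← Units.val_mul, mul_inv_cancel, Units.val_one,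
      Matrix.one_kronecker_one]
  have e' : ((1 : Matrix (Fin a) (Fin a) ℂ) ⊗ₖ ((N⁻¹ : GL (Fin b) ℂ) : Matrix (Fin b) (Fin b) ℂ)) *
      ((1 : Matrix (Fin a) (Fin a) ℂ) ⊗ₖ (N : Matrix (Fin b) (Fin b) ℂ)) = 1 := by
    rw [← Matrix.mul_kronecker_mul, mul_one, ← Units.val_mul, inv_mul_cancel, Units.val_one,
      Matrix.one_kronecker_one]
  have h1 : Z * (M' ⊗ₖ (1 : Matrix (Fin b) (Fin b) ℂ)) =
      (M ⊗ₖ (1 : Matrix (Fin b) (Fin b) ℂ)) *
        (((1 : Matrix (Fin a) (Fin a) ℂ) ⊗ₖ (N : Matrix (Fin b) (Fin b) ℂ)) * Z *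
        ((1 : Matrix (Fin a) (Fin a) ℂ) ⊗ₖ ((N⁻¹ : GL (Fin b) ℂ) : Matrix (Fin b) (Fin b) ℂ))) := by
    rw [kron_split M', kron_split M] at h
    calc Z * (M' ⊗ₖ (1 : Matrix (Fin b) (Fin b) ℂ))
        = (Z * ((M' ⊗ₖ (1 : Matrix (Fin b) (Fin b) ℂ)) *
            ((1 : Matrix (Fin a) (Fin a) ℂ) ⊗ₖ (N : Matrix (Fin b) (Fin b) ℂ)))) *
            ((1 : Matrix (Fin a) (Fin a) ℂ) ⊗ₖ
              ((N⁻¹ : GL (Fin b) ℂ) : Matrix (Fin b) (Fin b) ℂ)) := by
          rw [mul_assoc, mul_assoc, e, mul_one]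
      _ = _ := by
          rw [h]
          simp only [mul_assoc]
  have h2 := congrArg pt h1
  rw [pt_mul_right, pt_mul_left, mul_assoc, pt_cyc, mul_assoc, e', mul_one] at h2
  exact h2

theorem pt_cont {X : Type*} [TopologicalSpace X]
    {f : X → Matrix (Fin a × Fin b) (Fin a × Fin b) ℂ} (hf : Continuous f) :
    Continuous fun x => pt (f x) := by
  refine continuous_matrix fun i j => ?_
  simp only [pt_apply]
  exact continuous_finsetSum _ fun k _ => hf.matrix_elem _ _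

theorem kron_cont {X : Type*} [TopologicalSpace X] {f : X → Matrix (Fin a) (Fin a) ℂ}
    (hf : Continuous f) (N : Matrix (Fin b) (Fin b) ℂ) : Continuous fun x => f x ⊗ₖ N := by
  refine continuous_matrix fun i j => ?_
  simp only [Matrix.kroneckerMap_apply]
  exact (hf.matrix_elem _ _).mul continuous_const

section

variable {A : Matrix (Fin n) (Fin a × Fin b) ℂ} {A' : Matrix (Fin a × Fin b) (Fin n) ℂ}

/-- the representation with `σ` replaced -/
noncomputable def tn (A : Matrix (Fin n) (Fin a × Fin b) ℂ) (A' : Matrix (Fin a × Fin b) (Fin n) ℂ)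
    (τ : Γ →* GL (Fin b) ℂ) (D : Γ → Matrix (Fin a) (Fin a) ℂ) (γ : Γ) :
    Matrix (Fin n) (Fin n) ℂ := A * (D γ ⊗ₖ (τ γ : Matrix (Fin b) (Fin b) ℂ)) * A'

/-- the representation with `σ` replaced -/
noncomputable def tnRep (h1 : A * A' = 1) (h2 : A' * A = 1) (σ : Γ →* GL (Fin a) ℂ)
    (τ : Γ →* GL (Fin b) ℂ) : Γ →* GL (Fin n) ℂ :=
  MonoidHom.toHomUnits
    { toFun := tn A A' τ (fun x => (σ x : Matrix (Fin a) (Fin a) ℂ))
      map_one' := by
        unfold tn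
        beta_reduce
        rw [map_one, map_one, Units.val_one, Units.val_one, Matrix.one_kronecker_one,
          Matrix.mul_one, h1]
      map_mul' := fun x y => by
        unfold tn
        beta_reduce
        rw [map_mul, map_mul, Units.val_mul, Units.val_mul, Matrix.mul_kronecker_mul]
        simp only [Matrix.mul_assoc]
        rw [← Matrix.mul_assoc A' A, h2, Matrix.one_mul] }

theorem tnRep_val (h1 : A * A' = 1) (h2 : A' * A = 1) (σ : Γ →* GL (Fin a) ℂ)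
    (τ : Γ →* GL (Fin b) ℂ) (γ : Γ) :
    ((tnRep h1 h2 σ τ γ : GL (Fin n) ℂ) : Matrix (Fin n) (Fin n) ℂ) =
      tn A A' τ (fun x => (σ x : Matrix (Fin a) (Fin a) ℂ)) γ := rfl

open Classical in
/-- a function on a finite set as a family of matrices -/
noncomputable def extG (T : Finset Γ) (x : T → Fin a → Fin a → ℂ) (y : Γ) :
    Matrix (Fin a) (Fin a) ℂ :=
  if hy : y ∈ T then Matrix.of (x ⟨y, hy⟩) else 0

omit [Group Γ] in
theorem extG_cont (T : Finset Γ) (y : Γ) :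
    Continuous fun x : T → Fin a → Fin a → ℂ => extG T x y := by
  unfold extG
  split_ifs with hy
  · exact continuous_apply (⟨y, hy⟩ : T)
  · exact continuous_const

theorem tn_cont (T : Finset Γ) (τ : Γ →* GL (Fin b) ℂ) (γ : Γ) :
    Continuous fun x : T → Fin a → Fin a → ℂ => tn A A' τ (extG T x) γ := by
  unfold tn
  exact (continuous_const.matrix_mul (kron_cont (extG_cont T γ) _)).matrix_mul continuous_const

end

/-- A tensor factor of a rigid representation is rigid. -/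
theorem tensor_rigid [Group.FG Γ] {ρ : Γ →* GL (Fin n) ℂ} {σ : Γ →* GL (Fin a) ℂ}
    {τ : Γ →* GL (Fin b) ℂ} (hr : Rigid ρ) (h : IsTensor ρ σ τ) (hb : b ≠ 0) : Rigid σ := by
  classical
  obtain ⟨A, A', hAA, hAA', hA⟩ := h
  have hρ : ∀ γ, tn A A' τ (fun x => (σ x : Matrix (Fin a) (Fin a) ℂ)) γ =
      (ρ γ : Matrix (Fin n) (Fin n) ℂ) := by
    intro γ
    unfold tn
    rw [← hA, Matrix.mul_assoc, hAA, Matrix.mul_one]
  obtain ⟨S, ε, hε, hS⟩ := hr
  obtain ⟨S0, hS0⟩ := (Group.FG.out : (⊤ : Subgroup Γ).FG)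
  obtain ⟨T, hT⟩ : ∃ T : Finset Γ, T = S ∪ S0 := ⟨_, rfl⟩
  have hTS : ∀ s ∈ S, s ∈ T := fun s hs => by rw [hT]; exact Finset.mem_union_left _ hs
  have hTS0 : ∀ s ∈ S0, s ∈ T := fun s hs => by rw [hT]; exact Finset.mem_union_right _ hs
  set pt' : (Γ →* GL (Fin a) ℂ) → (T → Fin a → Fin a → ℂ) :=
    fun σ' y i j => (σ' y : Matrix (Fin a) (Fin a) ℂ) i j with hpt
  have hpt1 : ∀ σ', ∀ s ∈ T, tn A A' τ (extG T (pt' σ')) s =
      tn A A' τ (fun x => (σ' x : Matrix (Fin a) (Fin a) ℂ)) s := by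
    intro σ' s hs
    unfold tn extG
    rw [dif_pos hs]
    rfl
  set z : (T → Fin a → Fin a → ℂ) → (S0 → Matrix (Fin n) (Fin n) ℂ) :=
    fun x s => tn A A' τ (extG T x) s with hz
  have hzc : Continuous z := continuous_pi fun s => tn_cont T τ (s : Γ)
  have hz0 : z (pt' σ) = fun s : S0 => (ρ s : Matrix (Fin n) (Fin n) ℂ) := by
    funext s
    rw [hz]
    beta_reduce
    rw [hpt1 σ s (hTS0 s s.2), hρ]
  have hU : {Y : Fin n → Fin n → ℂ | (pt (A' * Matrix.of Y * A)).det ≠ 0} ∈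
      𝓝 ((1 : Matrix (Fin n) (Fin n) ℂ) : Fin n → Fin n → ℂ) := by
    refine IsOpen.mem_nhds ?_ ?_
    · refine isOpen_ne_fun ?_ continuous_const
      have h1 : Continuous fun Y : Matrix (Fin n) (Fin n) ℂ => (pt (A' * Y * A)).det :=
        (pt_cont ((continuous_const.matrix_mul continuous_id).matrix_mul
          continuous_const)).matrix_det
      exact h1
    · change (pt (A' * (1 : Matrix (Fin n) (Fin n) ℂ) * A)).det ≠ 0
      rw [Matrix.mul_one, hAA', pt_one, Matrix.det_smul, Matrix.det_one, mul_one]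
      exact pow_ne_zero _ (Nat.cast_ne_zero.2 hb)
  have hk := ker_cont (eqs ρ S0 (fun s => (ρ s : Matrix (Fin n) (Fin n) ℂ)))
    (1 : Matrix (Fin n) (Fin n) ℂ) (by
    funext s
    rw [eqs_apply, one_mul, mul_one, sub_self]
    rfl) _ hU
  have hk1 : ∀ᶠ x in 𝓝 (pt' σ),
      (Module.finrank ℂ (LinearMap.ker (eqs ρ S0 (fun s => (ρ s : Matrix (Fin n) (Fin n) ℂ)) :
      (Fin n → Fin n → ℂ) →ₗ[ℂ] (S0 → Fin n → Fin n → ℂ))) ≤
    Module.finrank ℂ (LinearMap.ker (eqs ρ S0 (z x) :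
      (Fin n → Fin n → ℂ) →ₗ[ℂ] (S0 → Fin n → Fin n → ℂ)))) →
      ∃ Y ∈ {Y : Fin n → Fin n → ℂ | (pt (A' * Matrix.of Y * A)).det ≠ 0},
        eqs ρ S0 (z x) Y = 0 := by
    have hc : ContinuousAt (fun x => eqs ρ S0 (z x)) (pt' σ) :=
      ((eqs_cont ρ).comp hzc).continuousAt
    have h1 : ∀ᶠ T' : (Fin n → Fin n → ℂ) →L[ℂ] (S0 → Fin n → Fin n → ℂ) in
        𝓝 (eqs ρ S0 (z (pt' σ))),
        (Module.finrank ℂ (LinearMap.ker (eqs ρ S0 (fun s => (ρ s : Matrix (Fin n) (Fin n) ℂ)) :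
        (Fin n → Fin n → ℂ) →ₗ[ℂ] (S0 → Fin n → Fin n → ℂ))) ≤
        Module.finrank ℂ (LinearMap.ker (T' :
        (Fin n → Fin n → ℂ) →ₗ[ℂ] (S0 → Fin n → Fin n → ℂ)))) →
        ∃ Y ∈ {Y : Fin n → Fin n → ℂ | (pt (A' * Matrix.of Y * A)).det ≠ 0}, T' Y = 0 := by
      rw [hz0]
      exact hk
    exact hc.eventually h1
  have hk2 : ∀ᶠ x in 𝓝 (pt' σ), ∀ s ∈ S, ∀ i j,
      ‖tn A A' τ (extG T x) s i j - (ρ s : Matrix (Fin n) (Fin n) ℂ) i j‖ < ε := by
    rw [Filter.eventually_all_finset]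
    intro s hs
    rw [Filter.eventually_all]
    intro i
    rw [Filter.eventually_all]
    intro j
    have hc : Continuous fun x : T → Fin a → Fin a → ℂ =>
        ‖tn A A' τ (extG T x) s i j - (ρ s : Matrix (Fin n) (Fin n) ℂ) i j‖ :=
      (((tn_cont T τ s).matrix_elem i j).sub continuous_const).norm
    have h1 := hc.tendsto (pt' σ)
    rw [hpt1 σ s (hTS s hs), hρ, sub_self, norm_zero] at h1
    exact h1.eventually (gt_mem_nhds hε)
  obtain ⟨δ, hδ, hball⟩ := Metric.eventually_nhds_iff.1 (hk1.and hk2)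
  refine ⟨T, δ, hδ, fun σ' hn => ?_⟩
  have hd : dist (pt' σ') (pt' σ) < δ := by
    refine (dist_pi_lt_iff hδ).2 fun y => (dist_pi_lt_iff hδ).2 fun i =>
      (dist_pi_lt_iff hδ).2 fun j => ?_
    rw [dist_eq_norm]
    exact hn y y.2 i j
  obtain ⟨hb1, hb2⟩ := hball hd
  obtain ⟨g, hg⟩ := hS (tnRep hAA hAA' σ' τ) (by
    intro s hs i j
    have := hb2 s hs i j
    rw [hpt1 σ' s (hTS s hs)] at this
    exact this)
  obtain ⟨Y0, hY1, hY2⟩ := hb1 (eqs_dim hg _ fun s => by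
    rw [hz]
    beta_reduce
    rw [hpt1 σ' s (hTS0 s s.2)]
    rfl)
  obtain ⟨Y, hYY⟩ : ∃ Y : Matrix (Fin n) (Fin n) ℂ, Y = Matrix.of Y0 := ⟨_, rfl⟩
  change (pt (A' * Matrix.of Y0 * A)).det ≠ 0 at hY1
  rw [← hYY] at hY1
  have hY3 : ∀ γ, Y * (tnRep hAA hAA' σ' τ γ : Matrix (Fin n) (Fin n) ℂ) =
      (ρ γ : Matrix (Fin n) (Fin n) ℂ) * Y := by
    refine eqs_all hS0 fun s hs => ?_
    have h1 := congrFun hY2 ⟨s, hs⟩
    change Matrix.of Y0 * tn A A' τ (extG T (pt' σ')) s -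
      (ρ s : Matrix (Fin n) (Fin n) ℂ) * Matrix.of Y0 = 0 at h1
    rw [hpt1 σ' s (hTS0 s hs), ← hYY] at h1
    exact sub_eq_zero.1 h1
  have hK : ∀ x : Γ, pt (A' * Y * A) * (σ' x : Matrix (Fin a) (Fin a) ℂ) =
      (σ x : Matrix (Fin a) (Fin a) ℂ) * pt (A' * Y * A) := by
    intro x
    refine pt_inter (N := τ x) ?_
    have h3 := hY3 x
    rw [tnRep_val] at h3
    unfold tn at h3
    calc A' * Y * A * ((σ' x : Matrix (Fin a) (Fin a) ℂ) ⊗ₖ (τ x : Matrix (Fin b) (Fin b) ℂ))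
        = A' * (Y * (A * ((σ' x : Matrix (Fin a) (Fin a) ℂ) ⊗ₖ
            (τ x : Matrix (Fin b) (Fin b) ℂ)) * A')) * A := by
          simp only [Matrix.mul_assoc]
          rw [hAA', Matrix.mul_one]
      _ = A' * ((ρ x : Matrix (Fin n) (Fin n) ℂ) * Y) * A := by rw [h3]
      _ = A' * ((ρ x : Matrix (Fin n) (Fin n) ℂ) * (A * A')) * Y * A := by
          rw [hAA, Matrix.mul_one]
          simp only [Matrix.mul_assoc]
      _ = A' * (A * ((σ x : Matrix (Fin a) (Fin a) ℂ) ⊗ₖ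
            (τ x : Matrix (Fin b) (Fin b) ℂ)) * A') * Y * A := by
          rw [← Matrix.mul_assoc (ρ x : Matrix (Fin n) (Fin n) ℂ), hA]
      _ = (A' * A) * (((σ x : Matrix (Fin a) (Fin a) ℂ) ⊗ₖ
            (τ x : Matrix (Fin b) (Fin b) ℂ)) * (A' * Y * A)) := by
          simp only [Matrix.mul_assoc]
      _ = _ := by rw [hAA', Matrix.one_mul]
  refine ⟨(Matrix.GeneralLinearGroup.mkOfDetNeZero (pt (A' * Y * A)) hY1)⁻¹, fun x => ?_⟩
  have h1 : Matrix.GeneralLinearGroup.mkOfDetNeZero (pt (A' * Y * A)) hY1 * σ' x =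
      σ x * Matrix.GeneralLinearGroup.mkOfDetNeZero (pt (A' * Y * A)) hY1 :=
    Units.ext (hK x)
  rw [inv_inv, mul_assoc, ← h1, inv_mul_cancel_left]

/-- the order of the factors does not matter -/
theorem IsTensor.symm {ρ : Γ →* GL (Fin n) ℂ} {σ : Γ →* GL (Fin a) ℂ} {τ : Γ →* GL (Fin b) ℂ}
    (h : IsTensor ρ σ τ) : IsTensor ρ τ σ := by
  obtain ⟨A, A', h1, h2, h3⟩ := h
  refine ⟨A.submatrix id Prod.swap, A'.submatrix Prod.swap id, ?_, ?_, fun γ => ?_⟩
  · rw [← h1]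
    exact Matrix.submatrix_mul_equiv A A' id (Equiv.prodComm (Fin b) (Fin a)) id
  · have h4 : (A' * A).submatrix (Prod.swap : Fin b × Fin a → _) Prod.swap = 1 := by
      rw [h2]
      exact Matrix.submatrix_one_equiv (Equiv.prodComm (Fin b) (Fin a))
    rw [← h4]
    exact (Matrix.submatrix_mul A' A Prod.swap id Prod.swap Function.bijective_id).symm
  · have h5 : ((τ γ : Matrix (Fin b) (Fin b) ℂ) ⊗ₖ (σ γ : Matrix (Fin a) (Fin a) ℂ)) =
        ((σ γ : Matrix (Fin a) (Fin a) ℂ) ⊗ₖ (τ γ : Matrix (Fin b) (Fin b) ℂ)).submatrix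
          Prod.swap Prod.swap := by
      ext i j
      simp only [Matrix.kroneckerMap_apply, Matrix.submatrix_apply, Prod.fst_swap, Prod.snd_swap]
      rw [mul_comm]
    have h6 := congrArg (fun X => X.submatrix id (Prod.swap : Fin b × Fin a → _)) (h3 γ)
    rw [h5]
    have h7 := Matrix.submatrix_mul_equiv A ((σ γ : Matrix (Fin a) (Fin a) ℂ) ⊗ₖ
      (τ γ : Matrix (Fin b) (Fin b) ℂ)) id (Equiv.prodComm (Fin b) (Fin a)) Prod.swap
    refine Eq.trans ?_ (h6.trans h7.symm)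
    exact (Matrix.submatrix_mul (ρ γ : Matrix (Fin n) (Fin n) ℂ) A id id Prod.swap
      Function.bijective_id).symm

/-- the inclusion of the `k`-th copy of the first factor -/
noncomputable def inc (k : Fin b) (v : Fin a → ℂ) : Fin a × Fin b → ℂ :=
  fun p => if p.2 = k then v p.1 else 0

theorem pt_mulVec (Z : Matrix (Fin a × Fin b) (Fin a × Fin b) ℂ) (v : Fin a → ℂ) :
    pt Z *ᵥ v = ∑ k, fun i => (Z *ᵥ inc k v) (i, k) := by
  funext i
  rw [Finset.sum_apply]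
  simp only [Matrix.mulVec, dotProduct, pt_apply, Finset.sum_mul]
  rw [Finset.sum_comm]
  refine Finset.sum_congr rfl fun k _ => ?_
  rw [Fintype.sum_prod_type]
  refine Finset.sum_congr rfl fun l _ => ?_
  rw [Finset.sum_eq_single k]
  · simp [inc]
  · intro k' _ hk
    simp [inc, hk]
  · intro h
    exact absurd (Finset.mem_univ _) h

/-- A tensor factor of a semisimple representation is semisimple. -/
theorem tensor_semisimple {ρ : Γ →* GL (Fin n) ℂ} {σ : Γ →* GL (Fin a) ℂ}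
    {τ : Γ →* GL (Fin b) ℂ} (hs : Semisimple ρ) (h : IsTensor ρ σ τ) (hb : b ≠ 0) :
    Semisimple σ := by
  obtain ⟨A, A', hAA, hAA', hA⟩ := h
  intro U hU
  -- `U ⊗ ℂ^b`
  set T : Submodule ℂ (Fin n → ℂ) :=
    { carrier := {v | ∀ k, (fun i => (A' *ᵥ v) (i, k)) ∈ U}
      add_mem' := fun {v w} hv hw k => by
        have h1 : (fun i => (A' *ᵥ (v + w)) (i, k)) =
            (fun i => (A' *ᵥ v) (i, k)) + fun i => (A' *ᵥ w) (i, k) := by
          rw [Matrix.mulVec_add]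
          rfl
        rw [h1]
        exact U.add_mem (hv k) (hw k)
      zero_mem' := fun k => by
        rw [Matrix.mulVec_zero]
        exact U.zero_mem
      smul_mem' := fun c v hv k => by
        have h1 : (fun i => (A' *ᵥ (c • v)) (i, k)) = c • fun i => (A' *ᵥ v) (i, k) := by
          rw [Matrix.mulVec_smul]
          rfl
        rw [h1]
        exact U.smul_mem c (hv k) } with hT
  have hmem : ∀ v, v ∈ T ↔ ∀ k, (fun i => (A' *ᵥ v) (i, k)) ∈ U := fun v => Iff.rfl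
  have hA' : ∀ γ, A' * (ρ γ : Matrix (Fin n) (Fin n) ℂ) =
      ((σ γ : Matrix (Fin a) (Fin a) ℂ) ⊗ₖ (τ γ : Matrix (Fin b) (Fin b) ℂ)) * A' := by
    intro γ
    calc A' * (ρ γ : Matrix (Fin n) (Fin n) ℂ)
        = A' * ((ρ γ : Matrix (Fin n) (Fin n) ℂ) * A) * A' := by
          simp only [Matrix.mul_assoc]
          rw [hAA, Matrix.mul_one]
      _ = (A' * A) * (((σ γ : Matrix (Fin a) (Fin a) ℂ) ⊗ₖ
            (τ γ : Matrix (Fin b) (Fin b) ℂ)) * A') := by
          rw [hA]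
          simp only [Matrix.mul_assoc]
      _ = _ := by rw [hAA', Matrix.one_mul]
  have hTst : Stable ρ T := by
    intro γ v hv
    rw [hmem] at hv ⊢
    intro k
    have h1 : (fun i => (A' *ᵥ ((ρ γ : Matrix (Fin n) (Fin n) ℂ) *ᵥ v)) (i, k)) =
        ∑ l, (τ γ : Matrix (Fin b) (Fin b) ℂ) k l •
          ((σ γ : Matrix (Fin a) (Fin a) ℂ) *ᵥ fun i => (A' *ᵥ v) (i, l)) := by
      funext i
      rw [Matrix.mulVec_mulVec, hA', ← Matrix.mulVec_mulVec, Finset.sum_apply]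
      simp only [Pi.smul_apply, smul_eq_mul]
      conv_lhs => rw [Matrix.mulVec, dotProduct, Fintype.sum_prod_type, Finset.sum_comm]
      refine Finset.sum_congr rfl fun l _ => ?_
      rw [Matrix.mulVec, dotProduct, Finset.mul_sum]
      refine Finset.sum_congr rfl fun j _ => ?_
      rw [Matrix.kroneckerMap_apply]
      ring
    rw [h1]
    exact U.sum_mem fun l _ => U.smul_mem _ (hU γ _ (hv l))
  obtain ⟨W, hW, hc⟩ := hs T hTst
  set π := Submodule.projectionOnto T W hc with hπ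
  have hπW : ∀ x, x - (π x : Fin n → ℂ) ∈ W := by
    intro x
    have h1 : π (x - (π x : Fin n → ℂ)) = 0 := by
      rw [map_sub, hπ, Submodule.projectionOnto_apply_left, sub_self]
    rwa [hπ, Submodule.projectionOnto_apply_eq_zero_iff] at h1
  have hπρ : ∀ γ x, (π ((ρ γ : Matrix (Fin n) (Fin n) ℂ) *ᵥ x) : Fin n → ℂ) =
      (ρ γ : Matrix (Fin n) (Fin n) ℂ) *ᵥ (π x : Fin n → ℂ) := by
    intro γ x
    have h1 : (ρ γ : Matrix (Fin n) (Fin n) ℂ) *ᵥ x =
        (ρ γ : Matrix (Fin n) (Fin n) ℂ) *ᵥ (π x : Fin n → ℂ) +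
        (ρ γ : Matrix (Fin n) (Fin n) ℂ) *ᵥ (x - (π x : Fin n → ℂ)) := by
      rw [← Matrix.mulVec_add, add_sub_cancel]
    have h2 : π ((ρ γ : Matrix (Fin n) (Fin n) ℂ) *ᵥ (x - (π x : Fin n → ℂ))) = 0 := by
      rw [hπ, Submodule.projectionOnto_apply_eq_zero_iff]
      exact hW γ _ (hπW x)
    have h3 := Submodule.projectionOnto_apply_left hc
      (⟨_, hTst γ _ (π x).2⟩ : T)
    rw [h1, map_add, h2, add_zero]
    exact congrArg Subtype.val h3
  -- the matrix of the projection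
  obtain ⟨Q, hQ⟩ : ∃ Q : Matrix (Fin n) (Fin n) ℂ, ∀ x, Q *ᵥ x = (π x : Fin n → ℂ) :=
    ⟨LinearMap.toMatrix' (T.subtype ∘ₗ π), fun x => by
      rw [← Matrix.toLin'_apply, Matrix.toLin'_toMatrix']
      rfl⟩
  have hQρ : ∀ γ, Q * (ρ γ : Matrix (Fin n) (Fin n) ℂ) = (ρ γ : Matrix (Fin n) (Fin n) ℂ) * Q := by
    intro γ
    apply Matrix.toLin'.injective
    refine LinearMap.ext fun x => ?_
    rw [Matrix.toLin'_apply, Matrix.toLin'_apply, ← Matrix.mulVec_mulVec, ← Matrix.mulVec_mulVec,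
      hQ, hQ, hπρ]
  set Z := A' * Q * A with hZ
  have hZσ : ∀ γ, pt Z * (σ γ : Matrix (Fin a) (Fin a) ℂ) =
      (σ γ : Matrix (Fin a) (Fin a) ℂ) * pt Z := by
    intro γ
    refine pt_inter (N := τ γ) ?_
    calc A' * Q * A * ((σ γ : Matrix (Fin a) (Fin a) ℂ) ⊗ₖ (τ γ : Matrix (Fin b) (Fin b) ℂ))
        = A' * (Q * (ρ γ : Matrix (Fin n) (Fin n) ℂ)) * A := by
          rw [Matrix.mul_assoc (A' * Q), ← hA]
          simp only [Matrix.mul_assoc]
      _ = (A' * (ρ γ : Matrix (Fin n) (Fin n) ℂ)) * (Q * A) := by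
          rw [hQρ]
          simp only [Matrix.mul_assoc]
      _ = _ := by
          rw [hA']
          simp only [hZ, Matrix.mul_assoc]
  have hZU : ∀ v, pt Z *ᵥ v ∈ U := by
    intro v
    rw [pt_mulVec]
    refine U.sum_mem fun k _ => ?_
    rw [hZ, ← Matrix.mulVec_mulVec, ← Matrix.mulVec_mulVec, hQ]
    exact (hmem _).1 (π _).2 k
  have hZu : ∀ u ∈ U, pt Z *ᵥ u = (b : ℂ) • u := by
    intro u hu
    rw [pt_mulVec]
    have h1 : ∀ k : Fin b, Z *ᵥ inc k u = inc k u := by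
      intro k
      have h2 : A *ᵥ inc k u ∈ T := by
        rw [hmem]
        intro l
        rw [Matrix.mulVec_mulVec, hAA', Matrix.one_mulVec]
        by_cases hl : l = k
        · have : (fun i => inc k u (i, l)) = u := by
            funext i
            simp [inc, hl]
          rw [this]
          exact hu
        · have : (fun i => inc k u (i, l)) = 0 := by
            funext i
            simp [inc, hl]
          rw [this]
          exact U.zero_mem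
      have h3 := congrArg Subtype.val (Submodule.projectionOnto_apply_left hc (⟨_, h2⟩ : T))
      rw [hZ, ← Matrix.mulVec_mulVec, ← Matrix.mulVec_mulVec, hQ]
      change A' *ᵥ (π (A *ᵥ inc k u) : Fin n → ℂ) = _
      rw [show (π (A *ᵥ inc k u) : Fin n → ℂ) = A *ᵥ inc k u from h3, Matrix.mulVec_mulVec, hAA',
        Matrix.one_mulVec]
    funext i
    rw [Finset.sum_apply]
    simp only [h1]
    simp [inc]
  have hb' : (b : ℂ) ≠ 0 := Nat.cast_ne_zero.2 hb
  set q : (Fin a → ℂ) →ₗ[ℂ] U :=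
    LinearMap.codRestrict U ((b : ℂ)⁻¹ • Matrix.toLin' (pt Z)) (fun v => U.smul_mem _ (hZU v))
    with hq
  have hqa : ∀ v, (q v : Fin a → ℂ) = (b : ℂ)⁻¹ • (pt Z *ᵥ v) := fun v => rfl
  have hqf : ∀ u : U, q u = u := by
    intro u
    refine Subtype.ext ?_
    rw [hqa, hZu u u.2, smul_smul, inv_mul_cancel₀ hb', one_smul]
  refine ⟨LinearMap.ker q, ?_, LinearMap.isCompl_of_proj hqf⟩
  intro γ v hv
  rw [LinearMap.mem_ker] at hv ⊢
  have hv' : (b : ℂ)⁻¹ • (pt Z *ᵥ v) = 0 := congrArg Subtype.val hv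
  have hv2 : pt Z *ᵥ v = 0 := (smul_eq_zero.1 hv').resolve_left (inv_ne_zero hb')
  refine Subtype.ext ?_
  rw [hqa, Matrix.mulVec_mulVec, hZσ, ← Matrix.mulVec_mulVec, hv2, Matrix.mulVec_zero, smul_zero]
  rfl

end Pool.Agent.MP_009209
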