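import Pool.Agent.Lib.MP_009209_ag.Prim
import Pool.Agent.Lib.MP_009209_ag.Tensor

/-!
# Reduction to primitive and tensor-indecomposable representations
-/

namespace Pool.Agent.MP_009209

open Matrix

universe u

variable {Γ : Type*} [Group Γ] {n m : ℕ}

/-- the blocks of a system -/
theorem sys_block [Group.FG Γ] {ρ : Γ →* GL (Fin n) ℂ} (hr : Rigid ρ) (hs : Semisimple ρ)
    {𝒱 : Set (Submodule ℂ (Fin n → ℂ))} (h : System ρ 𝒱) {V : Submodule ℂ (Fin n → ℂ)}
    (hV : V ∈ 𝒱) : (stab ρ V).FiniteIndex ∧ Finite (Abelianization (stab ρ V)) ∧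
      ∀ (m : ℕ) (σ : stab ρ V →* GL (Fin m) ℂ), ActsAs ρ (stab ρ V) V σ →
        Rigid σ ∧ Semisimple σ := by
  let _ := actS h
  have hind : iSupIndep ((↑) : 𝒱 → Submodule ℂ (Fin n → ℂ)) := (sSupIndep_iff 𝒱).1 h.indep
  have hperm : ∀ (γ : Γ) (W : 𝒱), ∀ v ∈ (W : Submodule ℂ (Fin n → ℂ)),
      (ρ γ : Matrix (Fin n) (Fin n) ℂ) *ᵥ v ∈ ((γ • W : 𝒱) : Submodule ℂ (Fin n → ℂ)) :=
    fun γ W v hv => ⟨v, hv, rfl⟩
  have hst : MulAction.stabilizer Γ (⟨V, hV⟩ : 𝒱) = stab ρ V := by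
    ext γ
    rw [MulAction.mem_stabilizer_iff]
    exact ⟨fun h => congrArg Subtype.val h, fun h => Subtype.ext h⟩
  obtain ⟨h1, h2⟩ := finite_ab_stab' hr hs ((↑) : 𝒱 → Submodule ℂ (Fin n → ℂ)) hind hperm
    ⟨V, hV⟩ (h.ne_bot V hV)
  rw [hst] at h1 h2
  refine ⟨h1, h2, fun m σ hσ => ?_⟩
  have h5 := block_rigid (m := m) hr hs ((↑) : 𝒱 → Submodule ℂ (Fin n → ℂ)) hind hperm
    ⟨V, hV⟩ (h.ne_bot V hV)
  rw [hst] at h5
  exact h5 σ hσ

theorem system_top {ρ : Γ →* GL (Fin n) ℂ} (hn : n ≠ 0) : System ρ {⊤} := by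
  refine ⟨sSupIndep_singleton _, sSup_singleton, ?_, ?_⟩
  · intro W hW
    rw [Set.mem_singleton_iff.1 hW]
    intro h0
    have h1 := congrArg (fun W : Submodule ℂ (Fin n → ℂ) => Module.finrank ℂ W) h0
    simp only [finrank_top, finrank_bot, Module.finrank_fin_fun] at h1
    exact hn h1
  · intro γ W hW
    rw [Set.mem_singleton_iff.1 hW, Set.mem_singleton_iff]
    unfold mv
    rw [Submodule.map_top, LinearMap.range_eq_top]
    intro v
    refine ⟨((ρ γ)⁻¹ : GL (Fin n) ℂ).val *ᵥ v, ?_⟩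
    rw [Matrix.toLin'_apply, Matrix.mulVec_mulVec, ← Units.val_mul, mul_inv_cancel,
      Units.val_one, Matrix.one_mulVec]

/-- a group with a rigid semisimple representation of positive dimension has a finite
abelianization -/
theorem finite_ab_of_rigid [Group.FG Γ] {ρ : Γ →* GL (Fin n) ℂ} (hr : Rigid ρ)
    (hs : Semisimple ρ) (hn : n ≠ 0) : Finite (Abelianization Γ) := by
  have h := system_top (ρ := ρ) hn
  obtain ⟨-, h2, -⟩ := sys_block hr hs h (Set.mem_singleton _)
  have h3 : stab ρ ⊤ = ⊤ := by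
    rw [eq_top_iff]
    intro γ _
    exact Set.mem_singleton_iff.1 (h.perm γ ⊤ (Set.mem_singleton _))
  rw [h3] at h2
  exact Finite.of_equiv _ (Subgroup.topEquiv (G := Γ)).abelianizationCongr.toEquiv

theorem tensor_dim {a b : ℕ} {ρ : Γ →* GL (Fin n) ℂ} {σ : Γ →* GL (Fin a) ℂ}
    {τ : Γ →* GL (Fin b) ℂ} (h : IsTensor ρ σ τ) : n = a * b := by
  obtain ⟨A, A', h1, h2, -⟩ := h
  have h3 := (Matrix.toLin'OfInv h1 h2).finrank_eq
  rw [Module.finrank_fin_fun, Module.finrank_fintype_fun_eq_card, Fintype.card_prod,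
    Fintype.card_fin, Fintype.card_fin] at h3
  exact h3

theorem acts_dim {ρ : Γ →* GL (Fin n) ℂ} {H : Subgroup Γ} {V : Submodule ℂ (Fin n → ℂ)}
    {σ : H →* GL (Fin m) ℂ} (h : ActsAs ρ H V σ) : m = Module.finrank ℂ V := by
  obtain ⟨B, hB, hV, -⟩ := h
  have h1 := LinearMap.finrank_range_of_inj (f := B.mulVecLin) hB
  rw [hV, Module.finrank_fin_fun] at h1
  exact h1.symm

/-- Every rigid semisimple representation is in the class `Gen`. -/
theorem gen_of_rigid : ∀ (n : ℕ) (Γ : Type u) [Group Γ] [Group.FG Γ] (ρ : Γ →* GL (Fin n) ℂ),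
    Rigid ρ → Semisimple ρ → Gen Γ n ρ := by
  intro n
  induction n using Nat.strong_induction_on with
  | _ n ih =>
  intro Γ _ _ ρ hr hs
  by_cases hn : n = 0
  · subst hn
    refine Gen.system Γ 0 ρ ∅ ⟨sSupIndep_empty, ?_, fun W hW => absurd hW (Set.notMem_empty W),
      fun γ W hW => absurd hW (Set.notMem_empty W)⟩
      (fun V hV => absurd hV (Set.notMem_empty V)) (fun V hV => absurd hV (Set.notMem_empty V))
    rw [sSup_empty, eq_comm, Submodule.eq_bot_iff]
    intro x _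
    exact Subsingleton.elim x 0
  by_cases hp : Primitive ρ
  · by_cases ht : TensorIndec ρ
    · exact Gen.base Γ n ρ inferInstance (finite_ab_of_rigid hr hs hn) hr hs hp ht
    · unfold TensorIndec at ht
      push Not at ht
      obtain ⟨a, b, σ, τ, h, ha, hb⟩ := ht
      have hab := tensor_dim h
      have ha' : a < n := by rw [hab]; nlinarith
      have hb' : b < n := by rw [hab]; nlinarith
      exact Gen.tensor Γ n a b ρ σ τ h
        (ih a ha' Γ σ (tensor_rigid hr h (by omega)) (tensor_semisimple hs h (by omega)))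
        (ih b hb' Γ τ (tensor_rigid hr h.symm (by omega)) (tensor_semisimple hs h.symm (by omega)))
  · have hex : ∃ 𝒱, System ρ 𝒱 ∧ 𝒱 ≠ {⊤} := by
      by_contra hc
      push Not at hc
      exact hp ⟨hn, hc⟩
    obtain ⟨𝒱, h, hne⟩ := hex
    refine Gen.system Γ n ρ 𝒱 h (fun V hV => (sys_block hr hs h hV).1) ?_
    intro V hV m σ hσ
    obtain ⟨h1, -, h3⟩ := sys_block hr hs h hV
    obtain ⟨hσr, hσs⟩ := h3 m σ hσ
    have hVt : V ≠ ⊤ := by
      rintro rfl
      apply hne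
      ext W
      rw [Set.mem_singleton_iff]
      constructor
      · intro hW
        by_contra hWt
        have h4 := h.indep.pairwiseDisjoint hW hV hWt
        exact h.ne_bot W hW (h4.eq_bot_of_le le_top)
      · rintro rfl
        exact hV
    have hm : m < n := by
      rw [acts_dim hσ]
      have h5 := Submodule.finrank_lt hVt
      rwa [Module.finrank_fin_fun] at h5
    have : Group.FG (stab ρ V) := inferInstance
    exact ih m hm (stab ρ V) σ hσr hσs

end Pool.Agent.MP_009209
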