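import Pool.Agent.Lib.MP_009209_ag.FC

/-!
# Normal subgroups with virtually solvable image
-/

namespace Pool.Agent.MP_009209

open Matrix

section grp

variable {G : Type*} [Group G]

theorem sup_solv (A B : Subgroup G) [A.Normal] [B.Normal] [Group.IsSolvable A]
    [Group.IsSolvable B] : Group.IsSolvable (A ⊔ B : Subgroup G) := by
  have h1 : Group.IsSolvable (B.map (QuotientGroup.mk' A)) :=
    Group.isSolvable_of_surjective (MonoidHom.subgroupMap_surjective (QuotientGroup.mk' A) B)
  have hmem : ∀ x : (A ⊔ B : Subgroup G), (QuotientGroup.mk' A) x ∈ B.map (QuotientGroup.mk' A) := by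
    rintro ⟨x, hx⟩
    obtain ⟨a, ha, b, hb, rfl⟩ := Subgroup.mem_sup_of_normal_left.1 hx
    refine ⟨b, hb, ?_⟩
    rw [map_mul]
    have : (QuotientGroup.mk' A) a = 1 := (QuotientGroup.eq_one_iff a).2 ha
    rw [this, one_mul]
  refine Group.isSolvable_of_ker_le_range (Subgroup.inclusion (le_sup_left : A ≤ A ⊔ B))
    (((QuotientGroup.mk' A).comp (A ⊔ B : Subgroup G).subtype).codRestrict _ hmem) ?_
  rintro ⟨x, hx⟩ hk
  have h2 := congrArg Subtype.val (MonoidHom.mem_ker.1 hk)
  have h3 : x ∈ A := (QuotientGroup.eq_one_iff x).1 h2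
  exact ⟨⟨x, h3⟩, rfl⟩

theorem map_index_equiv (e : G ≃* G) (A : Subgroup G) : (A.map e.toMonoidHom).index = A.index := by
  rw [Subgroup.index_map]
  have h1 : e.toMonoidHom.ker = ⊥ := (MonoidHom.ker_eq_bot_iff _).2 e.injective
  have h2 : e.toMonoidHom.range = ⊤ := MonoidHom.range_eq_top.2 e.surjective
  rw [h1, h2, sup_bot_eq, Subgroup.index_top, mul_one]

/-- A virtually solvable group has a characteristic solvable subgroup of finite index. -/
theorem exists_char (A₀ : Subgroup G) [hf : A₀.FiniteIndex] [hA : Group.IsSolvable A₀] :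
    ∃ A : Subgroup G, A.Characteristic ∧ A.FiniteIndex ∧ Group.IsSolvable A := by
  classical
  set P : ℕ → Prop := fun k => ∃ A : Subgroup G, A.Normal ∧ A.FiniteIndex ∧ Group.IsSolvable A ∧
    A.index = k with hP
  have hex : ∃ k, P k := by
    refine ⟨_, A₀.normalCore, inferInstance, inferInstance, ?_, rfl⟩
    exact Group.isSolvable_of_isSolvable_injective
      (Subgroup.inclusion_injective A₀.normalCore_le)
  obtain ⟨A, hAn, hAf, hAs, hAi⟩ := Nat.find_spec hex
  refine ⟨A, ?_, hAf, hAs⟩
  rw [Subgroup.characteristic_iff_map_le]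
  intro e
  have h1 : (A.map e.toMonoidHom).Normal := hAn.map _ e.surjective
  have h2 : Group.IsSolvable (A.map e.toMonoidHom) :=
    Group.isSolvable_of_surjective (MonoidHom.subgroupMap_surjective e.toMonoidHom A)
  have h3 : Group.IsSolvable (A ⊔ A.map e.toMonoidHom : Subgroup G) := sup_solv _ _
  have h4 : (A ⊔ A.map e.toMonoidHom : Subgroup G).FiniteIndex :=
    Subgroup.finiteIndex_of_le le_sup_left
  have h5 : Nat.find hex ≤ (A ⊔ A.map e.toMonoidHom : Subgroup G).index :=
    Nat.find_min' hex ⟨_, inferInstance, h4, h3, rfl⟩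
  rw [← hAi] at h5
  have h6 := Subgroup.relIndex_mul_index (le_sup_left : A ≤ A ⊔ A.map e.toMonoidHom)
  have h7 : A.index ≠ 0 := hAf.index_ne_zero
  have h8 : (A ⊔ A.map e.toMonoidHom : Subgroup G).index ≠ 0 := h4.index_ne_zero
  have h9 : A.relIndex (A ⊔ A.map e.toMonoidHom) = 1 := by
    have h10 : A.relIndex (A ⊔ A.map e.toMonoidHom) ≠ 0 := by
      intro h0
      rw [h0, zero_mul] at h6
      exact h7 h6.symm
    by_contra hne
    have h11 : 2 ≤ A.relIndex (A ⊔ A.map e.toMonoidHom) := by omega
    nlinarith [Nat.pos_of_ne_zero h8]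
  rw [Subgroup.relIndex_eq_one] at h9
  exact le_sup_right.trans h9

end grp

variable {Γ : Type*} [Group Γ] {n : ℕ}

/-- A normal subgroup with virtually solvable image has finite image. -/
theorem vsolv [Group.FG Γ] {ρ : Γ →* GL (Fin n) ℂ} (hr : Rigid ρ) (hs : Semisimple ρ)
    (N : Subgroup Γ) [N.Normal] (A₀ : Subgroup (N.map ρ)) [hf : A₀.FiniteIndex]
    [hA : Group.IsSolvable A₀] : Finite (N.map ρ) := by
  classical
  set r : Γ →* ρ.range := ρ.rangeRestrict with hrdef
  have hrs : Function.Surjective r := ρ.rangeRestrict_surjective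
  have hKn : (N.map r).Normal := Subgroup.Normal.map inferInstance r hrs
  have e1 : (N.map r).map ρ.range.subtype = N.map ρ := by
    rw [Subgroup.map_map]
    rfl
  let e : N.map r ≃* N.map ρ :=
    ((N.map r).equivMapOfInjective ρ.range.subtype (Subgroup.subtype_injective _)).trans
      (MulEquiv.subgroupCongr e1)
  have hA1s : Group.IsSolvable (A₀.map e.symm.toMonoidHom) :=
    Group.isSolvable_of_surjective (MonoidHom.subgroupMap_surjective e.symm.toMonoidHom A₀)
  have hA1f : (A₀.map e.symm.toMonoidHom).FiniteIndex := by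
    refine ⟨?_⟩
    have h1 : e.symm.toMonoidHom.ker = ⊥ := (MonoidHom.ker_eq_bot_iff _).2 e.symm.injective
    have h2 : e.symm.toMonoidHom.range = ⊤ := MonoidHom.range_eq_top.2 e.symm.surjective
    rw [Subgroup.index_map, h1, h2, sup_bot_eq, Subgroup.index_top, mul_one]
    exact hf.index_ne_zero
  obtain ⟨A, hAc, hAf, hAs⟩ := exists_char (A₀.map e.symm.toMonoidHom)
  have hBn : (A.map (N.map r).subtype).Normal := ConjAct.normal_of_characteristic_of_normal
  have hMn : ((A.map (N.map r).subtype).comap r).Normal := hBn.comap r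
  have hMr : ((A.map (N.map r).subtype).comap r).map r = A.map (N.map r).subtype :=
    Subgroup.map_comap_eq_self_of_surjective hrs _
  have hMρ : ((A.map (N.map r).subtype).comap r).map ρ =
      (A.map (N.map r).subtype).map ρ.range.subtype := by
    rw [← hMr, Subgroup.map_map, hMr]
    rfl
  have hs1 : Group.IsSolvable (A.map (N.map r).subtype) :=
    Group.isSolvable_of_surjective (MonoidHom.subgroupMap_surjective _ A)
  have hs2 : Group.IsSolvable (((A.map (N.map r).subtype).comap r).map ρ) := by
    rw [hMρ]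
    exact Group.isSolvable_of_surjective (MonoidHom.subgroupMap_surjective _ _)
  have hfin := solv hr hs ((A.map (N.map r).subtype).comap r)
  have hfin2 : Finite (((A.map (N.map r).subtype).comap r).map ρ) := by
    refine Set.Finite.to_subtype (hfin.subset ?_)
    rintro _ ⟨x, hx, rfl⟩
    exact ⟨⟨x, hx⟩, rfl⟩
  have hAfin : Finite A := by
    rw [hMρ] at hfin2
    have h1 : Finite (A.map (N.map r).subtype) :=
      Finite.of_equiv _ ((A.map (N.map r).subtype).equivMapOfInjective ρ.range.subtype
        (Subgroup.subtype_injective _)).symm.toEquiv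
    exact Finite.of_equiv _ (A.equivMapOfInjective (N.map r).subtype
        (Subgroup.subtype_injective _)).symm.toEquiv
  have hKfin : Finite (N.map r) := Finite.of_subgroup_quotient A
  exact Finite.of_equiv _ e.toEquiv

end Pool.Agent.MP_009209
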